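import Pool.Agent.D0H63.Cu.Pk

/-!
# The translates of the blocks, and the choice functions
-/

set_option autoImplicit false
set_option linter.unusedSectionVars false

namespace Pool.Agent.D0H63.Cu

open Pool.Agent.W868 Pool.Agent.W868.PName Pool.Agent.R598.SY
open Pool.Agent.R598.CI (Kc UDf SF udp udm ude udw isZF_Ms exists_cld famN el_famN fix_famN hs_famN
  val_famN val_eq_of_feq val_mem_of_fmem arc isOpen_arc exists_arc)
open Gp
open ZFSet (pair)

/-! ### Definability -/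

theorem udw4 {n : ℕ} (a b c d e : Fin n) :
    UDf fun _ (v : Fin n → ZFSet.{0}) => pair (v a) (pair (v b) (pair (v c) (v d))) ∈ v e := by
  have h1 : UDf fun M (v : Fin n → ZFSet.{0}) => ∃ z ∈ M, z = pair (v c) (v d) ∧
      pair (v a) (pair (v b) z) ∈ v e := by
    refine UDf.ex (Q := fun M z v => z = pair (v c) (v d) ∧ pair (v a) (pair (v b) z) ∈ v e)
      (UDf.and ?_ ?_)
    · exact UDf.of (D0.isPair (D0v.proj 0) (D0v.proj c.succ) (D0v.proj d.succ))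
    · exact udw a.succ b.succ 0 e.succ
  refine h1.congr fun M hM v hv => ?_
  constructor
  · rintro ⟨z, -, rfl, h⟩
    exact h
  · exact fun h => ⟨_, hM.pair_mem (hv c) (hv d), rfl, h⟩

theorem ud_sm {n : ℕ} (A W a t b : Fin n) :
    UDf fun _ (v : Fin n → ZFSet.{0}) => Sm (v A) (v W) (v a) (v t) (v b) := by
  have h1 : UDf fun _ (w : Fin (n + 1) → ZFSet.{0}) => ∃ i ∈ w a.succ, ∃ j ∈ w t.succ,
      pair i (pair j (w 0)) ∈ w A.succ :=
    UDf.bex a.succ (UDf.bex t.succ.succ (udw 1 0 (0 : Fin (n + 1)).succ.succ A.succ.succ.succ))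
  exact UDf.ball W (UDf.and (UDf.imp (udm 0 b.succ) h1) (UDf.imp h1 (udm 0 b.succ)))

theorem ud_tr {n : ℕ} (A W C t D : Fin n) :
    UDf fun _ (v : Fin n → ZFSet.{0}) => TrP (v A) (v W) (v C) (v t) (v D) := by
  refine UDf.and ?_ ?_
  · exact UDf.ball C (UDf.bex D.succ (ud_sm A.succ.succ W.succ.succ 1 t.succ.succ 0))
  · exact UDf.ball D (UDf.bex C.succ (ud_sm A.succ.succ W.succ.succ 0 t.succ.succ 1))

theorem ud_cd {n : ℕ} (Q W t : Fin n) :
    UDf fun _ (v : Fin n → ZFSet.{0}) => CdP (v Q) (v W) (v t) := by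
  refine UDf.and ?_ (UDf.and ?_ (UDf.and ?_ ?_))
  · exact UDf.ball t (udm 0 W.succ)
  · exact UDf.bex t (udm 0 W.succ)
  · exact UDf.ball W (UDf.ball t.succ (UDf.ball t.succ.succ (UDf.bex t.succ.succ.succ
      (udw4 3 2 1 0 Q.succ.succ.succ.succ))))
  · exact UDf.ball t (UDf.ball W.succ (UDf.ball W.succ.succ (UDf.imp
      (udw4 0 1 1 2 Q.succ.succ.succ) (udm 1 t.succ.succ.succ))))

/-- The elements of the elements are in `W`. -/
theorem ud_sub2 {n : ℕ} (D W : Fin n) :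
    UDf fun _ (v : Fin n → ZFSet.{0}) => ∀ b ∈ v D, ∀ c ∈ b, c ∈ v W :=
  UDf.ball D (UDf.ball 0 (udm 0 W.succ.succ))

/-! ### The orbits of the blocks -/

/-- The set `v 1` is a translate of `v 0`. -/
def TRs (M : Set ZFSet.{0}) (v : Fin 5 → ZFSet.{0}) : Prop :=
  (∀ b ∈ v 1, ∀ c ∈ b, c ∈ v 4) ∧ ∃ t ∈ M, CdP (v 3) (v 4) t ∧ TrP (v 2) (v 4) (v 0) t (v 1)

theorem ud_TRs : UDf TRs := by
  refine UDf.and (ud_sub2 1 4) (UDf.ex (UDf.and ?_ ?_))
  · exact ud_cd 4 5 0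
  · exact ud_tr 3 5 1 0 2

/-- The functions for the image of a block. -/
def ψ (g : Gp) (n : ℕ) (i : ℕ) : C(Xs, Kc) := (ev (some n, i)).comp (hom g⁻¹)

theorem ψ_apply (g : Gp) (n i : ℕ) (z : Xs) :
    ψ g n i z = z (some n, g.σ n i) + g⁻¹.h n (fr z) := rfl

theorem as_Par : AS ∈ Par := by simp [Par]
theorem qs_Par : QS ∈ Par := by simp [Par]
theorem fs_Par : FS ∈ Par := by simp [Par]
theorem gs_Par : GS ∈ Par := by simp [Par]
theorem ds_Par : DS ∈ Par := by simp [Par]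
theorem hq_Par : HQ ∈ Par := by simp [Par]
theorem rcs_Par : R598.CI.RCS ∈ Par := by simp [Par]
theorem mem_Par : R598.TY.Mem ∈ Par := by simp [Par]
theorem code_Par : code 0 ∈ Par := by simp [Par]

theorem hs_ψ (g : Gp) (n i : ℕ) : S.HS (cdN (ψ g n i)) := by
  obtain ⟨N, hN⟩ := g⁻¹.hf n
  refine hs_cdN (n := max N (max n (g.σ n i) + 1)) fun k hk => ?_
  have hk' := mem_Hl.1 ((Hl _).inv_mem hk)
  ext z : 1
  change ψ g n i (apx k⁻¹ z) = ψ g n i z
  rw [ψ_apply, ψ_apply, apx_some, fr_apx, hk'.2.1 n (by omega), add_zero,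
    σ_symm_of_mem ((Hl _).inv_mem hk) (by omega) (by omega)]
  congr 1
  exact hN _ _ ((hk'.1 (fr z)).mono (le_max_left _ _))

theorem hs_fψ (g : Gp) (n : ℕ) : S.HS (fN (ψ g n)) := by
  refine S.hs_iff.2 ⟨?_, fun z c hz => ?_⟩
  · obtain ⟨m, hm⟩ := exists_level (S.hs_act (hs_CN n) g)
    refine ⟨_, Hl_mem_F m, fun k hk p => ?_⟩
    have h1 : ∀ p, Feq (act (ac g) (CN n)) (fN (ψ g n)) p := fun p => act_fN g _ p
    have h2 : Feq (act (ac k) (act (ac g) (CN n))) (act (ac g) (CN n)) p := hm k hk p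
    have h3 : Feq (act (ac k) (act (ac g) (CN n))) (act (ac k) (fN (ψ g n))) p :=
      feq_act_of (h1 (ac k⁻¹ p)) le_rfl
    exact feq_trans (feq_trans h3.symm h2) (h1 p)
  · obtain ⟨i, rfl, -⟩ := el_famN.1 hz
    exact hs_ψ g n i

/-- The names for the image of a block. -/
noncomputable def AG (g : Gp) (n : ℕ) : Set (PName Po) :=
  ((⋃ i, AR (ψ g n i)) ∪ AR (hφ g⁻¹ n)) ∪ {fN (ψ g n)}

theorem ag_cnt (g : Gp) (n : ℕ) : (AG g n).Countable :=
  ((Set.countable_iUnion fun i => ar_cnt _).union (ar_cnt _)).union (Set.countable_singleton _)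

theorem val_fψ {π : Pkg Po} {g : Gp} {n : ℕ} (h : AG g n ⊆ π.N) :
    π.val (fN (ψ g n)) = cs fun i => bl π n i + g⁻¹.h n (fr (gp π)) := by
  have h1 : ∀ i, AR (ψ g n i) ⊆ π.N := fun i x hx =>
    h (Or.inl (Or.inl (Set.mem_iUnion.2 ⟨i, hx⟩)))
  rw [val_fN (fun i c => ar_rg (h1 i) c) (fun i => ar_mem (h1 i))]
  exact cs_comp (fun i => bl π n i + g⁻¹.h n (fr (gp π))) (g.σ n)

theorem hs5 {x y : PName Po} (hx : S.HS x) (hy : S.HS y) :
    ∀ i, S.HS ((![x, y, check AS, check QS, check ZFSet.omega] : Fin 5 → PName Po) i) := by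
  intro i
  fin_cases i
  · exact hx
  · exact hy
  · exact S.hs_check _
  · exact S.hs_check _
  · exact S.hs_check _

theorem tr_forced (g : Gp) (n : ℕ) :
    SF S TRs ![CN n, act (ac g) (CN n), check AS, check QS, check ZFSet.omega] ⊤ := by
  have h1 : SF S TRs ![CN n, fN (ψ g n), check AS, check QS, check ZFSet.omega] ⊤ := by
    refine SF.intro ud_TRs (hs5 (hs_CN n) (hs_fψ g n)) (BA ∪ AG g n) (ba_cnt.union (ag_cnt g n))
      fun π c1 c2 c3 _ => ?_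
    have hB : BA ⊆ π.N := fun x hx => c3 (Or.inl hx)
    have hA : AG g n ⊆ π.N := fun x hx => c3 (Or.inr hx)
    have e1 : π.val (CN n) = cs (bl π n) := val_CN hB n
    have e2 := val_fψ hA
    have e3 : π.val (check AS) = AS := val_par hB as_Par
    have e4 : π.val (check QS) = QS := val_par hB qs_Par
    have e5 : π.val (check ZFSet.omega) = ZFSet.omega := π.hat_omega
    have hH : AR (hφ g⁻¹ n) ⊆ π.N := fun x hx => hA (Or.inl (Or.inr hx))
    have e6 : π.val (cdN (hφ g⁻¹ n)) = code (g⁻¹.h n (fr (gp π))) :=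
      val_cdN (fun c => ar_rg hH c)
    refine ⟨?_, π.val (cdN (hφ g⁻¹ n)), mem_Ms' (hs_hφ g⁻¹ n) (ar_mem hH), ?_, ?_⟩
    · intro b hb c hc
      change b ∈ π.val (fN (ψ g n)) at hb
      change c ∈ π.val (check ZFSet.omega)
      rw [e2] at hb
      rw [e5]
      obtain ⟨i, rfl⟩ := mem_cs.1 hb
      exact code_sub _ hc
    · change CdP (π.val (check QS)) (π.val (check ZFSet.omega)) _
      rw [e4, e5, e6]
      exact cd_code _
    · change TrP (π.val (check AS)) (π.val (check ZFSet.omega)) (π.val (CN n)) _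
        (π.val (fN (ψ g n)))
      rw [e3, e5, e1, e6, e2]
      refine (tr_iff fun b hb => ?_).2 rfl
      obtain ⟨i, rfl⟩ := mem_cs.1 hb
      exact code_sub _
  refine (SF.congr ud_TRs (hs5 (hs_CN n) (hs_fψ g n)) (hs5 (hs_CN n) (S.hs_act (hs_CN n) g))
    fun i => ?_).1 h1
  fin_cases i
  · exact Feq.refl _ _
  · exact (act_fN g _ _).symm
  · exact Feq.refl _ _
  · exact Feq.refl _ _
  · exact Feq.refl _ _

section

variable {π : Pkg Po} (hπ : GP π)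

include hπ

theorem mem_O {n : ℕ} {D : ZFSet.{0}} (h : pair (nat n) D ∈ π.val ON) :
    ∃ θ, code θ ∈ S.Ms π ∧ D = cs fun i => bl π n i + θ := by
  obtain ⟨y, hy, c, hc, -, h1⟩ := π.mem_val.1 h
  obtain ⟨g, m, rfl, rfl⟩ := S.el_orb.1 hc
  rw [act_opN (S.top g), act_check (S.top g)] at h1 hy
  have hyN := π.snd_mem hy
  rw [π.val_opN (π.nat_Z m) hyN] at h1
  obtain ⟨h2, h3⟩ := ZFSet.pair_inj.1 h1
  have h4 : π.hat (nat m) = nat n := h2
  rw [π.hat_nat] at h4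
  obtain rfl := nat_injective h4
  have h5 := tr_forced g m π hπ.cld (by
    intro i
    fin_cases i
    · exact cn_N hπ.ba m
    · exact hyN
    · exact par_Z hπ.ba as_Par
    · exact par_Z hπ.ba qs_Par
    · exact π.omega_Z) ⟨0, le_top⟩
  obtain ⟨h6, t, ht, h7, h8⟩ := h5
  have e1 : π.val (CN m) = cs (bl π m) := val_CN hπ.ba m
  have e3 : π.val (check AS) = AS := val_par hπ.ba as_Par
  have e4 : π.val (check QS) = QS := val_par hπ.ba qs_Par
  have e5 : π.val (check ZFSet.omega) = ZFSet.omega := π.hat_omega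
  have h6 : ∀ b ∈ π.val (act (ac g) (CN m)), ∀ c ∈ b, c ∈ π.val (check ZFSet.omega) := h6
  rw [e5] at h6
  have h7 : CdP (π.val (check QS)) (π.val (check ZFSet.omega)) t := h7
  rw [e4, e5] at h7
  have h8 : TrP (π.val (check AS)) (π.val (check ZFSet.omega)) (π.val (CN m)) t
    (π.val (act (ac g) (CN m))) := h8
  obtain ⟨θ, rfl⟩ := cd_iff.1 h7
  rw [e3, e5, e1] at h8
  have h9 := (tr_iff fun b hb c hc => h6 b hb c hc).1 h8
  exact ⟨θ, ht, h3.symm.trans h9⟩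

theorem base_mem_O (n : ℕ) : pair (nat n) (cs (bl π n)) ∈ π.val ON := by
  have h1 : opN (check (nat n)) (CN n) ∈ π.N := π.opN_mem (π.nat_Z n) (cn_N hπ.ba n)
  refine π.mem_val.2 ⟨opN (check (nat n)) (CN n), h1, ⊤, S.el_orb_one _ n, ⟨0, le_top⟩, ?_⟩
  rw [π.val_opN (π.nat_Z n) (cn_N hπ.ba n), val_CN hπ.ba n]
  congr 1
  exact π.hat_nat n

end

/-! ### There is no choice function -/

/-- The statement about the choice function `v 1`. -/
def NC (M : Set ZFSet.{0}) (v : Fin 8 → ZFSet.{0}) : Prop :=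
  (∃ z ∈ M, pair (v 0) z ∈ v 1) ∧
    (∀ z ∈ M, pair (v 0) z ∈ v 1 → (∀ b ∈ z, ∀ c ∈ b, c ∈ v 7) ∧ TrP (v 5) (v 7) (v 2) (v 3) z) ∧
      CdP (v 6) (v 7) (v 3) ∧ v 4 ∈ v 3

theorem ud_NC : UDf NC := by
  refine UDf.and (UDf.ex ?_) (UDf.and (UDf.all (UDf.imp ?_ (UDf.and ?_ ?_))) (UDf.and ?_ ?_))
  · exact udp 1 0 2
  · exact udp 1 0 2
  · exact ud_sub2 0 8
  · exact ud_tr 6 8 3 4 0
  · exact ud_cd 6 7 3
  · exact udm 4 3

theorem hs8 {x y z : PName Po} (hx : S.HS x) (hy : S.HS y) (hz : S.HS z) (n c : ℕ) :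
    ∀ i, S.HS ((![check (nat n), x, y, z, check (nat c), check AS, check QS,
      check ZFSet.omega] : Fin 8 → PName Po) i) := by
  intro i
  fin_cases i
  · exact S.hs_check _
  · exact hx
  · exact hy
  · exact hz
  · exact S.hs_check _
  · exact S.hs_check _
  · exact S.hs_check _
  · exact S.hs_check _

theorem in8 {π : Pkg Po} (hB : BA ⊆ π.N) {x y z : PName Po} (hx : x ∈ π.N) (hy : y ∈ π.N)
    (hz : z ∈ π.N) (n c : ℕ) :
    ∀ i, (![check (nat n), x, y, z, check (nat c), check AS, check QS,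
      check ZFSet.omega] : Fin 8 → PName Po) i ∈ π.N := by
  intro i
  fin_cases i
  · exact π.nat_Z n
  · exact hx
  · exact hy
  · exact hz
  · exact π.nat_Z c
  · exact par_Z hB as_Par
  · exact par_Z hB qs_Par
  · exact π.omega_Z

/-- The meaning of the statement. -/
theorem nc_iff {π : Pkg Po} (hB : BA ⊆ π.N) {x y z : PName Po} {n c : ℕ} {f : ℕ → Kc}
    (hy : π.val y = cs f) :
    NC (S.Ms π) (π.val ∘ ![check (nat n), x, y, z, check (nat c), check AS, check QS,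
      check ZFSet.omega]) ↔ (∃ w ∈ S.Ms π, pair (nat n) w ∈ π.val x) ∧
      ∃ θ, π.val z = code θ ∧ θ ∈ arc c ∧
        ∀ w ∈ S.Ms π, pair (nat n) w ∈ π.val x → w = cs fun i => f i + θ := by
  have e3 : π.val (check AS) = AS := val_par hB as_Par
  have e4 : π.val (check QS) = QS := val_par hB qs_Par
  have e5 : π.val (check ZFSet.omega) = ZFSet.omega := π.hat_omega
  have e6 : π.val (check (nat n)) = nat n := π.hat_nat n
  have e7 : π.val (check (nat c)) = nat c := π.hat_nat c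
  have h0 : NC (S.Ms π) (π.val ∘ ![check (nat n), x, y, z, check (nat c), check AS, check QS,
      check ZFSet.omega]) ↔ (∃ w ∈ S.Ms π, pair (π.val (check (nat n))) w ∈ π.val x) ∧
      (∀ w ∈ S.Ms π, pair (π.val (check (nat n))) w ∈ π.val x →
        (∀ b ∈ w, ∀ c ∈ b, c ∈ π.val (check ZFSet.omega)) ∧
        TrP (π.val (check AS)) (π.val (check ZFSet.omega)) (π.val y) (π.val z) w) ∧
      CdP (π.val (check QS)) (π.val (check ZFSet.omega)) (π.val z) ∧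
        π.val (check (nat c)) ∈ π.val z := Iff.rfl
  rw [h0, e3, e4, e5, e6, e7, hy]
  refine and_congr_right fun _ => ?_
  constructor
  · rintro ⟨h1, h2, h3⟩
    obtain ⟨θ, hθ⟩ := cd_iff.1 h2
    rw [hθ] at h3 h1
    refine ⟨θ, hθ, nat_mem_code.1 h3, fun w hw hw' => ?_⟩
    obtain ⟨h4, h5⟩ := h1 w hw hw'
    exact (tr_iff fun b hb c hc => h4 b hb c hc).1 h5
  · rintro ⟨θ, hθ, h1, h2⟩
    rw [hθ]
    refine ⟨fun w hw hw' => ?_, cd_code θ, nat_mem_code.2 h1⟩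
    rw [h2 w hw hw']
    have h3 : ∀ b ∈ cs fun i => f i + θ, b ⊆ ZFSet.omega := by
      intro b hb
      obtain ⟨i, rfl⟩ := mem_cs.1 hb
      exact code_sub _
    exact ⟨fun b hb c hc => h3 b hb hc, (tr_iff h3).2 rfl⟩

theorem no_ch {π : Pkg Po} (hπ : GP π) {s : ZFSet.{0}} (hs : s ∈ S.Ms π) :
    ¬ ∀ n : ℕ, ∃ θ, code θ ∈ S.Ms π ∧
      ∀ z, pair (nat n) z ∈ s ↔ z = cs fun i => bl π n i + θ := by
  intro h
  have hM := isZF_Ms hπ.cld
  obtain ⟨σ, ⟨hσN, hσ⟩, rfl⟩ := hs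
  obtain ⟨n, hn⟩ := exists_level hσ
  obtain ⟨θ, ⟨τ, ⟨hτN, hτ⟩, hτθ⟩, hθ⟩ := h n
  obtain ⟨c, hc1, hc2⟩ := exists_arc (θ := θ) (show (0 : ℝ) < 1 / 4 by norm_num)
  have h1 : NC (S.Ms π) (π.val ∘ ![check (nat n), σ, CN n, τ, check (nat c), check AS, check QS,
      check ZFSet.omega]) := by
    refine (nc_iff hπ.ba (val_CN hπ.ba n)).2 ⟨⟨_, ?_, (hθ _).2 rfl⟩, θ, hτθ, hc1, fun w _ hw =>
      (hθ w).1 hw⟩
    have h2 := hM.trans _ (mem_Ms' hσ hσN) _ ((hθ _).2 rfl)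
    exact (hM.of_pair_mem h2).2
  obtain ⟨k, hk⟩ := ud_NC.fund (hs8 hσ (hs_CN n) hτ n c) hπ.cld
    (in8 hπ.ba hσN (cn_N hπ.ba n) hτN n c) h1
  set p := π.g k with hp
  -- the automorphism
  obtain ⟨z, hz, hzR⟩ := exists_rich p.2.1 p.2.2
  obtain ⟨M2, -, ε, hε, h2⟩ := exists_Nb p.2.1 hz 0
  obtain ⟨g, hg, -, hg2, hg3⟩ := step (n := n) (m := n + 1) hε hzR (self_mem_Nb z M2 hε)
    (fun _ => ((1 / 2 : ℝ) : Kc))
  have hgz : apx g z ∈ p.1 := h2 hg3
  have hgh : ∀ u, g⁻¹.h n u = -((1 / 2 : ℝ) : Kc) := fun u => by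
    rw [inv_h, hg2 n le_rfl (Nat.lt_succ_self n)]
  have h3 : SF S NC ![check (nat n), σ, fN (ψ g n), act (ac g) τ, check (nat c), check AS,
      check QS, check ZFSet.omega] (ac g p) := by
    refine Pool.Agent.R598.CI.SF.move ud_NC (hs8 hσ (hs_CN n) hτ n c)
      (hs8 hσ (hs_fψ g n) (S.hs_act hτ g) n c) g ?_ hk
    intro i q
    fin_cases i
    · exact fix_check' (Hl 0) _ g (Hl_mono (Nat.zero_le n) hg) q
    · exact hn g hg q
    · exact act_fN g _ q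
    · exact Feq.refl _ _
    · exact fix_check' (Hl 0) _ g (Hl_mono (Nat.zero_le n) hg) q
    · exact fix_check' (Hl 0) _ g (Hl_mono (Nat.zero_le n) hg) q
    · exact fix_check' (Hl 0) _ g (Hl_mono (Nat.zero_le n) hg) q
    · exact fix_check' (Hl 0) _ g (Hl_mono (Nat.zero_le n) hg) q
  obtain ⟨π', d1, d2, d3⟩ := exists_cld S (BA ∪ AG g n ∪ {σ, τ, act (ac g) τ})
    ((ba_cnt.union (ag_cnt g n)).union (Set.toFinite _).countable)
    (inter p (ac g p) (apx g z) hgz (apx_mem_ac hz))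
  have hB : BA ⊆ π'.N := fun x hx => d2 (Or.inl (Or.inl hx))
  have hA : AG g n ⊆ π'.N := fun x hx => d2 (Or.inl (Or.inr hx))
  have n1 : σ ∈ π'.N := d2 (Or.inr (Or.inl rfl))
  have n2 : τ ∈ π'.N := d2 (Or.inr (Or.inr (Or.inl rfl)))
  have n3 : act (ac g) τ ∈ π'.N := d2 (Or.inr (Or.inr (Or.inr rfl)))
  have hM' := isZF_Ms d1
  obtain ⟨⟨w, hw, hw'⟩, θ1, -, h4, h5⟩ := (nc_iff hB (val_CN hB n)).1
    (hk π' d1 (in8 hB n1 (cn_N hB n) n2 n c) ⟨0, d3.le.trans inter_le_left⟩)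
  obtain ⟨-, θ2, -, h6, h7⟩ := (nc_iff hB (val_fψ hA)).1
    (h3 π' d1 (in8 hB n1 (hA (Or.inr rfl)) n3 n c) ⟨0, d3.le.trans inter_le_right⟩)
  have h8 := h5 w hw hw'
  have h9 := h7 w hw hw'
  have h10 : (cs fun i => bl π' n i + θ1) = cs fun i => bl π' n i + (-((1 / 2 : ℝ) : Kc) + θ2) := by
    rw [← h8, h9, hgh]
    congr 1
    funext i
    abel
  have h11 := cs_free hB h10
  have h12 : θ2 - θ1 = ((1 / 2 : ℝ) : Kc) := by
    rw [h11]
    abel
  have h13 : ‖((1 / 2 : ℝ) : Kc)‖ = 1 / 2 := by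
    rw [UnitAddCircle.norm_eq]
    have : round (1 / 2 : ℝ) = 1 := by norm_num [round_eq]
    rw [this]
    norm_num
  have h14 : ‖θ2 - θ1‖ < 1 / 2 := by
    have h15 : θ2 - θ1 = (θ2 - θ) - (θ1 - θ) := by abel
    rw [h15]
    have h16 := norm_sub_le (θ2 - θ) (θ1 - θ)
    have h17 := hc2 θ2 h6
    have h18 := hc2 θ1 h4
    linarith
  rw [h12, h13] at h14
  exact lt_irrefl _ h14

end Pool.Agent.D0H63.Cu
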