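import Pool.Agent.D0H63.Cu.Core
import Pool.Agent.R598.CI.Nms

/-!
# Codes of the points of the circle
-/

set_option autoImplicit false

namespace Pool.Agent.D0H63.Cu

open Pool.Agent.W868
open Pool.Agent.R598.CI (Kc arc isOpen_arc exists_arc)
open ZFSet (pair)

theorem nat_om' (n : ℕ) : nat n ∈ ZFSet.omega := mem_omega_iff.2 ⟨n, rfl⟩

/-- The code of a point of the circle: the set of the arcs that contain the point. -/
noncomputable def code (θ : Kc) : ZFSet.{0} :=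
  ZFSet.sep (fun z => ∃ c, θ ∈ arc c ∧ z = nat c) ZFSet.omega

theorem mem_code {θ : Kc} {z : ZFSet.{0}} : z ∈ code θ ↔ ∃ c, θ ∈ arc c ∧ z = nat c := by
  rw [code, ZFSet.mem_sep]
  constructor
  · exact fun h => h.2
  · rintro ⟨c, h, rfl⟩
    exact ⟨nat_om' c, c, h, rfl⟩

theorem nat_mem_code {θ : Kc} {c : ℕ} : nat c ∈ code θ ↔ θ ∈ arc c := by
  rw [mem_code]
  constructor
  · rintro ⟨c', h, h'⟩
    rwa [nat_injective h']
  · exact fun h => ⟨c, h, rfl⟩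

theorem code_sub (θ : Kc) : code θ ⊆ ZFSet.omega := fun _ h => (ZFSet.mem_sep.1 h).1

theorem code_inj {θ θ' : Kc} (h : code θ = code θ') : θ = θ' := by
  by_contra hne
  have h1 : 0 < ‖θ' - θ‖ := norm_pos_iff.2 (sub_ne_zero.2 (Ne.symm hne))
  obtain ⟨c, hc, hc'⟩ := exists_arc (θ := θ) h1
  have h2 : nat c ∈ code θ' := h ▸ nat_mem_code.2 hc
  exact lt_irrefl _ (hc' θ' (nat_mem_code.1 h2))

/-- Small arcs in an open set. -/
theorem exists_arc' {O : Set Kc} (hO : IsOpen O) {θ : Kc} (hθ : θ ∈ O) {δ : ℝ} (hδ : 0 < δ) :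
    ∃ c, θ ∈ arc c ∧ closure (arc c) ⊆ O ∧ ∀ θ' ∈ arc c, ‖θ' - θ‖ < δ := by
  obtain ⟨ε, hε, h1⟩ := Metric.isOpen_iff.1 hO θ hθ
  obtain ⟨c, hc, hc'⟩ := exists_arc (θ := θ) (lt_min (half_pos hε) hδ)
  refine ⟨c, hc, ?_, fun θ' h => (hc' θ' h).trans_le (min_le_right _ _)⟩
  have h2 : arc c ⊆ Metric.closedBall θ (ε / 2) := fun θ' h => by
    rw [Metric.mem_closedBall, dist_eq_norm]
    exact ((hc' θ' h).trans_le (min_le_left _ _)).le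
  have h3 := closure_minimal h2 Metric.isClosed_closedBall
  intro θ' h
  apply h1
  rw [Metric.mem_ball]
  have h4 := Metric.mem_closedBall.1 (h3 h)
  linarith

/-! ### Addition -/

/-- The relation between arcs and sums. -/
noncomputable def AS : ZFSet.{0} :=
  ZFSet.sep (fun w => ∃ i j k : ℕ, (∀ θ ∈ arc i, ∀ θ' ∈ arc j, θ + θ' ∈ arc k) ∧
    w = pair (nat i) (pair (nat j) (nat k)))
    (ZFSet.prod ZFSet.omega (ZFSet.prod ZFSet.omega ZFSet.omega))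

theorem mem_AS {i j k : ℕ} : pair (nat i) (pair (nat j) (nat k)) ∈ AS ↔
    ∀ θ ∈ arc i, ∀ θ' ∈ arc j, θ + θ' ∈ arc k := by
  rw [AS, ZFSet.mem_sep]
  constructor
  · rintro ⟨-, i', j', k', h, h1⟩
    obtain ⟨h2, h3⟩ := ZFSet.pair_inj.1 h1
    obtain ⟨h4, h5⟩ := ZFSet.pair_inj.1 h3
    rw [nat_injective h2, nat_injective h4, nat_injective h5]
    exact h
  · exact fun h => ⟨ZFSet.pair_mem_prod.2 ⟨nat_om' _, ZFSet.pair_mem_prod.2 ⟨nat_om' _, nat_om' _⟩⟩,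
      i, j, k, h, rfl⟩

/-- The sum of codes. -/
def Sm (A W a t b : ZFSet.{0}) : Prop :=
  ∀ c ∈ W, (c ∈ b → ∃ i ∈ a, ∃ j ∈ t, pair i (pair j c) ∈ A) ∧
    ((∃ i ∈ a, ∃ j ∈ t, pair i (pair j c) ∈ A) → c ∈ b)

/-- The translation of a set of codes. -/
def TrP (A W C t D : ZFSet.{0}) : Prop :=
  (∀ a ∈ C, ∃ b ∈ D, Sm A W a t b) ∧ ∀ b ∈ D, ∃ a ∈ C, Sm A W a t b

theorem mem_sum {θ θ' : Kc} {c : ℕ} : θ + θ' ∈ arc c ↔
    ∃ i ∈ code θ, ∃ j ∈ code θ', pair i (pair j (nat c)) ∈ AS := by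
  constructor
  · intro h
    obtain ⟨ε, hε, h1⟩ := Metric.isOpen_iff.1 (isOpen_arc c) _ h
    obtain ⟨i, hi, hi'⟩ := exists_arc (θ := θ) (half_pos hε)
    obtain ⟨j, hj, hj'⟩ := exists_arc (θ := θ') (half_pos hε)
    refine ⟨nat i, nat_mem_code.2 hi, nat j, nat_mem_code.2 hj, mem_AS.2 fun φ hφ φ' hφ' => ?_⟩
    apply h1
    rw [Metric.mem_ball, dist_eq_norm]
    have h2 : φ + φ' - (θ + θ') = (φ - θ) + (φ' - θ') := by abel
    rw [h2]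
    have h3 := norm_add_le (φ - θ) (φ' - θ')
    have h4 := hi' φ hφ
    have h5 := hj' φ' hφ'
    linarith
  · rintro ⟨i, hi, j, hj, h⟩
    obtain ⟨i, hi2, rfl⟩ := mem_code.1 hi
    obtain ⟨j, hj2, rfl⟩ := mem_code.1 hj
    exact mem_AS.1 h θ hi2 θ' hj2

theorem sm_iff {θ θ' : Kc} {b : ZFSet.{0}} (hb : b ⊆ ZFSet.omega) :
    Sm AS ZFSet.omega (code θ) (code θ') b ↔ b = code (θ + θ') := by
  constructor
  · intro h
    ext z
    constructor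
    · intro hz
      obtain ⟨c, rfl⟩ := mem_omega_iff.1 (hb hz)
      exact nat_mem_code.2 (mem_sum.2 ((h _ (nat_om' c)).1 hz))
    · intro hz
      obtain ⟨c, hc, rfl⟩ := mem_code.1 hz
      exact (h _ (nat_om' c)).2 (mem_sum.1 hc)
  · rintro rfl z hz
    obtain ⟨c, rfl⟩ := mem_omega_iff.1 hz
    rw [nat_mem_code, mem_sum]
    exact ⟨fun h => h, fun h => h⟩

/-- The set of the codes of a sequence of points. -/
noncomputable def cs (f : ℕ → Kc) : ZFSet.{0} := ZFSet.range fun i => code (f i)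

theorem mem_cs {f : ℕ → Kc} {b : ZFSet.{0}} : b ∈ cs f ↔ ∃ i, b = code (f i) := by
  rw [cs, ZFSet.mem_range]
  constructor
  · rintro ⟨i, rfl⟩
    exact ⟨i, rfl⟩
  · rintro ⟨i, rfl⟩
    exact ⟨i, rfl⟩

theorem tr_iff {f : ℕ → Kc} {θ : Kc} {D : ZFSet.{0}} (hD : ∀ b ∈ D, b ⊆ ZFSet.omega) :
    TrP AS ZFSet.omega (cs f) (code θ) D ↔ D = cs fun i => f i + θ := by
  constructor
  · rintro ⟨h1, h2⟩
    ext b
    rw [mem_cs]
    constructor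
    · intro hb
      obtain ⟨a, ha, h3⟩ := h2 b hb
      obtain ⟨i, rfl⟩ := mem_cs.1 ha
      exact ⟨i, (sm_iff (hD b hb)).1 h3⟩
    · rintro ⟨i, rfl⟩
      obtain ⟨b, hb, h3⟩ := h1 _ (mem_cs.2 ⟨i, rfl⟩)
      rwa [← (sm_iff (hD b hb)).1 h3]
  · rintro rfl
    constructor
    · intro a ha
      obtain ⟨i, rfl⟩ := mem_cs.1 ha
      exact ⟨_, mem_cs.2 ⟨i, rfl⟩, (sm_iff (code_sub _)).2 rfl⟩
    · intro b hb
      obtain ⟨i, rfl⟩ := mem_cs.1 hb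
      exact ⟨_, mem_cs.2 ⟨i, rfl⟩, (sm_iff (code_sub _)).2 rfl⟩

/-! ### The sets that are codes -/

/-- The relation for the codes. -/
def Qr (n i j k : ℕ) : Prop :=
  (arc k).Nonempty ∧ closure (arc k) ⊆ arc i ∩ arc j ∧
    ∀ θ ∈ arc k, ∀ θ' ∈ arc k, ‖θ - θ'‖ < 1 / ((n : ℝ) + 1)

/-- The relation for the codes. -/
noncomputable def QS : ZFSet.{0} :=
  ZFSet.sep (fun w => ∃ n i j k : ℕ, Qr n i j k ∧
    w = pair (nat n) (pair (nat i) (pair (nat j) (nat k))))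
    (ZFSet.prod ZFSet.omega (ZFSet.prod ZFSet.omega (ZFSet.prod ZFSet.omega ZFSet.omega)))

theorem mem_QS {n i j k : ℕ} : pair (nat n) (pair (nat i) (pair (nat j) (nat k))) ∈ QS ↔
    Qr n i j k := by
  rw [QS, ZFSet.mem_sep]
  constructor
  · rintro ⟨-, n', i', j', k', h, h1⟩
    obtain ⟨h2, h3⟩ := ZFSet.pair_inj.1 h1
    obtain ⟨h4, h5⟩ := ZFSet.pair_inj.1 h3
    obtain ⟨h6, h7⟩ := ZFSet.pair_inj.1 h5
    rw [nat_injective h2, nat_injective h4, nat_injective h6, nat_injective h7]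
    exact h
  · exact fun h => ⟨ZFSet.pair_mem_prod.2 ⟨nat_om' _, ZFSet.pair_mem_prod.2 ⟨nat_om' _,
      ZFSet.pair_mem_prod.2 ⟨nat_om' _, nat_om' _⟩⟩⟩, n, i, j, k, h, rfl⟩

/-- The set `t` is a code. -/
def CdP (Q W t : ZFSet.{0}) : Prop :=
  (∀ i ∈ t, i ∈ W) ∧ (∃ i ∈ t, i ∈ W) ∧
    (∀ n ∈ W, ∀ i ∈ t, ∀ j ∈ t, ∃ k ∈ t, pair n (pair i (pair j k)) ∈ Q) ∧
    ∀ k ∈ t, ∀ i ∈ W, ∀ n ∈ W, pair n (pair i (pair i k)) ∈ Q → i ∈ t

theorem norm_sub_lt_one (θ θ' : Kc) : ‖θ - θ'‖ < 1 := by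
  have h := AddCircle.norm_le_half_period (p := (1 : ℝ)) (x := θ - θ') one_ne_zero
  rw [abs_one] at h
  linarith

theorem cd_code (θ : Kc) : CdP QS ZFSet.omega (code θ) := by
  refine ⟨fun i hi => code_sub θ hi, ?_, ?_, ?_⟩
  · obtain ⟨c, hc, -⟩ := exists_arc (θ := θ) one_pos
    exact ⟨nat c, nat_mem_code.2 hc, nat_om' c⟩
  · intro n hn i hi j hj
    obtain ⟨n, rfl⟩ := mem_omega_iff.1 hn
    obtain ⟨i, hi2, rfl⟩ := mem_code.1 hi
    obtain ⟨j, hj2, rfl⟩ := mem_code.1 hj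
    have h0 : (0 : ℝ) < 1 / ((n : ℝ) + 1) := by positivity
    obtain ⟨k, hk, h1, h2⟩ := exists_arc' ((isOpen_arc i).inter (isOpen_arc j))
      (θ := θ) ⟨hi2, hj2⟩ (half_pos h0)
    refine ⟨nat k, nat_mem_code.2 hk, mem_QS.2 ⟨⟨θ, hk⟩, h1, fun φ hφ φ' hφ' => ?_⟩⟩
    have h3 : φ - φ' = (φ - θ) - (φ' - θ) := by abel
    rw [h3]
    have h4 := norm_sub_le (φ - θ) (φ' - θ)
    have h5 := h2 φ hφ
    have h6 := h2 φ' hφ'
    linarith
  · intro k hk i hi n hn h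
    obtain ⟨n, rfl⟩ := mem_omega_iff.1 hn
    obtain ⟨i, rfl⟩ := mem_omega_iff.1 hi
    obtain ⟨k, hk2, rfl⟩ := mem_code.1 hk
    exact nat_mem_code.2 ((mem_QS.1 h).2.1 (subset_closure hk2)).1

theorem cd_iff {t : ZFSet.{0}} : CdP QS ZFSet.omega t ↔ ∃ θ, t = code θ := by
  constructor
  swap
  · rintro ⟨θ, rfl⟩
    exact cd_code θ
  rintro ⟨h1, ⟨i0, hi0, -⟩, h2, h3⟩
  have g2 : ∀ n i j, nat i ∈ t → nat j ∈ t → ∃ k, nat k ∈ t ∧ Qr n i j k := by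
    intro n i j hi hj
    obtain ⟨k, hk, h⟩ := h2 _ (nat_om' n) _ hi _ hj
    obtain ⟨k, rfl⟩ := mem_omega_iff.1 (h1 k hk)
    exact ⟨k, hk, mem_QS.1 h⟩
  have g3 : ∀ n i k, nat k ∈ t → Qr n i i k → nat i ∈ t := fun n i k hk h =>
    h3 _ hk _ (nat_om' i) _ (nat_om' n) (mem_QS.2 h)
  obtain ⟨i0, rfl⟩ := mem_omega_iff.1 (h1 i0 hi0)
  choose F hF hF' using fun (n : ℕ) (i : {i : ℕ // nat i ∈ t}) => g2 n i.1 i.1 i.2 i.2
  let K : ℕ → {i : ℕ // nat i ∈ t} := fun n => Nat.rec ⟨i0, hi0⟩ (fun n i => ⟨F n i, hF n i⟩) n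
  have hK : ∀ n, Qr n (K n).1 (K n).1 (K (n + 1)).1 := fun n => hF' n (K n)
  have hne : ∀ n, (arc (K n).1).Nonempty := by
    intro n
    obtain ⟨φ, hφ⟩ := (hK n).1
    exact ⟨φ, ((hK n).2.1 (subset_closure hφ)).1⟩
  have hsub : ∀ n, closure (arc (K (n + 1)).1) ⊆ closure (arc (K n).1) := fun n φ hφ =>
    subset_closure ((hK n).2.1 hφ).1
  obtain ⟨θ, hθ⟩ := IsCompact.nonempty_iInter_of_sequence_nonempty_isCompact_isClosed
    (fun n => closure (arc (K n).1)) hsub (fun n => (hne n).closure) isClosed_closure.isCompact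
    (fun n => isClosed_closure)
  rw [Set.mem_iInter] at hθ
  have hθK : ∀ n, θ ∈ arc (K n).1 := fun n => ((hK n).2.1 (hθ (n + 1))).1
  have hsm : ∀ n, ∀ φ ∈ arc (K (n + 1)).1, ‖φ - θ‖ < 1 / ((n : ℝ) + 1) := fun n φ hφ =>
    (hK n).2.2 φ hφ θ (hθK (n + 1))
  refine ⟨θ, ?_⟩
  ext z
  constructor
  · intro hz
    obtain ⟨i, rfl⟩ := mem_omega_iff.1 (h1 z hz)
    rw [nat_mem_code]
    obtain ⟨j, hj, hj'⟩ := g2 0 i i hz hz
    by_contra hθi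
    have h4 : θ ∈ (closure (arc j))ᶜ := fun h => hθi (hj'.2.1 h).1
    obtain ⟨ε, hε, h5⟩ := Metric.isOpen_iff.1 isClosed_closure.isOpen_compl θ h4
    obtain ⟨n, hn⟩ := exists_nat_one_div_lt hε
    obtain ⟨k, -, ⟨φ, hφ⟩, hk, -⟩ := g2 0 j (K (n + 1)).1 hj (K (n + 1)).2
    have h6 := hk (subset_closure hφ)
    refine h5 ?_ (subset_closure h6.1)
    rw [Metric.mem_ball, dist_eq_norm]
    exact (hsm n φ h6.2).trans hn
  · intro hz
    obtain ⟨i, hi, rfl⟩ := mem_code.1 hz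
    obtain ⟨ε, hε, h5⟩ := Metric.isOpen_iff.1 (isOpen_arc i) θ hi
    obtain ⟨n, hn⟩ := exists_nat_one_div_lt hε
    refine g3 0 i (K (n + 2)).1 (K (n + 2)).2 ⟨hne (n + 2), ?_, fun φ _ φ' _ => ?_⟩
    · intro φ hφ
      have h6 := ((hK (n + 1)).2.1 hφ).1
      have h7 : φ ∈ arc i := by
        apply h5
        rw [Metric.mem_ball, dist_eq_norm]
        exact (hsm n φ h6).trans hn
      exact ⟨h7, h7⟩
    · have := norm_sub_lt_one φ φ'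
      simpa using this

end Pool.Agent.D0H63.Cu
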