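import Pool.Agent.D0H63.Cu.Elt

/-!
# The combinatorial core of the argument
-/

set_option autoImplicit false

namespace Pool.Agent.D0H63.Cu

open Pool.Agent.R598.CI (Kc)
open Gp

theorem coe_norm_le (x : ℝ) : ‖(x : Kc)‖ ≤ |x| := by
  rw [UnitAddCircle.norm_eq]
  have := round_le x 0
  simpa using this

theorem exists_div (η : ℕ → Kc) {ε : ℝ} (hε : 0 < ε) :
    ∃ (r : ℕ) (η' : ℕ → Kc), (∀ a, r • η' a = η a) ∧ ∀ a, ‖η' a‖ < ε := by
  have h1 : ∀ a, ∃ t : ℝ, (0 ≤ t ∧ t ≤ 1) ∧ (t : Kc) = η a := by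
    intro a
    obtain ⟨x, hx⟩ := QuotientAddGroup.mk_surjective (η a)
    refine ⟨Int.fract x, ⟨Int.fract_nonneg x, (Int.fract_lt_one x).le⟩, ?_⟩
    rw [← hx]
    change ((Int.fract x : ℝ) : Kc) = (x : Kc)
    refine (QuotientAddGroup.eq (s := AddSubgroup.zmultiples (1 : ℝ))).2 ?_
    refine AddSubgroup.mem_zmultiples_iff.2 ⟨⌊x⌋, ?_⟩
    have h3 := Int.floor_add_fract x
    rw [zsmul_eq_mul, mul_one]
    linarith
  choose t ht ht' using h1
  obtain ⟨r, hr⟩ := exists_nat_gt (1 / ε)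
  have hr0 : (0 : ℝ) < r := (by positivity : (0 : ℝ) < 1 / ε).trans hr
  refine ⟨r, fun a => ((t a / r : ℝ) : Kc), fun a => ?_, fun a => ?_⟩
  · rw [← AddCircle.coe_nsmul, ← ht' a]
    congr 1
    rw [nsmul_eq_mul]
    field_simp
  · refine (coe_norm_le _).trans_lt ?_
    rw [abs_of_nonneg (div_nonneg (ht a).1 hr0.le)]
    have h2 : t a / r ≤ 1 / r := div_le_div_of_nonneg_right (ht a).2 hr0.le
    refine h2.trans_lt ?_
    rw [div_lt_iff₀ hr0]
    rw [div_lt_iff₀ hε] at hr
    linarith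

/-- A small translation of the blocks, followed by a permutation. -/
theorem step {n m : ℕ} {z0 : Xs} {M2 : ℕ} {ε : ℝ} (hε : 0 < ε) {z : Xs} (hz : Rich z)
    (hzq : z ∈ Nb z0 M2 ε) (η : ℕ → Kc) : ∃ s ∈ Hl n, (∀ u, s.γ u = u) ∧
      (∀ a, n ≤ a → a < m → ∀ u, s.h a u = η a) ∧ apx s z ∈ Nb z0 M2 ε := by
  classical
  choose I hI1 hI2 hI3 using fun a : ℕ => hz.choose (some a) (fun j => z0 (some a, j) - η a) hε M2
  let A : ℕ → Finset ℕ := fun a => if n ≤ a ∧ a < m then Finset.range M2 else ∅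
  have hA : ∀ a, ∀ j ∈ A a, n ≤ a ∧ a < m ∧ j < M2 := by
    intro a j hj
    change j ∈ (if n ≤ a ∧ a < m then Finset.range M2 else ∅) at hj
    split_ifs at hj with h
    · exact ⟨h.1, h.2, Finset.mem_range.1 hj⟩
    · simp at hj
  choose τ hτ1 hτ2 hτ3 using fun a => exists_swap (A a) (I := I a) (hI1 a).injective (by
      intro j _ h
      have h1 := (hA a _ h).2.2
      have h2 := hI2 a j
      omega)
  let s : Gp := pt (fun b => b.elim 1 τ) (by
    intro b
    cases b with
    | none => exact ⟨0, fun _ _ => rfl⟩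
    | some a => exact hτ3 a) (fun a _ => if n ≤ a ∧ a < m then η a else 0)
    (fun _ => continuous_const) (fun _ => ⟨0, fun _ _ _ => rfl⟩)
  have hsγ : ∀ u, s.γ u = u := fun u => rfl
  have hsσ : ∀ a, s.σ a = τ a := fun a => rfl
  have hsh : ∀ a u, s.h a u = if n ≤ a ∧ a < m then η a else 0 := fun a u => rfl
  refine ⟨s, ⟨fun u j _ => rfl, fun a ha u => ?_, fun a ha i hi => ?_⟩, hsγ, fun a ha ha' u => ?_,
    ?_⟩
  · rw [hsh, if_neg]
    rintro ⟨h1, -⟩
    omega
  · rw [hsσ]
    refine fix_of_symm (hτ2 a i (fun h => ?_) (fun j h => ?_))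
    · have := (hA a _ h).1
      omega
    · have := (hA a _ h).1
      omega
  · rw [hsh, if_pos ⟨ha, ha'⟩]
  · rintro ⟨b, i⟩ hb
    have hi : i < M2 := (mem_Lf.1 hb).2
    have hzb := hzq _ hb
    cases b with
    | none =>
      rw [apx_none, hsγ]
      exact hzb
    | some a =>
      rw [apx_some, hsσ, hsh]
      by_cases h : n ≤ a ∧ a < m
      · rw [if_pos h, hτ1 a i (by
          change i ∈ (if n ≤ a ∧ a < m then Finset.range M2 else ∅)
          rw [if_pos h]
          exact Finset.mem_range.2 hi)]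
        have h3 := hI3 a i
        convert h3 using 2
        abel
      · rw [if_neg h, add_zero, hτ2 a i (fun h' => h ⟨(hA a _ h').1, (hA a _ h').2.1⟩)
          (fun j h' => absurd ⟨(hA a _ h').1, (hA a _ h').2.1⟩ h)]
        exact hzb

/-- From small translations to all translations. -/
theorem core2 {n m : ℕ} {z0 : Xs} {M2 : ℕ} {ε : ℝ} (hε : 0 < ε) {Pr : Gp → Xs → Prop}
    (hPm : ∀ g s z, Pr s (apx s z) → Pr g (apx g (apx s z)) → Pr (g * s) (apx (g * s) z))
    (hPb : ∀ g ∈ Hl n, ∀ z, Rich z → z ∈ Nb z0 M2 ε → apx g z ∈ Nb z0 M2 ε →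
      (∀ a, n ≤ a → a < m → ‖g.h a (fr z)‖ < ε) → Pr g (apx g z)) :
    ∀ g ∈ Hl n, ∀ z, Rich z → z ∈ Nb z0 M2 ε → apx g z ∈ Nb z0 M2 ε → Pr g (apx g z) := by
  intro g hg z hz hzq hgz
  obtain ⟨r, η, hη1, hη2⟩ := exists_div (fun a => g.h a (fr z)) hε
  have key : ∀ k : ℕ, ∀ g ∈ Hl n, ∀ z, Rich z → z ∈ Nb z0 M2 ε → apx g z ∈ Nb z0 M2 ε →
      (∀ a, n ≤ a → a < m → g.h a (fr z) = k • η a) → Pr g (apx g z) := by
    intro k
    induction k with
    | zero =>
      intro g hg z hz hzq hgz h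
      refine hPb g hg z hz hzq hgz fun a ha ha' => ?_
      rw [h a ha ha', zero_nsmul, norm_zero]
      exact hε
    | succ k ih =>
      intro g hg z hz hzq hgz h
      obtain ⟨s, hs, hs1, hs2, hs3⟩ := step (n := n) (m := m) hε hz hzq η
      have h1 : Pr s (apx s z) := hPb s hs z hz hzq hs3 fun a ha ha' => by
        rw [hs2 a ha ha']
        exact hη2 a
      have h2 : apx (g * s⁻¹) (apx s z) = apx g z := by
        rw [← apx_mul, inv_mul_cancel_right]
      have h3 := ih (g * s⁻¹) ((Hl n).mul_mem hg ((Hl n).inv_mem hs)) (apx s z) (hz.apx s) hs3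
        (by rw [h2]; exact hgz) (fun a ha ha' => by
          have h4 : (g * s⁻¹ * s).h a (fr z) = g.h a (fr z) := by rw [inv_mul_cancel_right]
          rw [mul_h, hs2 a ha ha', h a ha ha', succ_nsmul] at h4
          rw [fr_apx]
          have h5 := eq_sub_of_add_eq' h4
          rw [h5]
          abel)
      have h4 := hPm _ _ _ h1 h3
      rwa [inv_mul_cancel_right] at h4
  exact key r g hg z hz hzq hgz fun a _ _ => (hη1 a).symm

theorem exists_g1 {n m M0 : ℕ} (hnm : n ≤ m) (hM0 : m ≤ M0) : ∃ g₁ ∈ Hl n,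
    (∀ u, ∀ j < M0, g₁.γ u j = u (if j < n ∨ m ≤ j then j else M0 + j)) ∧
    (∀ a u, g₁.h a u = if n ≤ a ∧ a < m then u (2 * M0 + a) else 0) ∧
    (∀ a < m, ∀ i < m, (g₁.σ a).symm i = if a < n ∧ i < n then i else M0 + i) ∧
    (∀ a, ∀ i < M0, m ≤ a ∨ m ≤ i → (g₁.σ a).symm i = i) := by
  classical
  let A : Option ℕ → Finset ℕ
    | none => Finset.Ico n m
    | some a => if a < n then Finset.Ico n m else if a < m then Finset.range m else ∅
  have hA : ∀ b, ∀ j ∈ A b, j < m := by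
    intro b j hj
    cases b with
    | none => exact (Finset.mem_Ico.1 hj).2
    | some a =>
      change j ∈ (if a < n then Finset.Ico n m else if a < m then Finset.range m else ∅) at hj
      split_ifs at hj with h1 h2
      · exact (Finset.mem_Ico.1 hj).2
      · exact Finset.mem_range.1 hj
      · simp at hj
  choose τ hτ1 hτ2 hτ3 using fun b => exists_swap (A b) (I := fun i => M0 + i)
    (add_right_injective M0) (by
      intro j _ h
      have := hA b _ h
      omega)
  let g₁ : Gp := pt τ hτ3 (fun a u => if n ≤ a ∧ a < m then u (2 * M0 + a) else 0) (by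
    intro a
    by_cases h : n ≤ a ∧ a < m
    · simp only [if_pos h]
      exact continuous_apply _
    · simp only [if_neg h]
      exact continuous_const) (by
    intro a
    refine ⟨2 * M0 + a + 1, fun u v h => ?_⟩
    rw [h _ (Nat.lt_succ_self _)])
  have e1 : ∀ u j, g₁.γ u j = u ((τ none).symm j) := fun u j => rfl
  have e2 : ∀ a, g₁.σ a = τ (some a) := fun a => rfl
  have e3 : ∀ a u, g₁.h a u = if n ≤ a ∧ a < m then u (2 * M0 + a) else 0 := fun a u => rfl
  have e4 : ∀ j < M0, (τ none).symm j = if j < n ∨ m ≤ j then j else M0 + j := by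
    intro j hj
    by_cases h : j < n ∨ m ≤ j
    · rw [if_pos h]
      refine hτ2 none j (fun h1 => ?_) (fun k _ h1 => ?_)
      · have h2 := Finset.mem_Ico.1 h1
        omega
      · omega
    · rw [if_neg h]
      push Not at h
      exact hτ1 none j (Finset.mem_Ico.2 ⟨h.1, h.2⟩)
  have e5 : ∀ a < m, ∀ i < m, (τ (some a)).symm i = if a < n ∧ i < n then i else M0 + i := by
    intro a ha i hi
    by_cases h : a < n ∧ i < n
    · rw [if_pos h]
      refine hτ2 (some a) i (fun h1 => ?_) (fun k _ h1 => ?_)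
      · change i ∈ (if a < n then Finset.Ico n m else if a < m then Finset.range m else ∅) at h1
        rw [if_pos h.1] at h1
        have h2 := Finset.mem_Ico.1 h1
        omega
      · omega
    · rw [if_neg h]
      refine hτ1 (some a) i ?_
      change i ∈ (if a < n then Finset.Ico n m else if a < m then Finset.range m else ∅)
      by_cases h1 : a < n
      · rw [if_pos h1]
        refine Finset.mem_Ico.2 ⟨?_, hi⟩
        by_contra h2
        exact h ⟨h1, not_le.1 h2⟩
      · rw [if_neg h1, if_pos ha]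
        exact Finset.mem_range.2 hi
  refine ⟨g₁, ⟨fun u j hj => ?_, fun a ha u => ?_, fun a ha i hi => ?_⟩, fun u j hj => ?_, e3,
    fun a ha i hi => ?_, fun a i hi h => ?_⟩
  · rw [e1, e4 j (by omega), if_pos (Or.inl hj)]
  · rw [e3, if_neg]
    rintro ⟨h1, -⟩
    omega
  · rw [e2]
    refine fix_of_symm ?_
    rw [e5 a (by omega) i (by omega), if_pos ⟨ha, hi⟩]
  · rw [e1, e4 j hj]
  · rw [e2]
    exact e5 a ha i hi
  · rw [e2]
    refine hτ2 (some a) i (fun h1 => ?_) (fun k _ h1 => ?_)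
    · have h3 := hA (some a) i h1
      change i ∈ (if a < n then Finset.Ico n m else if a < m then Finset.range m else ∅) at h1
      rcases h with h | h
      · rw [if_neg (by omega), if_neg (by omega)] at h1
        simp at h1
      · omega
    · omega

/-- The combinatorial core. -/
theorem core {n m : ℕ} (hnm : n ≤ m) {V : Set Xs} (hV : IsOpen V) (hne : V.Nonempty) :
    ∃ g₁ ∈ Hl n, (∃ z ∈ V, apx g₁ z ∈ V) ∧ ∀ U, IsOpen U → U.Nonempty →
      ∃ q, IsOpen q ∧ q.Nonempty ∧ (∀ z ∈ q, apx g₁ z ∈ U) ∧ ∀ Pr : Gp → Xs → Prop,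
        (∀ g s z, Pr s (apx s z) → Pr g (apx g (apx s z)) → Pr (g * s) (apx (g * s) z)) →
        (∀ g ∈ Hl n, ∀ z, ∀ κ ∈ Hl m, ∀ c ∈ Hl m, (g₁ * κ) * g * c⁻¹ * (g₁ * κ)⁻¹ ∈ Hl m →
          apx (g₁ * κ) (apx g z) ∈ U → apx (g₁ * κ) (apx c z) ∈ U → Pr g (apx g z)) →
        ∀ g ∈ Hl n, ∀ z, Rich z → z ∈ q → apx g z ∈ q → Pr g (apx g z) := by
  obtain ⟨w, hw⟩ := hne
  obtain ⟨M0, hM0, ε0, hε0, h0⟩ := exists_Nb hV hw m
  obtain ⟨g₁, hg₁, e1, e2, e3, e4⟩ := exists_g1 hnm hM0
  refine ⟨g₁, hg₁, ?_, ?_⟩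
  · let z : Xs := fun e => if e.2 < M0 then w e else
      if e.2 < 2 * M0 then w (e.1, e.2 - M0) else 0
    have z1 : ∀ b i, i < M0 → z (b, i) = w (b, i) := fun b i hi => if_pos hi
    have z2 : ∀ b i, i < M0 → z (b, M0 + i) = w (b, i) := by
      intro b i hi
      change (if M0 + i < M0 then w (b, M0 + i) else
        if M0 + i < 2 * M0 then w (b, M0 + i - M0) else 0) = _
      rw [if_neg (by omega), if_pos (by omega), Nat.add_sub_cancel_left]
    have z3 : ∀ b i, z (b, 2 * M0 + i) = 0 := by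
      intro b i
      change (if 2 * M0 + i < M0 then w (b, 2 * M0 + i) else
        if 2 * M0 + i < 2 * M0 then w (b, 2 * M0 + i - M0) else 0) = _
      rw [if_neg (by omega), if_neg (by omega)]
    refine ⟨z, h0 ?_, h0 ?_⟩
    · rintro ⟨b, i⟩ hb
      rw [z1 b i (mem_Lf.1 hb).2, sub_self, norm_zero]
      exact hε0
    · rintro ⟨b, i⟩ hb
      have hi : i < M0 := (mem_Lf.1 hb).2
      have h1 : apx g₁ z (b, i) = w (b, i) := by
        cases b with
        | none =>
          rw [apx_none, e1 _ i hi, fr_apply]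
          by_cases h : i < n ∨ m ≤ i
          · rw [if_pos h, z1 none i hi]
          · rw [if_neg h, z2 none i hi]
        | some a =>
          rw [apx_some, e2]
          have h2 : (if n ≤ a ∧ a < m then fr z (2 * M0 + a) else 0) = 0 := by
            by_cases h : n ≤ a ∧ a < m
            · rw [if_pos h, fr_apply, z3]
            · rw [if_neg h]
          rw [h2, add_zero]
          by_cases h : m ≤ a ∨ m ≤ i
          · rw [e4 a i hi h, z1 _ i hi]
          · push Not at h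
            rw [e3 a h.1 i h.2]
            by_cases h' : a < n ∧ i < n
            · rw [if_pos h', z1 _ i hi]
            · rw [if_neg h', z2 _ i hi]
      rw [h1, sub_self, norm_zero]
      exact hε0
  · intro U hU hUne
    obtain ⟨w0, hw0⟩ := hUne
    have hU' : IsOpen (apx g₁ ⁻¹' U) := hU.preimage (continuous_apx g₁)
    have hz0 : apx g₁⁻¹ w0 ∈ apx g₁ ⁻¹' U := by
      rw [Set.mem_preimage, apx_apx_inv]
      exact hw0
    obtain ⟨M2, hM2, ε', hε', h1⟩ := exists_Nb hU' hz0 (2 * M0 + m)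
    have hε : 0 < ε' / 2 := by positivity
    refine ⟨Nb (apx g₁⁻¹ w0) M2 (ε' / 2), isOpen_Nb _ _ _, ⟨_, self_mem_Nb _ _ hε⟩,
      fun z hz => h1 fun e he => (hz e he).trans (by linarith), fun Pr hPm hPb => ?_⟩
    refine core2 (m := m) hε hPm fun g hg z hz hzq hgz hs => ?_
    obtain ⟨κ, hκ, c, hc, h2, h3, h4⟩ := core1 (n := n) (m := m) (M0 := M0) hM0 (g₁ := g₁) (by
      intro u j hj
      rw [e1 u j (by omega)]
      by_cases h : j < n
      · rw [if_pos h, if_pos (Or.inl h)]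
      · rw [if_neg h, if_neg]
        omega) (by
      intro a ha u
      rw [e2]
      by_cases h : n ≤ a
      · rw [if_pos ⟨h, ha⟩, if_pos h]
      · rw [if_neg h, if_neg (fun h' => h h'.1)]) e3 hM2 hε hg hz hzq hgz hs
    have e5 : 2 * (ε' / 2) = ε' := by ring
    rw [e5] at h3 h4
    refine hPb g hg z κ hκ c hc h2 ?_ ?_
    · rw [apx_mul]
      exact h1 h3
    · rw [apx_mul]
      exact h1 h4

end Pool.Agent.D0H63.Cu
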