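import Pool.Agent.D0H63.Cu.Key
import Pool.Agent.R598.CI.Nms
import Pool.Agent.R596.FcDefs

/-!
# Countable unions of countable sets in the model
-/

set_option autoImplicit false
set_option linter.unusedSectionVars false

namespace Pool.Agent.D0H63.Cu

open Pool.Agent.W868 Pool.Agent.W868.PName Pool.Agent.R598.SY
open Pool.Agent.R598.CI (Kc UDf SF udp udm ude isZF_Ms exists_cld famN el_famN fix_famN hs_famN
  val_famN symN hs_symN fix_symN feq_symN nat_mem_nat' val_eq_of_feq val_mem_of_fmem)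
open Gp
open ZFSet (pair)

/-! ### Generalities -/

theorem hs_emp : S.HS emp := by
  refine S.hs_iff.2 ⟨⟨_, Hl_mem_F 0, fun g _ p => ?_⟩, fun z c hz => ?_⟩
  · rw [act_emp]
    exact Feq.refl _ _
  · obtain ⟨i, -⟩ := hz
    exact i.elim

theorem fix_emp (n : ℕ) : S.Fix (Hl n) emp := by
  intro g _ p
  rw [act_emp]
  exact Feq.refl _ _

theorem fix_check' (H : Subgroup Gp) (x : ZFSet.{0}) : S.Fix H (check x) := by
  intro g _ p
  rw [act_check (S.top g)]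
  exact Feq.refl _ _

theorem mem_Ms' {π : Pkg Po} {x : PName Po} (hx : S.HS x) (h : x ∈ π.N) : π.val x ∈ S.Ms π :=
  ⟨x, ⟨h, hx⟩, rfl⟩

theorem exists_level {x : PName Po} (hx : S.HS x) : ∃ n, S.Fix (Hl n) x := by
  obtain ⟨_, ⟨n, rfl⟩, h⟩ := hx.sym
  exact ⟨n, h⟩

theorem fix_mono {x : PName Po} {n m : ℕ} (h : S.Fix (Hl n) x) (hnm : n ≤ m) : S.Fix (Hl m) x :=
  Sys.Fix.mono h (Hl_mono hnm)

/-- A countable dense set of conditions. -/
theorem exists_dense : ∃ B : ℕ → Po, ∀ p : Po, ∃ i, B i ≤ p := by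
  let 𝓑 : Set Po := {b | b.1 ∈ TopologicalSpace.countableBasis Xs}
  have h1 : 𝓑.Countable :=
    (TopologicalSpace.countable_countableBasis Xs).preimage_of_injOn
      (f := fun b : Po => b.1) (fun _ _ _ _ h => Subtype.ext h)
  have h2 : ∀ p : Po, ∃ b ∈ 𝓑, b ≤ p := by
    intro p
    obtain ⟨x, hx⟩ := p.2.2
    obtain ⟨s, hs, hxs, hsp⟩ := (TopologicalSpace.isBasis_countableBasis Xs).exists_subset_of_mem_open
      hx p.2.1
    exact ⟨⟨s, (TopologicalSpace.isBasis_countableBasis Xs).isOpen hs, ⟨x, hxs⟩⟩, hs, hsp⟩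
  obtain ⟨b0, hb0, -⟩ := h2 ⊤
  obtain ⟨B, hB⟩ := h1.exists_eq_range ⟨b0, hb0⟩
  refine ⟨B, fun p => ?_⟩
  obtain ⟨b, hb, h3⟩ := h2 p
  rw [hB] at hb
  obtain ⟨i, rfl⟩ := hb
  exact ⟨i, h3⟩

/-! ### The statements -/

/-- The relation `v 1` is an injection from `v 0` to `v 2`. -/
def InR (M : Set ZFSet.{0}) (v : Fin 3 → ZFSet.{0}) : Prop :=
  (∀ x ∈ v 0, ∃ n ∈ v 2, pair x n ∈ v 1) ∧
    ∀ x ∈ M, ∀ y ∈ M, ∀ n ∈ M, pair x n ∈ v 1 → pair y n ∈ v 1 → x = y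

theorem ud_in : UDf InR := by
  refine UDf.and ?_ ?_
  · exact UDf.ball 0 (UDf.bex 3 (udp 1 0 3))
  · exact UDf.all (UDf.all (UDf.all (UDf.imp (udp 2 0 4) (UDf.imp (udp 1 0 4) (ude 2 1)))))

/-- The relation `v 1` is an injection from `v 0` to `v 2`, and the elements of `v 0` have
injections to `v 2`. -/
def Psi (M : Set ZFSet.{0}) (v : Fin 3 → ZFSet.{0}) : Prop :=
  InR M v ∧ ∀ a ∈ v 0, ∃ f ∈ M, (∀ x ∈ a, ∃ n ∈ v 2, pair x n ∈ f) ∧
    ∀ x ∈ M, ∀ y ∈ M, ∀ n ∈ M, pair x n ∈ f → pair y n ∈ f → x = y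

theorem ud_psi : UDf Psi := by
  refine UDf.and ud_in (UDf.ball 0 (UDf.ex (UDf.and ?_ ?_)))
  · exact UDf.ball 1 (UDf.bex 5 (udp 1 0 2))
  · exact UDf.all (UDf.all (UDf.all (UDf.imp (udp 2 0 3) (UDf.imp (udp 1 0 3) (ude 2 1)))))

/-- There is an injection from the union of `v 0` to `v 1`. -/
def Phi (M : Set ZFSet.{0}) (v : Fin 2 → ZFSet.{0}) : Prop :=
  ∃ f ∈ M, (∀ a ∈ v 0, ∀ x ∈ a, ∃ n ∈ v 1, pair x n ∈ f) ∧
    ∀ x ∈ M, ∀ y ∈ M, ∀ n ∈ M, pair x n ∈ f → pair y n ∈ f → x = y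

theorem ud_phi : UDf Phi := by
  refine UDf.ex (UDf.and ?_ ?_)
  · exact UDf.ball 1 (UDf.ball 0 (UDf.bex 4 (udp 1 0 3)))
  · exact UDf.all (UDf.all (UDf.all (UDf.imp (udp 2 0 3) (UDf.imp (udp 1 0 3) (ude 2 1)))))

/-- The element `v 0` is enumerated. -/
def Th (_ : Set ZFSet.{0}) (v : Fin 3 → ZFSet.{0}) : Prop := ∃ n ∈ v 1, pair (v 0) n ∈ v 2

theorem ud_th : UDf Th := UDf.bex 1 (udp 1 0 3)

theorem ctb_of_rel {M : Set ZFSet.{0}} (hM : IsZF M) {B f : ZFSet.{0}} (hB : B ∈ M) (hf : f ∈ M)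
    (h1 : ∀ x ∈ B, ∃ n ∈ ZFSet.omega, pair x n ∈ f)
    (h2 : ∀ x ∈ M, ∀ y ∈ M, ∀ n ∈ M, pair x n ∈ f → pair y n ∈ f → x = y) :
    Inj M B ZFSet.omega := by
  have hω := hM.infinity
  have hR : Dfn M M fun w : Fin 2 → ZFSet.{0} => pair (w 0) (w 1) ∈ f ∧
      ∀ k ∈ w 1, ¬ pair (w 0) k ∈ f := by
    (repeat' first | assumption | exact DfnF.proj _ | exact DfnF.const (by assumption) | exact Dfn.prop _ | apply Dfn.not | apply Dfn.and | apply Dfn.or | apply Dfn.imp | apply Dfn.iff | apply hM.base.bex | apply hM.base.ball | apply Dfn.ex | apply Dfn.all | apply Dfn.eq | apply Dfn.mem | apply hM.base.pair')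
  refine Inj.of_rel hM hB hω (R := fun x n => pair x n ∈ f ∧ ∀ k ∈ n, ¬ pair x k ∈ f) hR ?_ ?_ ?_
  · intro x hx
    obtain ⟨n, ⟨hn, h3⟩, h4⟩ := ZFSet.mem_wf.has_min
      {n | n ∈ ZFSet.omega ∧ pair x n ∈ f} (by
        obtain ⟨n, hn, h⟩ := h1 x hx
        exact ⟨n, hn, h⟩)
    refine ⟨n, hn, h3, fun k hk hk' => ?_⟩
    have hko : k ∈ ZFSet.omega := by
      obtain ⟨m, rfl⟩ := mem_omega_iff.1 hn
      obtain ⟨l, -, rfl⟩ := Pool.Agent.R598.CI.mem_nat_iff.1 hk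
      exact mem_omega_iff.2 ⟨l, rfl⟩
    exact h4 k ⟨hko, hk'⟩ hk
  · rintro x _ n hn n' hn' ⟨h3, h4⟩ ⟨h5, h6⟩
    obtain ⟨m, rfl⟩ := mem_omega_iff.1 hn
    obtain ⟨m', rfl⟩ := mem_omega_iff.1 hn'
    rcases lt_trichotomy m m' with h | h | h
    · exact absurd h3 (h6 _ (nat_mem_nat' h))
    · rw [h]
    · exact absurd h5 (h4 _ (nat_mem_nat' h))
  · rintro x hx y hy n hn ⟨h3, -⟩ ⟨h4, -⟩
    exact h2 x (hM.trans _ hB _ hx) y (hM.trans _ hB _ hy) n (hM.trans _ hω _ hn) h3 h4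

/-! ### Forcing -/

theorem hs3 {x y : PName Po} (hx : S.HS x) (hy : S.HS y) :
    ∀ i, S.HS ((![x, y, check ZFSet.omega] : Fin 3 → PName Po) i) := by
  intro i
  fin_cases i
  · exact hx
  · exact hy
  · exact S.hs_check _

theorem in3 {π : Pkg Po} {x y : PName Po} (hx : x ∈ π.N) (hy : y ∈ π.N) :
    ∀ i, (![x, y, check ZFSet.omega] : Fin 3 → PName Po) i ∈ π.N := by
  intro i
  fin_cases i
  · exact hx
  · exact hy
  · exact π.omega_Z

/-- The injection on the names. -/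
theorem inj_feq {A e x y : PName Po} {n : ℕ} {b : Po} (_hA : S.HS A) (_he : S.HS e) (hx : S.HS x)
    (hy : S.HS y) (h : SF S InR ![A, e, check ZFSet.omega] b)
    (h1 : Fmem (opN x (check (nat n))) e b) (h2 : Fmem (opN y (check (nat n))) e b) :
    Feq x y b := by
  refine feq_dense fun q hq => ?_
  obtain ⟨π, c1, c2, c3⟩ := exists_cld S {A, e, x, y} (Set.toFinite _).countable q
  have m1 : A ∈ π.N := c2 (by simp)
  have m2 : e ∈ π.N := c2 (by simp)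
  have m3 : x ∈ π.N := c2 (by simp)
  have m4 : y ∈ π.N := c2 (by simp)
  have hk : ∃ k, π.g k ≤ b := ⟨0, c3.le.trans hq⟩
  have h3 := h π c1 (in3 m1 m2) hk
  have h4 := val_mem_of_fmem (π.opN_mem m3 (π.nat_Z n)) m2 h1 hk
  have h5 := val_mem_of_fmem (π.opN_mem m4 (π.nat_Z n)) m2 h2 hk
  rw [π.val_opN m3 (π.nat_Z n)] at h4
  rw [π.val_opN m4 (π.nat_Z n)] at h5
  have h6 : π.val x = π.val y := h3.2 _ (mem_Ms' hx m3) _ (mem_Ms' hy m4) _
    (mem_Ms' (S.hs_check _) (π.nat_Z n)) h4 h5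
  obtain ⟨k, hk⟩ := (π.val_eq_iff m3 m4).1 h6
  exact ⟨π.g k, c3 ▸ π.g_anti (Nat.zero_le k), hk⟩

theorem fmem_act_fix' {x t : PName Po} {g : Gp} (ht : ∀ p, Feq (act (ac g) t) t p) {p : Po}
    (h : Fmem x t p) : Fmem (act (ac g) x) t (ac g p) :=
  fmem_congr (Feq.refl _ _) (ht _) (fmem_act' (e := ac g) h)

theorem act_op {g : Gp} {x : PName Po} {n : ℕ} :
    act (ac g) (opN x (check (nat n))) = opN (act (ac g) x) (check (nat n)) := by
  have h1 := act_opN (S.top g) x (check (nat n))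
  rw [act_check (S.top g)] at h1
  exact h1

/-- The names with few symmetries. -/
theorem exists_fixed {n k0 : ℕ} {A e Y f y : PName Po} (hA : S.HS A) (he : S.HS e)
    (hY : S.HS Y) (hf : S.HS f) (hy : S.HS y) (hen : S.Fix (Hl n) e) {b : Po}
    (h1 : SF S InR ![A, e, check ZFSet.omega] b) (h2 : Fmem (opN Y (check (nat k0))) e b)
    (h3 : SF S InR ![Y, f, check ZFSet.omega] b) (h4 : Fmem y Y b) :
    ∃ q ≤ b, ∃ y', S.HS y' ∧ S.Fix (Hl n) y' ∧ Feq y' y q := by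
  obtain ⟨m1, hm1⟩ := exists_level hy
  obtain ⟨m2, hm2⟩ := exists_level hf
  let m := max n (max m1 m2)
  have hnm : n ≤ m := le_max_left _ _
  have hym : S.Fix (Hl m) y := fix_mono hm1 ((le_max_left _ _).trans (le_max_right _ _))
  have hfm : S.Fix (Hl m) f := fix_mono hm2 ((le_max_right _ _).trans (le_max_right _ _))
  -- the set is fixed
  have hYg : ∀ g ∈ Hl n, ∀ r ≤ b, r ≤ ac g b → Feq (act (ac g) Y) Y r := by
    intro g hg r hr hr'
    refine inj_feq hA he (S.hs_act hY g) hY (h1.mono hr) (n := k0) ?_ (h2.mono hr)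
    have h5 := fmem_act_fix' (g := g) (fun p => hen g hg p) h2
    rw [act_op] at h5
    exact h5.mono hr'
  obtain ⟨q, hq, h5⟩ := key (p := b) hnm hym (by
    intro g₁ hg₁ r hr hr'
    have h6 : Fmem (act (ac g₁) y) Y r := by
      have h7 := fmem_act' (e := ac g₁) h4
      exact fmem_congr (Feq.refl _ _) (hYg g₁ hg₁ r hr hr') (h7.mono hr')
    -- the value of the injection
    obtain ⟨π, c1, c2, c3⟩ := exists_cld S {Y, f, act (ac g₁) y} (Set.toFinite _).countable r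
    have m1 : Y ∈ π.N := c2 (by simp)
    have m2 : f ∈ π.N := c2 (by simp)
    have m3 : act (ac g₁) y ∈ π.N := c2 (by simp)
    have h7 := val_mem_of_fmem m3 m1 h6 ⟨0, c3.le⟩
    obtain ⟨j, hj, h8⟩ := (h3 π c1 (in3 m1 m2) ⟨0, c3.le.trans hr⟩).1 _ h7
    have hj' : j ∈ π.hat ZFSet.omega := hj
    rw [π.hat_omega] at hj'
    obtain ⟨j, rfl⟩ := mem_omega_iff.1 hj'
    have h9 : pair (π.val (act (ac g₁) y)) (nat j) ∈ π.val f := h8
    rw [← π.hat_nat j] at h9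
    have h10 : π.val (opN (act (ac g₁) y) (check (nat j))) ∈ π.val f := by
      rw [π.val_opN m3 (π.nat_Z j)]
      exact h9
    obtain ⟨k, hk⟩ := (π.val_mem_iff (π.opN_mem m3 (π.nat_Z j)) m2).1 h10
    have hU : π.g k ≤ r := c3 ▸ π.g_anti (Nat.zero_le k)
    refine ⟨π.g k, hU, fun κ hκ s hs hs' => ?_⟩
    refine inj_feq hY hf (S.hs_act (S.hs_act hy g₁) κ) (S.hs_act hy g₁)
      (h3.mono ((hs.trans hU).trans hr)) (n := j) ?_ (hk.mono hs)
    have h11 := fmem_act_fix' (g := κ) (fun p => hfm κ hκ p) hk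
    rw [act_op] at h11
    exact h11.mono hs')
  refine ⟨q, hq, symN S (Hl n) q y, hs_symN (Hl_mem_F n) q hy, fix_symN _ _ _, ?_⟩
  exact feq_symN h5

section cuc

variable (B : ℕ → Po) (n : ℕ) (A e : PName Po)

/-- The requirement for the countable sets. -/
def D1 (k0 : ℕ) (b : Po) (t : PName Po × PName Po) : Prop :=
  S.HS t.1 ∧ S.HS t.2 ∧ Fmem (opN t.1 (check (nat k0))) e b ∧
    SF S InR ![t.1, t.2, check ZFSet.omega] b

/-- The requirement for the elements. -/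
def D2 (f : PName Po) (j : ℕ) (b : Po) (y : PName Po) : Prop :=
  S.HS y ∧ S.Fix (Hl n) y ∧ Fmem (opN y (check (nat j))) f b

open Classical in
/-- The names of the countable sets. -/
noncomputable def YF (k0 i : ℕ) : PName Po × PName Po :=
  if h : ∃ t, D1 e k0 (B i) t then h.choose else (emp, emp)

open Classical in
/-- The names of the elements. -/
noncomputable def wN (t : ℕ × ℕ × ℕ × ℕ) : PName Po :=
  if h : ∃ y, D2 n (YF B e t.1 t.2.1).2 t.2.2.1 (B t.2.2.2) y then h.choose else emp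

theorem yf_spec {k0 i : ℕ} (h : ∃ t, D1 e k0 (B i) t) : D1 e k0 (B i) (YF B e k0 i) := by
  rw [YF, dif_pos h]
  exact h.choose_spec

theorem wN_spec {t : ℕ × ℕ × ℕ × ℕ}
    (h : ∃ y, D2 n (YF B e t.1 t.2.1).2 t.2.2.1 (B t.2.2.2) y) :
    D2 n (YF B e t.1 t.2.1).2 t.2.2.1 (B t.2.2.2) (wN B n e t) := by
  rw [wN, dif_pos h]
  exact h.choose_spec

theorem hs_wN (t : ℕ × ℕ × ℕ × ℕ) : S.HS (wN B n e t) := by
  by_cases h : ∃ y, D2 n (YF B e t.1 t.2.1).2 t.2.2.1 (B t.2.2.2) y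
  · exact (wN_spec B n e h).1
  · rw [wN, dif_neg h]
    exact hs_emp

theorem fix_wN (t : ℕ × ℕ × ℕ × ℕ) : S.Fix (Hl n) (wN B n e t) := by
  by_cases h : ∃ y, D2 n (YF B e t.1 t.2.1).2 t.2.2.1 (B t.2.2.2) y
  · exact (wN_spec B n e h).2.1
  · rw [wN, dif_neg h]
    exact fix_emp n

/-- The name of the enumeration. -/
noncomputable def FN : PName Po :=
  famN (ℕ × ℕ × ℕ × ℕ) fun t => opN (wN B n e t) (check (nat (Encodable.encode t)))

theorem hs_FN : S.HS (FN B n e) := by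
  refine hs_famN (Hl_mem_F n) (fix_famN fun g hg => ⟨id, Function.surjective_id, fun t p => ?_⟩)
    fun t => S.hs_opN (hs_wN B n e t) (S.hs_check _)
  have h1 : act (S.ac g) (opN (wN B n e t) (check (nat (Encodable.encode t)))) =
      opN (act (S.ac g) (wN B n e t)) (check (nat (Encodable.encode t))) := by
    rw [act_opN (S.top g), act_check (S.top g)]
  rw [h1]
  exact feq_opN (fix_wN B n e t g hg p) (Feq.refl _ _)

end cuc

/-- The union of the countable sets. -/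
theorem forces_phi {A e : PName Po} (hA : S.HS A) (he : S.HS e) {p : Po}
    (hp : SF S Psi ![A, e, check ZFSet.omega] p) : SF S Phi ![A, check ZFSet.omega] p := by
  obtain ⟨B, hB⟩ := exists_dense
  obtain ⟨n, hen⟩ := exists_level he
  have hin : SF S InR ![A, e, check ZFSet.omega] p := fun π c1 c2 c3 => (hp π c1 c2 c3).1
  -- the density argument
  have claim : ∀ r ≤ p, ∀ Y y : PName Po, S.HS Y → S.HS y → Fmem y Y r → Fmem Y A r →
      ∃ r' ≤ r, ∃ t, Feq y (wN B n e t) r' := by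
    intro r hr Y y hY hy h1 h2
    obtain ⟨π, c1, c2, c3⟩ := exists_cld S {A, e, Y, y} (Set.toFinite _).countable r
    have m1 : A ∈ π.N := c2 (by simp)
    have m2 : e ∈ π.N := c2 (by simp)
    have m3 : Y ∈ π.N := c2 (by simp)
    have hk : ∃ k, π.g k ≤ p := ⟨0, c3.le.trans hr⟩
    obtain ⟨h3, h4⟩ := hp π c1 (in3 m1 m2) hk
    have hYA : π.val Y ∈ π.val A := val_mem_of_fmem m3 m1 h2 ⟨0, c3.le⟩
    obtain ⟨k0, hk0, h5⟩ := h3.1 _ hYA
    have hk0' : k0 ∈ π.hat ZFSet.omega := hk0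
    rw [π.hat_omega] at hk0'
    obtain ⟨k0, rfl⟩ := mem_omega_iff.1 hk0'
    have h5 : pair (π.val Y) (nat k0) ∈ π.val e := h5
    rw [← π.hat_nat k0] at h5
    have h6 : π.val (opN Y (check (nat k0))) ∈ π.val e := by
      rw [π.val_opN m3 (π.nat_Z k0)]
      exact h5
    obtain ⟨k1, hk1⟩ := (π.val_mem_iff (π.opN_mem m3 (π.nat_Z k0)) m2).1 h6
    obtain ⟨_, ⟨f, ⟨hfN, hf⟩, rfl⟩, h7⟩ := h4 _ hYA
    obtain ⟨k2, hk2⟩ := ud_in.fund (hs3 hY hf) c1 (in3 m3 hfN) h7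
    obtain ⟨i, hi⟩ := hB (π.g (max k1 k2))
    have hir : B i ≤ r := hi.trans (c3 ▸ π.g_anti (Nat.zero_le _))
    have h8 : D1 e k0 (B i) (Y, f) := ⟨hY, hf, hk1.mono (hi.trans (π.g_le_left _ _)),
      hk2.mono (hi.trans (π.g_le_right _ _))⟩
    obtain ⟨h9, h10, h11, h12⟩ := yf_spec B e ⟨_, h8⟩
    set Y1 := (YF B e k0 i).1 with hY1
    set f1 := (YF B e k0 i).2 with hf1
    have h13 : Feq Y Y1 (B i) :=
      inj_feq hA he hY h9 (hin.mono (hir.trans hr)) h8.2.2.1 h11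
    have h14 : Fmem y Y1 (B i) := fmem_congr (Feq.refl _ _) h13 (h1.mono hir)
    -- the value
    obtain ⟨π', d1, d2, d3⟩ := exists_cld S {Y1, f1, y} (Set.toFinite _).countable (B i)
    have n1 : Y1 ∈ π'.N := d2 (by simp)
    have n2 : f1 ∈ π'.N := d2 (by simp)
    have n3 : y ∈ π'.N := d2 (by simp)
    obtain ⟨j, hj, h15⟩ := (h12 π' d1 (in3 n1 n2) ⟨0, d3.le⟩).1 _
      (val_mem_of_fmem n3 n1 h14 ⟨0, d3.le⟩)
    have hj' : j ∈ π'.hat ZFSet.omega := hj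
    rw [π'.hat_omega] at hj'
    obtain ⟨j, rfl⟩ := mem_omega_iff.1 hj'
    have h15 : pair (π'.val y) (nat j) ∈ π'.val f1 := h15
    rw [← π'.hat_nat j] at h15
    have h16 : π'.val (opN y (check (nat j))) ∈ π'.val f1 := by
      rw [π'.val_opN n3 (π'.nat_Z j)]
      exact h15
    obtain ⟨k3, hk3⟩ := (π'.val_mem_iff (π'.opN_mem n3 (π'.nat_Z j)) n2).1 h16
    have h17 : π'.g k3 ≤ B i := d3 ▸ π'.g_anti (Nat.zero_le k3)
    obtain ⟨q, hq, y', hy'1, hy'2, hy'3⟩ := exists_fixed hA he h9 h10 hy hen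
      (b := π'.g k3) (k0 := k0) (hin.mono ((h17.trans hir).trans hr)) (h11.mono h17)
      (h12.mono h17) (h14.mono h17)
    obtain ⟨i', hi'⟩ := hB q
    have h18 : Fmem (opN y' (check (nat j))) f1 (B i') :=
      fmem_congr (feq_opN (hy'3.symm.mono hi') (Feq.refl _ _)) (Feq.refl _ _)
        (hk3.mono (hi'.trans hq))
    obtain ⟨h19, h20, h21⟩ := wN_spec B n e (t := (k0, i, j, i')) ⟨y', hy'1, hy'2, h18⟩
    refine ⟨B i', ((hi'.trans hq).trans h17).trans hir, (k0, i, j, i'), ?_⟩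
    exact inj_feq h9 h10 hy h19 (h12.mono ((hi'.trans hq).trans h17)) (hk3.mono (hi'.trans hq)) h21
  have hv : ∀ i, S.HS ((![A, check ZFSet.omega] : Fin 2 → PName Po) i) := by
    intro i
    fin_cases i
    · exact hA
    · exact S.hs_check _
  refine SF.intro ud_phi hv {FN B n e} (Set.countable_singleton _) fun π c1 c2 c3 c4 => ?_
  have m1 : A ∈ π.N := c2 0
  have m2 : FN B n e ∈ π.N := c3 rfl
  refine ⟨π.val (FN B n e), mem_Ms' (hs_FN B n e) m2, ?_, ?_⟩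
  · intro a ha x hx
    obtain ⟨Y, hYN, c, hc, hk, rfl⟩ := π.mem_val.1 ha
    obtain ⟨y, hyN, c', hc', hk', rfl⟩ := π.mem_val.1 hx
    have hY : S.HS Y := hA.el hc
    have hy : S.HS y := hY.el hc'
    obtain ⟨k1, h1⟩ := (π.val_mem_iff hYN m1).1 ha
    obtain ⟨k2, h2⟩ := (π.val_mem_iff hyN hYN).1 hx
    obtain ⟨k3, h3⟩ := c4
    let k := max k1 (max k2 k3)
    have g1 : π.g k ≤ π.g k1 := π.g_le_left _ _
    have g2 : π.g k ≤ π.g k2 := (π.g_le_right _ _).trans (π.g_le_left _ _)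
    have g3 : π.g k ≤ p := ((π.g_le_right _ _).trans (π.g_le_right _ _)).trans h3
    have hv3 : ∀ i, S.HS ((![y, check ZFSet.omega, FN B n e] : Fin 3 → PName Po) i) := by
      intro i
      fin_cases i
      · exact hy
      · exact S.hs_check _
      · exact hs_FN B n e
    have h4 : SF S Th ![y, check ZFSet.omega, FN B n e] (π.g k) := by
      refine SF.dense ud_th hv3 fun q hq => ?_
      obtain ⟨r', hr', t, ht⟩ := claim q (hq.trans g3) Y y hY hy (h2.mono (hq.trans g2))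
        (h1.mono (hq.trans g1))
      refine ⟨r', hr', SF.intro ud_th hv3 {wN B n e t} (Set.countable_singleton _)
        fun π' d1 d2 d3 d4 => ?_⟩
      have n1 : y ∈ π'.N := d2 0
      have n2 : FN B n e ∈ π'.N := d2 2
      have n3 : wN B n e t ∈ π'.N := d3 rfl
      refine ⟨nat (Encodable.encode t), ?_, ?_⟩
      · change nat (Encodable.encode t) ∈ π'.hat ZFSet.omega
        rw [π'.hat_omega]
        exact mem_omega_iff.2 ⟨_, rfl⟩
      · change pair (π'.val y) (nat (Encodable.encode t)) ∈ π'.val (FN B n e)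
        rw [val_eq_of_feq n1 n3 ht d4, FN, val_famN]
        refine ⟨t, π'.opN_mem n3 (π'.nat_Z _), ?_⟩
        rw [π'.val_opN n3 (π'.nat_Z _)]
        congr 1
        exact (π'.hat_nat _).symm
    obtain ⟨m, hm, h5⟩ := h4 π c1 (by
      intro i
      fin_cases i
      · exact hyN
      · exact π.omega_Z
      · exact m2) ⟨k, le_rfl⟩
    exact ⟨m, hm, h5⟩
  · intro x _ y _ m _ h1 h2
    rw [FN, val_famN] at h1 h2
    obtain ⟨t, ht, h3⟩ := h1
    obtain ⟨t', ht', h4⟩ := h2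
    rw [π.val_opN (π.fst_mem ht) (π.snd_mem ht)] at h3
    rw [π.val_opN (π.fst_mem ht') (π.snd_mem ht')] at h4
    obtain ⟨h5, h6⟩ := ZFSet.pair_inj.1 h3
    obtain ⟨h7, h8⟩ := ZFSet.pair_inj.1 h4
    have h9 : π.hat (nat (Encodable.encode t)) = π.hat (nat (Encodable.encode t')) :=
      h6.symm.trans h8
    rw [π.hat_nat, π.hat_nat] at h9
    have h10 : t = t' := Encodable.encode_injective (nat_injective h9)
    rw [h5, h7, h10]

/-- Countable unions of countable sets are countable in the model. -/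
theorem cuc {π : Pkg Po} (hπ : S.Cld π) : R596Fc.CUC (S.Ms π) := by
  have hM := isZF_Ms hπ
  rintro _ ⟨A, ⟨hAN, hA⟩, rfl⟩ ⟨_, ⟨e, ⟨heN, he⟩, rfl⟩, hinj⟩ hct
  have h1 : Psi (S.Ms π) (π.val ∘ ![A, e, check ZFSet.omega]) := by
    have hom : (π.val ∘ ![A, e, check ZFSet.omega]) 2 = ZFSet.omega := π.hat_omega
    refine ⟨⟨?_, ?_⟩, ?_⟩
    · intro x hx
      rw [hom]
      exact fun_exists hinj.1 hx
    · intro x _ y _ m _ h1 h2
      exact hinj.2 _ _ _ h1 h2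
    · intro a ha
      obtain ⟨f, hf, h2⟩ := hct a ha
      rw [hom]
      exact ⟨f, hf, fun x hx => fun_exists h2.1 hx, fun x _ y _ m _ h3 h4 => h2.2 _ _ _ h3 h4⟩
  obtain ⟨k, hk⟩ := ud_psi.fund (hs3 hA he) hπ (in3 hAN heN) h1
  obtain ⟨f, hf, h2, h3⟩ := forces_phi hA he hk π hπ (by
    intro i
    fin_cases i
    · exact hAN
    · exact π.omega_Z) ⟨k, le_rfl⟩
  have hAM := mem_Ms' hA hAN
  have hom : (π.val ∘ ![A, check ZFSet.omega]) 1 = ZFSet.omega := π.hat_omega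
  rw [hom] at h2
  obtain ⟨g, hg, h4⟩ := ctb_of_rel hM (hM.union _ hAM) hf (fun x hx => by
    obtain ⟨a, ha, hxa⟩ := ZFSet.mem_sUnion.1 hx
    exact h2 a ha x hxa) h3
  exact ⟨g, hg, h4⟩

end Pool.Agent.D0H63.Cu
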