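import Pool.Agent.D0H63.Cu.Grp

/-!
# Elements of the group
-/

set_option autoImplicit false

namespace Pool.Agent.D0H63.Cu

open Pool.Agent.R598.CI (Kc)
open Gp

/-! ### Swaps -/

open Classical in
/-- The function that swaps `i` and `I i` for `i ∈ A`. -/
noncomputable def swf (A : Finset ℕ) (I : ℕ → ℕ) (i : ℕ) : ℕ :=
  if i ∈ A then I i else if h : ∃ j ∈ A, I j = i then h.choose else i

theorem swf_mem {A : Finset ℕ} {I : ℕ → ℕ} {i : ℕ} (h : i ∈ A) : swf A I i = I i := if_pos h

theorem swf_img {A : Finset ℕ} {I : ℕ → ℕ} (hI : Function.Injective I) (hA : ∀ j ∈ A, I j ∉ A)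
    {j : ℕ} (h : j ∈ A) : swf A I (I j) = j := by
  have h1 : ∃ k ∈ A, I k = I j := ⟨j, h, rfl⟩
  rw [swf, if_neg (hA j h), dif_pos h1]
  exact hI h1.choose_spec.2

theorem swf_other {A : Finset ℕ} {I : ℕ → ℕ} {i : ℕ} (h : i ∉ A) (h' : ∀ j ∈ A, I j ≠ i) :
    swf A I i = i := by
  rw [swf, if_neg h, dif_neg]
  rintro ⟨j, hj, h1⟩
  exact h' j hj h1

theorem swf_invol {A : Finset ℕ} {I : ℕ → ℕ} (hI : Function.Injective I)
    (hA : ∀ j ∈ A, I j ∉ A) : Function.Involutive (swf A I) := by
  intro i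
  by_cases h : i ∈ A
  · rw [swf_mem h, swf_img hI hA h]
  · by_cases h' : ∃ j ∈ A, I j = i
    · obtain ⟨j, hj, rfl⟩ := h'
      rw [swf_img hI hA hj, swf_mem hj]
    · push Not at h'
      rw [swf_other h h', swf_other h h']

theorem exists_swap (A : Finset ℕ) {I : ℕ → ℕ} (hI : Function.Injective I)
    (hA : ∀ j ∈ A, I j ∉ A) : ∃ τ : Equiv.Perm ℕ, (∀ i ∈ A, τ.symm i = I i) ∧
      (∀ i, i ∉ A → (∀ j ∈ A, I j ≠ i) → τ.symm i = i) ∧ ∃ N, ∀ i, N ≤ i → τ i = i := by
  refine ⟨(swf_invol hI hA).toPerm, fun i hi => swf_mem hi, fun i hi h => swf_other hi h,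
    A.sup (fun j => max j (I j)) + 1, fun i hi => ?_⟩
  refine swf_other (fun h => ?_) (fun j hj h => ?_)
  · have h1 : max i (I i) ≤ A.sup (fun j => max j (I j)) :=
      Finset.le_sup (f := fun j => max j (I j)) h
    have h2 := le_max_left i (I i)
    omega
  · have h1 : max j (I j) ≤ A.sup (fun j => max j (I j)) :=
      Finset.le_sup (f := fun j => max j (I j)) hj
    have h2 := le_max_right j (I j)
    omega

/-- The action of a permutation on the sequences. -/
def pmγ (τ : Equiv.Perm ℕ) : (ℕ → Kc) ≃ₜ (ℕ → Kc) where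
  toFun u j := u (τ.symm j)
  invFun u j := u (τ j)
  left_inv u := by
    funext j
    simp
  right_inv u := by
    funext j
    simp
  continuous_toFun := continuous_pi fun j => continuous_apply _
  continuous_invFun := continuous_pi fun j => continuous_apply _

theorem pmγ_apply (τ : Equiv.Perm ℕ) (u : ℕ → Kc) (j : ℕ) : pmγ τ u j = u (τ.symm j) := rfl

theorem symm_fix {τ : Equiv.Perm ℕ} {i : ℕ} (h : τ i = i) : τ.symm i = i := by
  rw [Equiv.symm_apply_eq]
  exact h.symm

theorem fix_of_symm {τ : Equiv.Perm ℕ} {i : ℕ} (h : τ.symm i = i) : τ i = i := by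
  rw [Equiv.symm_apply_eq] at h
  exact h.symm

theorem pmγ_fn {τ : Equiv.Perm ℕ} {N : ℕ} (h : ∀ i, N ≤ i → τ i = i) : Fn (pmγ τ) N := by
  have h1 : ∀ i, i < N → τ i < N := by
    intro i hi
    by_contra h2
    have h3 := h _ (not_lt.1 h2)
    have h4 := τ.injective h3
    rw [h4] at h2
    exact h2 hi
  have h1' : ∀ i, i < N → τ.symm i < N := by
    intro i hi
    by_contra h2
    have h3 := h _ (not_lt.1 h2)
    rw [Equiv.apply_symm_apply] at h3
    rw [← h3] at h2
    exact h2 hi
  refine ⟨fun u j hj => ?_, fun u v => ?_⟩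
  · rw [pmγ_apply, symm_fix (h j hj)]
  · constructor
    · intro h2 j hj
      have h3 := h2 _ (h1 j hj)
      rwa [pmγ_apply, pmγ_apply, Equiv.symm_apply_apply] at h3
    · intro h2 j hj
      exact h2 _ (h1' j hj)

/-- Permutations and translations. -/
def pt (τ : Option ℕ → Equiv.Perm ℕ) (hτ : ∀ b, ∃ N, ∀ i, N ≤ i → τ b i = i)
    (h : ℕ → (ℕ → Kc) → Kc) (hc : ∀ a, Continuous (h a))
    (hf : ∀ a, ∃ N, ∀ u v, Agr N u v → h a u = h a v) : Gp where
  γ := pmγ (τ none)
  σ a := τ (some a)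
  h := h
  γf := by
    obtain ⟨N, hN⟩ := hτ none
    exact ⟨N, pmγ_fn hN⟩
  σf a := hτ (some a)
  hc := hc
  hf := hf

/-- Permutations. -/
def pm (τ : Option ℕ → Equiv.Perm ℕ) (hτ : ∀ b, ∃ N, ∀ i, N ≤ i → τ b i = i) : Gp :=
  pt τ hτ (fun _ _ => 0) (fun _ => continuous_const) (fun _ => ⟨0, fun _ _ _ => rfl⟩)

theorem apx_pm (τ : Option ℕ → Equiv.Perm ℕ) (hτ : ∀ b, ∃ N, ∀ i, N ≤ i → τ b i = i) (z : Xs)
    (b : Option ℕ) (i : ℕ) : apx (pm τ hτ) z (b, i) = z (b, (τ b).symm i) := by
  cases b with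
  | none => rfl
  | some a =>
    rw [apx_some]
    exact add_zero _

/-! ### Shears -/

/-- The shear. -/
def shγ (φ : ℕ → (ℕ → Kc) → Kc) (hφ : ∀ j, Continuous (φ j)) (N : ℕ)
    (h0 : ∀ j < N, ∀ u, φ j u = 0) (hd : ∀ j u v, Agr N u v → φ j u = φ j v) :
    (ℕ → Kc) ≃ₜ (ℕ → Kc) where
  toFun u j := u j + φ j u
  invFun u j := u j - φ j u
  left_inv u := by
    funext j
    have h1 : φ j (fun j => u j + φ j u) = φ j u := hd j _ _ fun i hi => by
      rw [h0 i hi, add_zero]
    simp only [h1]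
    abel
  right_inv u := by
    funext j
    have h1 : φ j (fun j => u j - φ j u) = φ j u := hd j _ _ fun i hi => by
      rw [h0 i hi, sub_zero]
    simp only [h1]
    abel
  continuous_toFun := continuous_pi fun j => (continuous_apply j).add (hφ j)
  continuous_invFun := continuous_pi fun j => (continuous_apply j).sub (hφ j)

theorem shγ_fn {φ : ℕ → (ℕ → Kc) → Kc} {hφ : ∀ j, Continuous (φ j)} {N : ℕ}
    {h0 : ∀ j < N, ∀ u, φ j u = 0} {hd : ∀ j u v, Agr N u v → φ j u = φ j v} {N' : ℕ}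
    (hN : N ≤ N') (h' : ∀ j, N' ≤ j → ∀ u, φ j u = 0) : Fn (shγ φ hφ N h0 hd) N' := by
  refine ⟨fun u j hj => ?_, fun u v => ?_⟩
  · change u j + φ j u = u j
    rw [h' j hj, add_zero]
  · constructor
    · intro h1
      have h2 : Agr N u v := by
        intro j hj
        have h3 : u j + φ j u = v j + φ j v := h1 j (hj.trans_le hN)
        rwa [h0 j hj, h0 j hj, add_zero, add_zero] at h3
      intro j hj
      have h3 : u j + φ j u = v j + φ j v := h1 j hj
      rw [hd j u v h2] at h3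
      exact add_right_cancel h3
    · intro h1 j hj
      change u j + φ j u = v j + φ j v
      rw [h1 j hj, hd j u v (h1.mono hN)]

/-- The shear. -/
def sh (φ : ℕ → (ℕ → Kc) → Kc) (hφ : ∀ j, Continuous (φ j)) (N : ℕ)
    (h0 : ∀ j < N, ∀ u, φ j u = 0) (hd : ∀ j u v, Agr N u v → φ j u = φ j v)
    (N' : ℕ) (h' : ∀ j, N' ≤ j → ∀ u, φ j u = 0) : Gp where
  γ := shγ φ hφ N h0 hd
  σ _ := 1
  h _ _ := 0
  γf := ⟨max N N', shγ_fn (le_max_left _ _) fun j hj => h' j ((le_max_right _ _).trans hj)⟩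
  σf _ := ⟨0, fun _ _ => rfl⟩
  hc _ := continuous_const
  hf _ := ⟨0, fun _ _ _ => rfl⟩

/-! ### The combinatorial core -/

/-- The blocks below `m`. -/
def act? (m : ℕ) (A : Finset ℕ) : Option ℕ → Finset ℕ
  | none => A
  | some a => if a < m then A else ∅

theorem core1 {n m M0 : ℕ} (hM0 : m ≤ M0) {g₁ : Gp}
    (hγ : ∀ u, ∀ j < m, g₁.γ u j = u (if j < n then j else M0 + j))
    (hh : ∀ a < m, ∀ u, g₁.h a u = if n ≤ a then u (2 * M0 + a) else 0)
    (hσ : ∀ a < m, ∀ i < m, (g₁.σ a).symm i = if a < n ∧ i < n then i else M0 + i)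
    {z0 : Xs} {M2 : ℕ} {ε : ℝ} (hM2 : 2 * M0 + m ≤ M2) (hε : 0 < ε) {g : Gp} (hg : g ∈ Hl n)
    {z : Xs} (hz : Rich z) (hzq : z ∈ Nb z0 M2 ε) (hgzq : apx g z ∈ Nb z0 M2 ε)
    (hs : ∀ a, n ≤ a → a < m → ‖g.h a (fr z)‖ < ε) :
    ∃ κ ∈ Hl m, ∃ c ∈ Hl m, (g₁ * κ) * g * c⁻¹ * (g₁ * κ)⁻¹ ∈ Hl m ∧
      apx κ (apx g z) ∈ Nb z0 M2 (2 * ε) ∧ apx κ (apx c z) ∈ Nb z0 M2 (2 * ε) := by
  classical
  obtain ⟨Nγ, hNγ⟩ := g.γf
  choose Nσ hNσ using g.σf
  choose Nh hNh using g.hf
  let Nf := max (max M2 Nγ) (max ((Finset.range m).sup Nσ) ((Finset.range m).sup Nh))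
  have f1 : M2 ≤ Nf := (le_max_left _ _).trans (le_max_left _ _)
  have f2 : Nγ ≤ Nf := (le_max_right _ _).trans (le_max_left _ _)
  have f3 : ∀ a < m, Nσ a ≤ Nf := fun a ha =>
    ((Finset.le_sup (Finset.mem_range.2 ha)).trans (le_max_left _ _)).trans (le_max_right _ _)
  have f4 : ∀ a < m, Nh a ≤ Nf := fun a ha =>
    ((Finset.le_sup (Finset.mem_range.2 ha)).trans (le_max_right _ _)).trans (le_max_right _ _)
  have hx : Rich (apx g z) := hz.apx g
  choose I hI1 hI2 hI3 using fun b => hx.choose b (fun j => z0 (b, j)) hε Nf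
  have hIM : ∀ b j, M2 ≤ I b j := fun b j => f1.trans (hI2 b j)
  choose τ hτ1 hτ2 hτ3 using fun b => exists_swap (act? m (Finset.Ico m M2) b)
    (I := I b) (hI1 b).injective (by
      intro j _ h
      have h1 : I b j ∈ Finset.Ico m M2 := by
        cases b with
        | none => exact h
        | some a =>
          rw [act?] at h
          split_ifs at h with h2
          · exact h
          · simp at h
      have h2 := hIM b j
      have h3 := (Finset.mem_Ico.1 h1).2
      omega)
  -- the values of the swap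
  have t1 : ∀ b j, j < m → (τ b).symm j = j := by
    intro b j hj
    refine hτ2 b j (fun h => ?_) (fun k _ h => ?_)
    · have h1 : j ∈ Finset.Ico m M2 := by
        cases b with
        | none => exact h
        | some a =>
          rw [act?] at h
          split_ifs at h with h2
          · exact h
          · simp at h
      have h2 := (Finset.mem_Ico.1 h1).1
      omega
    · have h1 := hIM b k
      omega
  have t2 : ∀ j, m ≤ j → j < M2 → (τ none).symm j = I none j := fun j h1 h2 =>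
    hτ1 none j (Finset.mem_Ico.2 ⟨h1, h2⟩)
  have t3 : ∀ a, a < m → ∀ j, m ≤ j → j < M2 → (τ (some a)).symm j = I (some a) j := by
    intro a ha j h1 h2
    refine hτ1 (some a) j ?_
    rw [act?, if_pos ha]
    exact Finset.mem_Ico.2 ⟨h1, h2⟩
  have t4 : ∀ a, m ≤ a → ∀ j, (τ (some a)).symm j = j := by
    intro a ha j
    have h1 : act? m (Finset.Ico m M2) (some a) = ∅ := by
      rw [act?, if_neg (not_lt.2 ha)]
    refine hτ2 (some a) j ?_ ?_
    · rw [h1]
      simp
    · rw [h1]
      simp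
  let κ : Gp := pm τ hτ3
  have hκγ : ∀ u j, κ.γ u j = u ((τ none).symm j) := fun u j => rfl
  have hκσ : ∀ a, κ.σ a = τ (some a) := fun a => rfl
  have hκh : ∀ a u, κ.h a u = 0 := fun a u => rfl
  let φ : ℕ → (ℕ → Kc) → Kc := fun J u =>
    ∑ a ∈ Finset.Ico n m, if I none (2 * M0 + a) = J then g.h a u else 0
  have hφc : ∀ j, Continuous (φ j) := by
    intro j
    refine continuous_finsetSum _ fun a _ => ?_
    by_cases h : I none (2 * M0 + a) = j
    · simp only [if_pos h]
      exact g.hc a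
    · simp only [if_neg h]
      exact continuous_const
  have hφ0 : ∀ j, (∀ a, n ≤ a → a < m → I none (2 * M0 + a) ≠ j) → ∀ u, φ j u = 0 := by
    intro j hj u
    refine Finset.sum_eq_zero fun a ha => ?_
    rw [if_neg]
    exact hj a (Finset.mem_Ico.1 ha).1 (Finset.mem_Ico.1 ha).2
  have hφ1 : ∀ j < Nf, ∀ u, φ j u = 0 := by
    intro j hj u
    refine hφ0 j (fun a _ _ h => ?_) u
    have := hI2 none (2 * M0 + a)
    omega
  have hφ2 : ∀ j u v, Agr Nf u v → φ j u = φ j v := by
    intro j u v h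
    refine Finset.sum_congr rfl fun a ha => ?_
    rw [hNh a u v (h.mono (f4 a (Finset.mem_Ico.1 ha).2))]
  have hφ3 : ∀ a, n ≤ a → a < m → ∀ u, φ (I none (2 * M0 + a)) u = g.h a u := by
    intro a ha ha' u
    change ∑ a' ∈ Finset.Ico n m, (if I none (2 * M0 + a') = I none (2 * M0 + a) then g.h a' u
      else 0) = _
    rw [Finset.sum_eq_single a, if_pos rfl]
    · intro a' _ h1
      rw [if_neg]
      intro h2
      have h3 := (hI1 none).injective h2
      omega
    · intro h1
      exact absurd (Finset.mem_Ico.2 ⟨ha, ha'⟩) h1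
  let c : Gp := sh φ hφc Nf hφ1 hφ2 (I none (2 * M0 + m) + 1) (by
    intro j hj u
    refine hφ0 j (fun a _ ha h => ?_) u
    have h1 := (hI1 none) (show 2 * M0 + a < 2 * M0 + m by omega)
    omega)
  have hcγ : ∀ u j, c.γ u j = u j + φ j u := fun u j => rfl
  have hcσ : ∀ a, c.σ a = 1 := fun a => rfl
  have hch : ∀ a u, c.h a u = 0 := fun a u => rfl
  have hκ : κ ∈ Hl m := by
    refine ⟨fun u j hj => ?_, fun a _ u => rfl, fun a _ i hi => fix_of_symm (t1 (some a) i hi)⟩
    rw [hκγ, t1 none j hj]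
  have hc : c ∈ Hl m := by
    refine ⟨fun u j hj => ?_, fun a _ u => rfl, fun a _ i _ => rfl⟩
    rw [hcγ, hφ1 j (by omega), add_zero]
  refine ⟨κ, hκ, c, hc, ?_, ?_, ?_⟩
  · -- agreement
    have e1 : g₁ * κ * g * c⁻¹ * (g₁ * κ)⁻¹ = (g₁ * κ * g) * (g₁ * κ * c)⁻¹ := by group
    rw [e1]
    refine mul_inv_mem_Hl (fun u j hj => ?_) (fun a ha u => ?_) (fun a ha i hi => ?_)
    · change g₁.γ (κ.γ (g.γ u)) j = g₁.γ (κ.γ (c.γ u)) j
      rw [hγ _ j hj, hγ _ j hj, hκγ, hκγ]
      by_cases hjn : j < n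
      · rw [if_pos hjn, t1 none j hj, hg.1 u j hjn, hcγ, hφ1 j (by omega), add_zero]
      · rw [if_neg hjn, t2 (M0 + j) (by omega) (by omega), hNγ.1 _ _ (f2.trans (hI2 _ _)), hcγ,
          hφ0 _ (fun a ha ha' h => ?_), add_zero]
        have h3 := (hI1 none).injective h
        omega
    · have h1 : ∀ v, (g₁ * κ).h a v = if n ≤ a then v (I none (2 * M0 + a)) else 0 := by
        intro v
        rw [mul_h, hκh, zero_add, hh a ha]
        by_cases hna : n ≤ a
        · rw [if_pos hna, if_pos hna, hκγ, t2 (2 * M0 + a) (by omega) (by omega)]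
        · rw [if_neg hna, if_neg hna]
      rw [mul_h (g₁ * κ) g, mul_h (g₁ * κ) c, h1, h1, hch, zero_add]
      by_cases hna : n ≤ a
      · rw [if_pos hna, if_pos hna, hNγ.1 _ _ (f2.trans (hI2 _ _)), hcγ, hφ3 a hna ha, add_comm]
      · rw [if_neg hna, if_neg hna, hg.2.1 a (not_le.1 hna), add_zero]
    · change (g.σ a).symm ((τ (some a)).symm ((g₁.σ a).symm i)) =
        (c.σ a).symm ((τ (some a)).symm ((g₁.σ a).symm i))
      rw [hσ a ha i hi, hcσ]
      by_cases h1 : a < n ∧ i < n
      · rw [if_pos h1, t1 (some a) i hi, σ_symm_of_mem hg h1.1 h1.2]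
        rfl
      · rw [if_neg h1, t3 a ha (M0 + i) (by omega) (by omega)]
        exact symm_fix (hNσ a _ ((f3 a ha).trans (hI2 _ _)))
  · -- the position of the first point
    rintro ⟨b, i⟩ hb
    have hi : i < M2 := (mem_Lf.1 hb).2
    have e1 : apx κ (apx g z) (b, i) = apx g z (b, (τ b).symm i) := apx_pm τ hτ3 _ _ _
    rw [e1]
    by_cases hmi : i < m
    · rw [t1 b i hmi]
      have := hgzq _ hb
      linarith
    · have h2 : (τ b).symm i = I b i ∨ (τ b).symm i = i := by
        cases b with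
        | none => exact Or.inl (t2 i (not_lt.1 hmi) hi)
        | some a =>
          by_cases ha : a < m
          · exact Or.inl (t3 a ha i (not_lt.1 hmi) hi)
          · exact Or.inr (t4 a (not_lt.1 ha) i)
      rcases h2 with h2 | h2
      · rw [h2]
        have := hI3 b i
        linarith
      · rw [h2]
        have := hgzq _ hb
        linarith
  · rintro ⟨b, i⟩ hb
    have hi : i < M2 := (mem_Lf.1 hb).2
    have e1 : apx κ (apx c z) (b, i) = apx c z (b, (τ b).symm i) := apx_pm τ hτ3 _ _ _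
    have e2 : ∀ j, apx c z (none, j) = z (none, j) + φ j (fr z) := fun j => rfl
    have e3 : ∀ a j, apx c z (some a, j) = z (some a, j) := by
      intro a j
      rw [apx_some, hch, add_zero, hcσ]
      rfl
    have hzb := hzq _ hb
    rw [e1]
    cases b with
    | none =>
      rw [e2]
      by_cases hmi : i < m
      · rw [t1 none i hmi, hφ1 i (by omega), add_zero]
        linarith
      · rw [t2 i (not_lt.1 hmi) hi]
        have h3 := hI3 none i
        rw [apx_none, hNγ.1 _ _ (f2.trans (hI2 _ _)), fr_apply] at h3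
        have h3 : ‖z (none, I none i) - z0 (none, i)‖ < ε := h3
        by_cases hra : ∃ a, n ≤ a ∧ a < m ∧ 2 * M0 + a = i
        · obtain ⟨a, ha, ha', rfl⟩ := hra
          rw [hφ3 a ha ha']
          have h4 := hs a ha ha'
          have h5 : z (none, I none (2 * M0 + a)) + g.h a (fr z) - z0 (none, 2 * M0 + a) =
            (z (none, I none (2 * M0 + a)) - z0 (none, 2 * M0 + a)) + g.h a (fr z) := by abel
          rw [h5]
          have h6 := norm_add_le (z (none, I none (2 * M0 + a)) - z0 (none, 2 * M0 + a))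
            (g.h a (fr z))
          linarith
        · rw [hφ0, add_zero]
          · linarith
          · intro a ha ha' h4
            exact hra ⟨a, ha, ha', (hI1 none).injective h4⟩
    | some a =>
      rw [e3]
      by_cases hmi : i < m
      · rw [t1 (some a) i hmi]
        linarith
      · by_cases ha : a < m
        · rw [t3 a ha i (not_lt.1 hmi) hi]
          have h3 := hI3 (some a) i
          rw [apx_some, symm_fix (hNσ a _ ((f3 a ha).trans (hI2 _ _)))] at h3
          have h4 : ‖g.h a (fr z)‖ < ε := by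
            by_cases hna : n ≤ a
            · exact hs a hna ha
            · rw [hg.2.1 a (not_le.1 hna), norm_zero]
              exact hε
          have h5 : z (some a, I (some a) i) - z0 (some a, i) =
            (z (some a, I (some a) i) + g.h a (fr z) - z0 (some a, i)) - g.h a (fr z) := by abel
          rw [h5]
          have h6 := norm_sub_le (z (some a, I (some a) i) + g.h a (fr z) - z0 (some a, i))
            (g.h a (fr z))
          linarith
        · rw [t4 a (not_lt.1 ha) i]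
          linarith

end Pool.Agent.D0H63.Cu
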