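import Mathlib
import Pool.Agent.R598.CI.Ds

/-!
# The space of the coordinates and the group of its homeomorphisms

The index `(none, j)` is the free coordinate `j`; the index `(some a, i)` is the coordinate `i` in
the block `a`. The homeomorphisms change finitely many free coordinates, permute the coordinates
in each block, and translate each block by a continuous function of finitely many free coordinates.
-/

set_option autoImplicit false

namespace Pool.Agent.D0H63.Cu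

open Pool.Agent.R598.CI (Kc)

/-- The indices of the coordinates. -/
abbrev Ix : Type := Option ℕ × ℕ

/-- The space. -/
abbrev Xs : Type := Ix → Kc

/-- The free coordinates. -/
def fr (z : Xs) : ℕ → Kc := fun j => z (none, j)

theorem fr_apply (z : Xs) (j : ℕ) : fr z j = z (none, j) := rfl

theorem continuous_fr : Continuous fr := continuous_pi fun j => continuous_apply (none, j)

/-- The sequences agree below `N`. -/
def Agr (N : ℕ) (u v : ℕ → Kc) : Prop := ∀ j < N, u j = v j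

theorem Agr.mono {N M : ℕ} {u v : ℕ → Kc} (h : Agr M u v) (hN : N ≤ M) : Agr N u v :=
  fun j hj => h j (hj.trans_le hN)

theorem Agr.symm {N : ℕ} {u v : ℕ → Kc} (h : Agr N u v) : Agr N v u := fun j hj => (h j hj).symm

/-- The homeomorphism is supported below `N`. -/
def Fn (γ : (ℕ → Kc) ≃ₜ (ℕ → Kc)) (N : ℕ) : Prop :=
  (∀ u j, N ≤ j → γ u j = u j) ∧ ∀ u v, Agr N (γ u) (γ v) ↔ Agr N u v

theorem Fn.mono {γ : (ℕ → Kc) ≃ₜ (ℕ → Kc)} {N M : ℕ} (h : Fn γ N) (hNM : N ≤ M) : Fn γ M := by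
  refine ⟨fun u j hj => h.1 u j (hNM.trans hj), fun u v => ?_⟩
  constructor
  · intro h1 j hj
    by_cases hjN : j < N
    · exact (h.2 u v).1 (h1.mono hNM) j hjN
    · have h2 := h1 j hj
      rwa [h.1 u j (not_lt.1 hjN), h.1 v j (not_lt.1 hjN)] at h2
  · intro h1 j hj
    by_cases hjN : j < N
    · exact (h.2 u v).2 (h1.mono hNM) j hjN
    · rw [h.1 u j (not_lt.1 hjN), h.1 v j (not_lt.1 hjN)]
      exact h1 j hj

theorem Fn.inv {γ : (ℕ → Kc) ≃ₜ (ℕ → Kc)} {N : ℕ} (h : Fn γ N) : Fn γ⁻¹ N := by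
  constructor
  · intro u j hj
    have h1 := h.1 (γ⁻¹ u) j hj
    have h2 : γ (γ⁻¹ u) = u := γ.apply_symm_apply u
    rw [h2] at h1
    exact h1.symm
  · intro u v
    have h1 := h.2 (γ⁻¹ u) (γ⁻¹ v)
    have h2 : ∀ u, γ (γ⁻¹ u) = u := fun u => γ.apply_symm_apply u
    rw [h2, h2] at h1
    exact h1.symm

theorem Fn.mul {γ γ' : (ℕ → Kc) ≃ₜ (ℕ → Kc)} {N : ℕ} (h : Fn γ N) (h' : Fn γ' N) :
    Fn (γ * γ') N := by
  constructor
  · intro u j hj
    change γ (γ' u) j = u j
    rw [h.1 _ j hj, h'.1 _ j hj]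
  · intro u v
    change Agr N (γ (γ' u)) (γ (γ' v)) ↔ _
    rw [h.2, h'.2]

theorem Fn.one (N : ℕ) : Fn 1 N := ⟨fun _ _ _ => rfl, fun _ _ => Iff.rfl⟩

/-- The group. -/
@[ext] structure Gp : Type where
  /-- the action on the free coordinates -/
  γ : (ℕ → Kc) ≃ₜ (ℕ → Kc)
  /-- the permutations of the blocks -/
  σ : ℕ → Equiv.Perm ℕ
  /-- the translations of the blocks -/
  h : ℕ → (ℕ → Kc) → Kc
  γf : ∃ N, Fn γ N
  σf : ∀ a, ∃ N, ∀ i, N ≤ i → σ a i = i
  hc : ∀ a, Continuous (h a)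
  hf : ∀ a, ∃ N, ∀ u v, Agr N u v → h a u = h a v

namespace Gp

instance : Mul Gp where
  mul g g' :=
    { γ := g.γ * g'.γ
      σ := fun a => g.σ a * g'.σ a
      h := fun a u => g'.h a u + g.h a (g'.γ u)
      γf := by
        obtain ⟨N, hN⟩ := g.γf
        obtain ⟨M, hM⟩ := g'.γf
        exact ⟨max N M, (hN.mono (le_max_left _ _)).mul (hM.mono (le_max_right _ _))⟩
      σf := by
        intro a
        obtain ⟨N, hN⟩ := g.σf a
        obtain ⟨M, hM⟩ := g'.σf a
        refine ⟨max N M, fun i hi => ?_⟩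
        rw [Equiv.Perm.mul_apply, hM i ((le_max_right _ _).trans hi),
          hN i ((le_max_left _ _).trans hi)]
      hc := fun a => (g'.hc a).add ((g.hc a).comp g'.γ.continuous)
      hf := by
        intro a
        obtain ⟨N, hN⟩ := g.hf a
        obtain ⟨M, hM⟩ := g'.hf a
        obtain ⟨L, hL⟩ := g'.γf
        refine ⟨max N (max M L), fun u v huv => ?_⟩
        have h1 : Agr (max N (max M L)) (g'.γ u) (g'.γ v) :=
          ((hL.mono ((le_max_right _ _).trans (le_max_right _ _))).2 u v).2 huv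
        rw [hM u v (huv.mono ((le_max_left _ _).trans (le_max_right _ _))),
          hN _ _ (h1.mono (le_max_left _ _))] }

instance : One Gp where
  one :=
    { γ := 1
      σ := fun _ => 1
      h := fun _ _ => 0
      γf := ⟨0, Fn.one 0⟩
      σf := fun _ => ⟨0, fun _ _ => rfl⟩
      hc := fun _ => continuous_const
      hf := fun _ => ⟨0, fun _ _ _ => rfl⟩ }

instance : Inv Gp where
  inv g :=
    { γ := g.γ⁻¹
      σ := fun a => (g.σ a)⁻¹
      h := fun a u => - g.h a (g.γ⁻¹ u)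
      γf := by
        obtain ⟨N, hN⟩ := g.γf
        exact ⟨N, hN.inv⟩
      σf := by
        intro a
        obtain ⟨N, hN⟩ := g.σf a
        refine ⟨N, fun i hi => ?_⟩
        rw [Equiv.Perm.inv_eq_iff_eq, hN i hi]
      hc := fun a => ((g.hc a).comp (g.γ⁻¹).continuous).neg
      hf := by
        intro a
        obtain ⟨N, hN⟩ := g.hf a
        obtain ⟨L, hL⟩ := g.γf
        refine ⟨max N L, fun u v huv => ?_⟩
        have h1 : Agr (max N L) (g.γ⁻¹ u) (g.γ⁻¹ v) :=
          ((hL.inv.mono (le_max_right _ _)).2 u v).2 huv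
        rw [hN _ _ (h1.mono (le_max_left _ _))] }

theorem mul_γ (g g' : Gp) : (g * g').γ = g.γ * g'.γ := rfl
theorem mul_σ (g g' : Gp) (a : ℕ) : (g * g').σ a = g.σ a * g'.σ a := rfl
theorem mul_h (g g' : Gp) (a : ℕ) (u : ℕ → Kc) :
    (g * g').h a u = g'.h a u + g.h a (g'.γ u) := rfl
theorem one_γ : (1 : Gp).γ = 1 := rfl
theorem one_σ (a : ℕ) : (1 : Gp).σ a = 1 := rfl
theorem one_h (a : ℕ) (u : ℕ → Kc) : (1 : Gp).h a u = 0 := rfl
theorem inv_γ (g : Gp) : g⁻¹.γ = g.γ⁻¹ := rfl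
theorem inv_σ (g : Gp) (a : ℕ) : g⁻¹.σ a = (g.σ a)⁻¹ := rfl
theorem inv_h (g : Gp) (a : ℕ) (u : ℕ → Kc) : g⁻¹.h a u = - g.h a (g.γ⁻¹ u) := rfl

instance : Group Gp where
  mul_assoc a b c := by
    refine Gp.ext ?_ ?_ ?_
    · exact mul_assoc _ _ _
    · funext i
      exact mul_assoc _ _ _
    · funext i u
      simp only [mul_h, mul_γ, add_assoc]
      rfl
  one_mul a := by
    refine Gp.ext ?_ ?_ ?_
    · exact one_mul _
    · funext i
      exact one_mul _
    · funext i u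
      simp only [mul_h, one_h, add_zero]
  mul_one a := by
    refine Gp.ext ?_ ?_ ?_
    · exact mul_one _
    · funext i
      exact mul_one _
    · funext i u
      simp only [mul_h, one_h, zero_add]
      rfl
  inv_mul_cancel a := by
    refine Gp.ext ?_ ?_ ?_
    · exact inv_mul_cancel _
    · funext i
      exact inv_mul_cancel _
    · funext i u
      simp only [mul_h, inv_h, one_h]
      have h1 : a.γ⁻¹ (a.γ u) = u := a.γ.symm_apply_apply u
      rw [h1, add_neg_cancel]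

theorem γ_inv_γ (g : Gp) (u : ℕ → Kc) : g.γ⁻¹ (g.γ u) = u := g.γ.symm_apply_apply u

theorem γ_γ_inv (g : Gp) (u : ℕ → Kc) : g.γ (g.γ⁻¹ u) = u := g.γ.apply_symm_apply u

/-- The action on the space. -/
def apx (g : Gp) (z : Xs) : Xs
  | (none, j) => g.γ (fr z) j
  | (some a, i) => z (some a, (g.σ a).symm i) + g.h a (fr z)

theorem apx_none (g : Gp) (z : Xs) (j : ℕ) : apx g z (none, j) = g.γ (fr z) j := rfl

theorem apx_some (g : Gp) (z : Xs) (a i : ℕ) :
    apx g z (some a, i) = z (some a, (g.σ a).symm i) + g.h a (fr z) := rfl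

theorem fr_apx (g : Gp) (z : Xs) : fr (apx g z) = g.γ (fr z) := rfl

theorem continuous_apx (g : Gp) : Continuous (apx g) := by
  refine continuous_pi fun e => ?_
  obtain ⟨b, i⟩ := e
  cases b with
  | none => exact (continuous_apply i).comp (g.γ.continuous.comp continuous_fr)
  | some a => exact (continuous_apply _).add ((g.hc a).comp continuous_fr)

theorem apx_mul (g g' : Gp) (z : Xs) : apx (g * g') z = apx g (apx g' z) := by
  funext e
  obtain ⟨b, i⟩ := e
  cases b with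
  | none => rfl
  | some a =>
    rw [apx_some, apx_some, apx_some, mul_h, fr_apx, ← add_assoc]
    rfl

theorem apx_one (z : Xs) : apx 1 z = z := by
  funext e
  obtain ⟨b, i⟩ := e
  cases b with
  | none => rfl
  | some a =>
    rw [apx_some, one_h, add_zero]
    rfl

theorem apx_inv_apx (g : Gp) (z : Xs) : apx g⁻¹ (apx g z) = z := by
  rw [← apx_mul, inv_mul_cancel, apx_one]

theorem apx_apx_inv (g : Gp) (z : Xs) : apx g (apx g⁻¹ z) = z := by
  rw [← apx_mul, mul_inv_cancel, apx_one]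

/-- The action on the space. -/
def toH : Gp →* (Xs ≃ₜ Xs) where
  toFun g :=
    { toFun := apx g
      invFun := apx g⁻¹
      left_inv := apx_inv_apx g
      right_inv := apx_apx_inv g
      continuous_toFun := continuous_apx g
      continuous_invFun := continuous_apx g⁻¹ }
  map_one' := by
    ext z : 1
    exact apx_one z
  map_mul' g g' := by
    ext z : 1
    exact apx_mul g g' z

theorem toH_apply (g : Gp) (z : Xs) : toH g z = apx g z := rfl

end Gp

open Gp

/-! ### The subgroups -/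

/-- The subgroup of the level `n`. -/
def Hl (n : ℕ) : Subgroup Gp where
  carrier := {g | (∀ u, Agr n (g.γ u) u) ∧ (∀ a < n, ∀ u, g.h a u = 0) ∧
    ∀ a < n, ∀ i < n, g.σ a i = i}
  mul_mem' := by
    rintro g g' ⟨h1, h2, h3⟩ ⟨h1', h2', h3'⟩
    refine ⟨fun u j hj => ?_, fun a ha u => ?_, fun a ha i hi => ?_⟩
    · change g.γ (g'.γ u) j = u j
      rw [h1 _ j hj, h1' _ j hj]
    · rw [mul_h, h2 a ha, h2' a ha, add_zero]
    · rw [mul_σ, Equiv.Perm.mul_apply, h3' a ha i hi, h3 a ha i hi]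
  one_mem' := ⟨fun _ _ _ => rfl, fun _ _ _ => rfl, fun _ _ _ _ => rfl⟩
  inv_mem' := by
    rintro g ⟨h1, h2, h3⟩
    refine ⟨fun u j hj => ?_, fun a ha u => ?_, fun a ha i hi => ?_⟩
    · have h4 := h1 (g.γ⁻¹ u) j hj
      rw [γ_γ_inv] at h4
      exact h4.symm
    · rw [inv_h, h2 a ha, neg_zero]
    · rw [inv_σ, Equiv.Perm.inv_eq_iff_eq, h3 a ha i hi]

theorem mem_Hl {n : ℕ} {g : Gp} : g ∈ Hl n ↔ (∀ u, Agr n (g.γ u) u) ∧
    (∀ a < n, ∀ u, g.h a u = 0) ∧ ∀ a < n, ∀ i < n, g.σ a i = i := Iff.rfl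

theorem Hl_mono {n m : ℕ} (h : n ≤ m) : Hl m ≤ Hl n := by
  rintro g ⟨h1, h2, h3⟩
  exact ⟨fun u => (h1 u).mono h, fun a ha => h2 a (ha.trans_le h),
    fun a ha i hi => h3 a (ha.trans_le h) i (hi.trans_le h)⟩

theorem σ_symm_of_mem {n : ℕ} {g : Gp} (hg : g ∈ Hl n) {a i : ℕ} (ha : a < n) (hi : i < n) :
    (g.σ a).symm i = i := by
  rw [Equiv.symm_apply_eq]
  exact (hg.2.2 a ha i hi).symm

/-- Elements that agree on the level `n`. -/
theorem mul_inv_mem_Hl {n : ℕ} {g g' : Gp} (h1 : ∀ u, Agr n (g.γ u) (g'.γ u))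
    (h2 : ∀ a < n, ∀ u, g.h a u = g'.h a u)
    (h3 : ∀ a < n, ∀ i < n, (g.σ a).symm i = (g'.σ a).symm i) : g * g'⁻¹ ∈ Hl n := by
  refine ⟨fun u j hj => ?_, fun a ha u => ?_, fun a ha i hi => ?_⟩
  · change g.γ (g'.γ⁻¹ u) j = u j
    rw [h1 _ j hj, γ_γ_inv]
  · rw [mul_h, inv_h, inv_γ, h2 a ha, neg_add_cancel]
  · rw [mul_σ, Equiv.Perm.mul_apply, inv_σ]
    change g.σ a ((g'.σ a).symm i) = i
    rw [← h3 a ha i hi, Equiv.apply_symm_apply]

/-- The conjugates. -/
theorem exists_conj (n : ℕ) (g : Gp) : ∃ m, ∀ k ∈ Hl m, g⁻¹ * k * g ∈ Hl n := by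
  obtain ⟨N, hN⟩ := g.γf
  choose F hF using g.hf
  let m := max (max n N) (max ((Finset.range n).sup F)
    ((Finset.range n).sup fun a => (Finset.range n).sup fun i => g.σ a i + 1))
  have hn : n ≤ m := (le_max_left _ _).trans (le_max_left _ _)
  have hNm : N ≤ m := (le_max_right _ _).trans (le_max_left _ _)
  have hFm : ∀ a < n, F a ≤ m := fun a ha =>
    ((Finset.le_sup (Finset.mem_range.2 ha)).trans (le_max_left _ _)).trans (le_max_right _ _)
  have hσm : ∀ a < n, ∀ i < n, g.σ a i < m := fun a ha i hi => by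
    have h1 : g.σ a i + 1 ≤ (Finset.range n).sup fun i => g.σ a i + 1 :=
      Finset.le_sup (f := fun i => g.σ a i + 1) (Finset.mem_range.2 hi)
    have h2 : ((Finset.range n).sup fun i => g.σ a i + 1) ≤
        (Finset.range n).sup fun a => (Finset.range n).sup fun i => g.σ a i + 1 :=
      Finset.le_sup (f := fun a => (Finset.range n).sup fun i => g.σ a i + 1)
        (Finset.mem_range.2 ha)
    exact Nat.lt_of_succ_le ((h1.trans h2).trans ((le_max_right _ _).trans (le_max_right _ _)))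
  refine ⟨m, ?_⟩
  rintro k ⟨k1, k2, k3⟩
  have key : ∀ u, Agr m (g.γ⁻¹ (k.γ (g.γ u))) u := by
    intro u
    have h1 := ((hN.mono hNm).inv.2 (k.γ (g.γ u)) (g.γ u)).2 (k1 _)
    rwa [γ_inv_γ] at h1
  refine ⟨fun u => (key u).mono hn, fun a ha u => ?_, fun a ha i hi => ?_⟩
  · rw [mul_h, mul_h, inv_h, k2 a (ha.trans_le hn), zero_add,
      hF a _ u ((key u).mono (hFm a ha)), add_neg_cancel]
  · rw [mul_σ, mul_σ, Equiv.Perm.mul_apply, Equiv.Perm.mul_apply,
      k3 a (ha.trans_le hn) _ (hσm a ha i hi), inv_σ]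
    exact (g.σ a).symm_apply_apply i

/-! ### Points with dense coordinates -/

/-- In each block, the coordinates are dense. -/
def Rich (z : Xs) : Prop := ∀ (b : Option ℕ) (t : Kc) (ε : ℝ), 0 < ε → ∀ N : ℕ,
  ∃ i, N ≤ i ∧ ‖z (b, i) - t‖ < ε

theorem Rich.apx {z : Xs} (hz : Rich z) (g : Gp) : Rich (apx g z) := by
  intro b t ε hε N
  cases b with
  | none =>
    obtain ⟨M, hM⟩ := g.γf
    obtain ⟨i, hi, h1⟩ := hz none t ε hε (max N M)
    refine ⟨i, (le_max_left _ _).trans hi, ?_⟩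
    rw [apx_none, hM.1 _ i ((le_max_right _ _).trans hi)]
    exact h1
  | some a =>
    obtain ⟨M, hM⟩ := g.σf a
    obtain ⟨i, hi, h1⟩ := hz (some a) (t - g.h a (fr z)) ε hε (max N M)
    refine ⟨i, (le_max_left _ _).trans hi, ?_⟩
    have h2 : (g.σ a).symm i = i := by
      rw [Equiv.symm_apply_eq]
      exact (hM i ((le_max_right _ _).trans hi)).symm
    rw [apx_some, h2]
    convert h1 using 2
    abel

/-- Choice of fresh coordinates. -/
theorem Rich.choose {z : Xs} (hz : Rich z) (b : Option ℕ) (t : ℕ → Kc) {ε : ℝ} (hε : 0 < ε)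
    (N : ℕ) : ∃ I : ℕ → ℕ, StrictMono I ∧ (∀ j, N ≤ I j) ∧ ∀ j, ‖z (b, I j) - t j‖ < ε := by
  obtain ⟨I, h1, h2⟩ := Filter.extraction_forall_of_frequently
    (P := fun j i => N ≤ i ∧ ‖z (b, i) - t j‖ < ε) (fun j => by
      rw [Filter.frequently_atTop]
      intro a
      obtain ⟨i, hi, h3⟩ := hz b (t j) ε hε (max a N)
      exact ⟨i, (le_max_left _ _).trans hi, (le_max_right _ _).trans hi, h3⟩)
  exact ⟨I, h1, fun j => (h2 j).1, fun j => (h2 j).2⟩

/-- The indices of the level `M`. -/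
def Lf (M : ℕ) : Finset Ix :=
  (insert none ((Finset.range M).image some)) ×ˢ Finset.range M

theorem mem_Lf {M : ℕ} {b : Option ℕ} {i : ℕ} :
    (b, i) ∈ Lf M ↔ (∀ a, b = some a → a < M) ∧ i < M := by
  rw [Lf, Finset.mem_product, Finset.mem_insert, Finset.mem_image, Finset.mem_range]
  refine and_congr_left fun _ => ?_
  constructor
  · rintro (h | ⟨a, ha, h⟩) a' h'
    · have h0 : b = none := h
      rw [h0] at h'
      exact absurd h' (by simp)
    · have h1 : some a = some a' := h.trans h'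
      rw [← Option.some.inj h1]
      exact Finset.mem_range.1 ha
  · intro h
    cases b with
    | none => exact Or.inl rfl
    | some a => exact Or.inr ⟨a, Finset.mem_range.2 (h a rfl), rfl⟩

theorem none_mem_Lf {M i : ℕ} : (none, i) ∈ Lf M ↔ i < M := by
  rw [mem_Lf]
  exact ⟨fun h => h.2, fun h => ⟨fun a ha => absurd ha (by simp), h⟩⟩

theorem some_mem_Lf {M a i : ℕ} : (some a, i) ∈ Lf M ↔ a < M ∧ i < M := by
  rw [mem_Lf]
  exact ⟨fun h => ⟨h.1 a rfl, h.2⟩, fun h => ⟨fun a' ha => by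
    rw [← Option.some.inj ha]
    exact h.1, h.2⟩⟩

theorem Lf_mono {M N : ℕ} (h : M ≤ N) : Lf M ⊆ Lf N := by
  rintro ⟨b, i⟩ hb
  rw [mem_Lf] at hb ⊢
  exact ⟨fun a ha => (hb.1 a ha).trans_le h, hb.2.trans_le h⟩

theorem exists_Lf (e : Ix) : ∃ M, e ∈ Lf M := by
  obtain ⟨b, i⟩ := e
  cases b with
  | none => exact ⟨i + 1, none_mem_Lf.2 (Nat.lt_succ_self i)⟩
  | some a => exact ⟨max a i + 1, some_mem_Lf.2 ⟨by omega, by omega⟩⟩

theorem exists_Lf_finset (I : Finset Ix) : ∃ M, I ⊆ Lf M := by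
  choose M hM using exists_Lf
  refine ⟨I.sup M, fun e he => Lf_mono (Finset.le_sup he) (hM e)⟩

/-- The basic neighbourhoods. -/
def Nb (z0 : Xs) (M : ℕ) (ε : ℝ) : Set Xs := {z | ∀ e ∈ Lf M, ‖z e - z0 e‖ < ε}

theorem isOpen_Nb (z0 : Xs) (M : ℕ) (ε : ℝ) : IsOpen (Nb z0 M ε) := by
  have h : Nb z0 M ε = ⋂ e ∈ Lf M, {z : Xs | ‖z e - z0 e‖ < ε} := by
    ext z
    simp [Nb]
  rw [h]
  refine isOpen_biInter_finset fun e _ => ?_
  exact isOpen_lt (((continuous_apply e).sub continuous_const).norm) continuous_const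

theorem self_mem_Nb (z0 : Xs) (M : ℕ) {ε : ℝ} (hε : 0 < ε) : z0 ∈ Nb z0 M ε := by
  intro e _
  rw [sub_self, norm_zero]
  exact hε

theorem exists_Nb {U : Set Xs} (hU : IsOpen U) {z0 : Xs} (hz : z0 ∈ U) (N : ℕ) :
    ∃ M, N ≤ M ∧ ∃ ε > 0, Nb z0 M ε ⊆ U := by
  obtain ⟨I, u, h1, h2⟩ := isOpen_pi_iff.1 hU z0 hz
  obtain ⟨M, hM⟩ := exists_Lf_finset I
  have h3 : ∀ᶠ ε in nhdsWithin (0 : ℝ) (Set.Ioi 0), ∀ e ∈ I, Metric.ball (z0 e) ε ⊆ u e := by
    rw [Filter.eventually_all_finset]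
    intro e he
    obtain ⟨δ, hδ, h4⟩ := Metric.isOpen_iff.1 (h1 e he).1 (z0 e) (h1 e he).2
    filter_upwards [Ioo_mem_nhdsGT hδ] with ε hε
    exact (Metric.ball_subset_ball hε.2.le).trans h4
  obtain ⟨ε, h4, h5⟩ := (h3.and self_mem_nhdsWithin).exists
  refine ⟨max M N, le_max_right _ _, ε, h5, fun z hz => h2 fun e he => h4 e he ?_⟩
  rw [Metric.mem_ball, dist_eq_norm]
  exact hz e (Lf_mono (le_max_left _ _) (hM he))

theorem exists_rich {U : Set Xs} (hU : IsOpen U) (hne : U.Nonempty) : ∃ z ∈ U, Rich z := by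
  classical
  obtain ⟨z0, hz0⟩ := hne
  obtain ⟨M, -, ε, hε, h1⟩ := exists_Nb hU hz0 0
  refine ⟨fun e => if e ∈ Lf M then z0 e else TopologicalSpace.denseSeq Kc e.2.unpair.1,
    h1 fun e he => ?_, fun b t δ hδ N => ?_⟩
  · simp only [if_pos he, sub_self, norm_zero]
    exact hε
  · obtain ⟨k, hk⟩ := (TopologicalSpace.denseRange_denseSeq Kc).exists_dist_lt t hδ
    refine ⟨Nat.pair k (max N M), (le_max_left _ _).trans (Nat.right_le_pair _ _), ?_⟩
    have h2 : (b, Nat.pair k (max N M)) ∉ Lf M := by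
      rw [mem_Lf]
      rintro ⟨-, h3⟩
      have h4 := Nat.right_le_pair k (max N M)
      have h5 := le_max_right N M
      omega
    simp only [if_neg h2, Nat.unpair_pair]
    rw [← dist_eq_norm, dist_comm]
    exact hk

end Pool.Agent.D0H63.Cu
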