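import Pool.Agent.D0H63.Cu.Core
import Pool.Agent.R598.CI.Sym

/-!
# The symmetric system and the main lemma
-/

set_option autoImplicit false
set_option linter.unusedSectionVars false

namespace Pool.Agent.D0H63.Cu

open Pool.Agent.W868 Pool.Agent.W868.PName Pool.Agent.R598.SY
open Pool.Agent.R598.CI (Kc)
open Gp

/-- The conditions: the nonempty open sets. -/
def Po : Type := {U : Set Xs // IsOpen U ∧ U.Nonempty}

instance : Preorder Po where
  le p q := p.1 ⊆ q.1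
  le_refl _ := subset_rfl
  le_trans _ _ _ h h' := h.trans h'

instance : OrderTop Po where
  top := ⟨Set.univ, isOpen_univ, ⟨fun _ => 0, trivial⟩⟩
  le_top _ := Set.subset_univ _

theorem le_def {p q : Po} : p ≤ q ↔ p.1 ⊆ q.1 := Iff.rfl

theorem mem_top' (z : Xs) : z ∈ (⊤ : Po).1 := trivial

/-- The homeomorphisms act on the conditions. -/
def imO : (Xs ≃ₜ Xs) →* (Po ≃o Po) where
  toFun e :=
    { toFun := fun U => ⟨e '' U.1, e.isOpenMap _ U.2.1, U.2.2.image _⟩
      invFun := fun U => ⟨e.symm '' U.1, e.symm.isOpenMap _ U.2.1, U.2.2.image _⟩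
      left_inv := by
        intro U
        refine Subtype.ext ?_
        change e.symm '' (e '' U.1) = U.1
        rw [← Set.image_comp]
        simp
      right_inv := by
        intro U
        refine Subtype.ext ?_
        change e '' (e.symm '' U.1) = U.1
        rw [← Set.image_comp]
        simp
      map_rel_iff' := by
        intro U V
        exact Set.image_subset_image_iff e.injective }
  map_one' := by
    refine RelIso.ext fun U => Subtype.ext ?_
    exact Set.image_id U.1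
  map_mul' e f := by
    refine RelIso.ext fun U => Subtype.ext ?_
    exact Set.image_comp e f U.1

/-- The action on the conditions. -/
def ac : Gp →* (Po ≃o Po) := imO.comp toH

theorem ac_val (g : Gp) (p : Po) : (ac g p).1 = apx g '' p.1 := rfl

theorem mem_ac {g : Gp} {p : Po} {x : Xs} : x ∈ (ac g p).1 ↔ apx g⁻¹ x ∈ p.1 := by
  rw [ac_val]
  constructor
  · rintro ⟨z, hz, rfl⟩
    rwa [apx_inv_apx]
  · intro h
    exact ⟨_, h, apx_apx_inv g x⟩

theorem apx_mem_ac {g : Gp} {p : Po} {z : Xs} (h : z ∈ p.1) : apx g z ∈ (ac g p).1 := ⟨z, h, rfl⟩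

/-- The symmetric system. -/
def S : Sys Po where
  G := Gp
  grp := inferInstance
  ac := ac
  top := by
    intro g
    refine Subtype.ext ?_
    change apx g '' Set.univ = Set.univ
    rw [Set.image_univ, Set.eq_univ_iff_forall]
    exact fun x => ⟨apx g⁻¹ x, apx_apx_inv g x⟩
  F := {H | ∃ n, H = Hl n}
  ne := ⟨_, 0, rfl⟩
  conj := by
    rintro _ ⟨n, rfl⟩ g
    obtain ⟨m, hm⟩ := exists_conj n g
    exact ⟨_, ⟨m, rfl⟩, hm⟩
  dir := by
    rintro _ ⟨n, rfl⟩ _ ⟨m, rfl⟩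
    exact ⟨_, ⟨max n m, rfl⟩, Hl_mono (le_max_left _ _), Hl_mono (le_max_right _ _)⟩

theorem Hl_mem_F (n : ℕ) : Hl n ∈ S.F := ⟨n, rfl⟩

theorem S_ac (g : Gp) (p : Po) : S.ac g p = ac g p := rfl

/-- The intersection of two conditions with a common point. -/
def inter (p q : Po) (x : Xs) (hp : x ∈ p.1) (hq : x ∈ q.1) : Po :=
  ⟨p.1 ∩ q.1, p.2.1.inter q.2.1, ⟨x, hp, hq⟩⟩

theorem inter_le_left {p q : Po} {x : Xs} {hp : x ∈ p.1} {hq : x ∈ q.1} :
    inter p q x hp hq ≤ p := Set.inter_subset_left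

theorem inter_le_right {p q : Po} {x : Xs} {hp : x ∈ p.1} {hq : x ∈ q.1} :
    inter p q x hp hq ≤ q := Set.inter_subset_right

theorem mem_inter {p q : Po} {x : Xs} {hp : x ∈ p.1} {hq : x ∈ q.1} :
    x ∈ (inter p q x hp hq).1 := ⟨hp, hq⟩

theorem act_mul' (g g' : Gp) (x : PName Po) :
    act (ac (g * g')) x = act (ac g) (act (ac g') x) := by
  rw [ac.map_mul, act_mul]

theorem act_one' (x : PName Po) : act (ac 1) x = x := by
  rw [ac.map_one, act_one]

theorem le_ac_iff {g : Gp} {p q : Po} : ac g p ≤ q ↔ p ≤ ac g⁻¹ q := by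
  constructor
  · intro h x hx
    rw [mem_ac, inv_inv]
    exact h (apx_mem_ac hx)
  · intro h x hx
    have h1 := h (mem_ac.1 hx)
    rw [mem_ac, inv_inv, apx_apx_inv] at h1
    exact h1

theorem feq_act_of {g : Gp} {x y : PName Po} {p q : Po} (h : Feq x y p) (hq : ac g⁻¹ q ≤ p) :
    Feq (act (ac g) x) (act (ac g) y) q := by
  have h1 := feq_act' (e := ac g) h
  refine h1.mono ?_
  rw [le_ac_iff, inv_inv] at hq
  exact hq

theorem fix_feq {H : Subgroup Gp} {x : PName Po} (h : S.Fix H x) {g : Gp} (hg : g ∈ H) (p : Po) :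
    Feq (act (ac g) x) x p := h g hg p

/-- The main lemma. -/
theorem key {n m : ℕ} (hnm : n ≤ m) {y : PName Po} (hy : S.Fix (Hl m) y) {p : Po}
    (H : ∀ g₁ ∈ Hl n, ∀ r ≤ p, r ≤ ac g₁ p → ∃ U ≤ r, ∀ k ∈ Hl m, ∀ s ≤ U, s ≤ ac k U →
      Feq (act (ac k) (act (ac g₁) y)) (act (ac g₁) y) s) :
    ∃ q ≤ p, ∀ g ∈ Hl n, ∀ s ≤ q, s ≤ ac g q → Feq (act (ac g) y) y s := by
  obtain ⟨g₁, hg₁, ⟨z, hz, hz'⟩, h1⟩ := core hnm p.2.1 p.2.2
  obtain ⟨U, hU, hU'⟩ := H g₁ hg₁ (inter p (ac g₁ p) (apx g₁ z) hz' (apx_mem_ac hz))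
    inter_le_left inter_le_right
  obtain ⟨q, hq1, hq2, hq3, hq4⟩ := h1 U.1 U.2.1 U.2.2
  have hqp : q ⊆ p.1 := by
    intro x hx
    have h2 := inter_le_right (hU (hq3 x hx))
    rw [mem_ac, apx_inv_apx] at h2
    exact h2
  refine ⟨⟨q, hq1, hq2⟩, hqp, ?_⟩
  let Pr : Gp → Xs → Prop := fun g x => ∃ W : Po, x ∈ W.1 ∧ Feq (act (ac g) y) y W
  have hPm : ∀ g s z, Pr s (apx s z) → Pr g (apx g (apx s z)) → Pr (g * s) (apx (g * s) z) := by
    rintro g s z ⟨W1, hW1, h2⟩ ⟨W2, hW2, h3⟩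
    rw [apx_mul]
    refine ⟨inter W2 (ac g W1) _ hW2 (apx_mem_ac hW1), mem_inter, ?_⟩
    rw [act_mul']
    exact feq_trans ((feq_act' (e := ac g) h2).mono inter_le_right) (h3.mono inter_le_left)
  have hPb : ∀ g ∈ Hl n, ∀ z, ∀ κ ∈ Hl m, ∀ c ∈ Hl m, (g₁ * κ) * g * c⁻¹ * (g₁ * κ)⁻¹ ∈ Hl m →
      apx (g₁ * κ) (apx g z) ∈ U.1 → apx (g₁ * κ) (apx c z) ∈ U.1 → Pr g (apx g z) := by
    intro g _ z κ hκ c hc hk h2 h3
    set G := g₁ * κ with hG
    set k := G * g * c⁻¹ * G⁻¹ with hkdef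
    have h4 : apx k⁻¹ (apx G (apx g z)) = apx G (apx c z) := by
      rw [← apx_mul, ← apx_mul, ← apx_mul, hkdef]
      congr 1
      group
    have h5 : apx G (apx g z) ∈ (ac k U).1 := by
      rw [mem_ac, h4]
      exact h3
    refine ⟨ac G⁻¹ (inter U (ac k U) _ h2 h5), ?_, ?_⟩
    · rw [mem_ac, inv_inv]
      exact mem_inter
    · have h6 := hU' k hk _ (inter_le_left (p := U) (q := ac k U) (x := apx G (apx g z))
        (hp := h2) (hq := h5)) inter_le_right
      have h7 := feq_act' (e := ac G⁻¹) h6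
      have hyκ : ∀ p, Feq (act (ac κ) y) y p := fun p => fix_feq hy hκ p
      have hyc : ∀ p, Feq (act (ac c⁻¹) y) y p := fun p => fix_feq hy ((Hl m).inv_mem hc) p
      have e1 : ∀ p, Feq (act (ac G⁻¹) (act (ac g₁) y)) y p := by
        intro p
        have h8 : Feq (act (ac (G⁻¹ * g₁)) (act (ac κ) y)) (act (ac (G⁻¹ * g₁)) y) p :=
          feq_act_of (hyκ (ac (G⁻¹ * g₁)⁻¹ p)) le_rfl
        rw [← act_mul', hG] at h8
        have h9 : (g₁ * κ)⁻¹ * g₁ * κ = 1 := by group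
        rw [h9, act_one'] at h8
        rw [← act_mul', hG]
        exact h8.symm
      have e2 : ∀ p, Feq (act (ac G⁻¹) (act (ac k) (act (ac g₁) y))) (act (ac g) y) p := by
        intro p
        have h8 : Feq (act (ac (G⁻¹ * k * G)) (act (ac G⁻¹) (act (ac g₁) y)))
            (act (ac (G⁻¹ * k * G)) y) p :=
          feq_act_of (e1 (ac (G⁻¹ * k * G)⁻¹ p)) le_rfl
        have h9 : G⁻¹ * k * G = g * c⁻¹ := by
          rw [hkdef]
          group
        have h10 : Feq (act (ac g) (act (ac c⁻¹) y)) (act (ac g) y) p :=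
          feq_act_of (hyc (ac g⁻¹ p)) le_rfl
        rw [← act_mul', ← act_mul'] at h8 ⊢
        rw [← act_mul'] at h10
        have h11 : G⁻¹ * k * G * G⁻¹ * g₁ = G⁻¹ * k * g₁ := by group
        rw [h11, h9] at h8
        exact feq_trans h8 h10
      exact feq_trans (feq_trans (e2 _).symm h7) (e1 _)
  intro g hg s hs hsg
  refine feq_dense fun r hr => ?_
  obtain ⟨x, hx, hxR⟩ := exists_rich r.2.1 r.2.2
  have hxq : x ∈ q := hs (hr hx)
  have hzq : apx g⁻¹ x ∈ q := mem_ac.1 (hsg (hr hx))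
  have h2 := hq4 Pr hPm hPb g hg (apx g⁻¹ x) (hxR.apx _) hzq (by
    rw [apx_apx_inv]
    exact hxq)
  rw [apx_apx_inv] at h2
  obtain ⟨W, hW, h3⟩ := h2
  exact ⟨inter r W x hx hW, inter_le_left, h3.mono inter_le_right⟩

end Pool.Agent.D0H63.Cu
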