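import Pool.Agent.D0H63.Cu.Sp3
import Pool.Agent.D0H63.Cu.Cuc

/-!
# The model
-/

set_option autoImplicit false

namespace Pool.Agent.D0H63.Cu

open Pool.Agent.W868 Pool.Agent.R596Fc

theorem main : ∃ M : Set ZFSet.{0}, M.Countable ∧ IsZF M ∧ CUC M ∧ ¬ MCS M := by
  obtain ⟨π, hπ⟩ := exists_gpk
  exact ⟨S.Ms π, (π.cnt.mono fun x hx => hx.1).image _, R598.CI.isZF_Ms hπ.cld, cuc hπ.cld,
    (sit hπ).not_mcs⟩

end Pool.Agent.D0H63.Cu
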