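import Pool.Agent.D0H63.Cu.Cuc
import Pool.Agent.D0H63.Cu.Code

/-!
# The generic point and the names
-/

set_option autoImplicit false
set_option linter.unusedSectionVars false

namespace Pool.Agent.D0H63.Cu

open Pool.Agent.W868 Pool.Agent.W868.PName Pool.Agent.R598.SY
open Pool.Agent.R598.CI (Kc UDf SF udp udm ude isZF_Ms exists_cld famN el_famN fix_famN hs_famN
  val_famN val_eq_of_feq val_mem_of_fmem arc isOpen_arc)
open Gp
open ZFSet (pair)

/-- The condition given by a nonempty open set. -/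
def mkP (U : Set Xs) (h1 : IsOpen U) (h2 : U.Nonempty) : Po := ⟨U, h1, h2⟩

theorem mkP_val (U : Set Xs) (h1 : IsOpen U) (h2 : U.Nonempty) : (mkP U h1 h2).1 = U := rfl

theorem Po.ext' {p q : Po} (h : p.1 = q.1) : p = q := Subtype.ext h

/-! ### The generic point -/

theorem exists_gp (π : Pkg Po) : ∃ x : Xs, ∀ k, x ∈ closure (π.g k).1 := by
  obtain ⟨x, hx⟩ := IsCompact.nonempty_iInter_of_sequence_nonempty_isCompact_isClosed
    (fun k => closure (π.g k).1) (fun k => closure_mono (π.anti k))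
    (fun k => (π.g k).2.2.closure) isClosed_closure.isCompact (fun k => isClosed_closure)
  exact ⟨x, fun k => Set.mem_iInter.1 hx k⟩

/-- The generic point. -/
noncomputable def gp (π : Pkg Po) : Xs := (exists_gp π).choose

theorem gp_mem (π : Pkg Po) (k : ℕ) : gp π ∈ closure (π.g k).1 := (exists_gp π).choose_spec k

/-- The generic sequence decides the open set. -/
def Rg (π : Pkg Po) (O : Set Xs) : Prop := ∃ k, closure (π.g k).1 ⊆ O ∨ (π.g k).1 ∩ O = ∅

/-- The name for the decision about the open set. -/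
def rgN (O : Set Xs) : PName Po := Sys.nm Po {r | closure r.1 ⊆ O ∨ r.1 ∩ O = ∅}

theorem rg_of_mem {π : Pkg Po} {O : Set Xs} (hO : IsOpen O) (h : rgN O ∈ π.N) : Rg π O := by
  obtain ⟨k, h1 | h1⟩ := T_TRU.gen_nm π h (by
    rintro r (hr | hr) s hs
    · exact Or.inl ((closure_mono hs).trans hr)
    · refine Or.inr (Set.subset_eq_empty ?_ hr)
      exact Set.inter_subset_inter_left _ hs)
  · exact ⟨k, h1⟩
  · exfalso
    by_cases h2 : (π.g k).1 ∩ O = ∅
    · exact h1 _ le_rfl (Or.inr h2)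
    · obtain ⟨x, hx⟩ := Set.nonempty_iff_ne_empty.2 h2
      obtain ⟨t, ht1, ht2, ht3⟩ := exists_mem_nhds_isClosed_subset
        (((π.g k).2.1.inter hO).mem_nhds hx)
      refine h1 (mkP (interior t) isOpen_interior ⟨x, mem_interior_iff_mem_nhds.2 ht1⟩) ?_
        (Or.inl ?_)
      · exact interior_subset.trans (ht3.trans Set.inter_subset_left)
      · exact (closure_minimal interior_subset ht2).trans (ht3.trans Set.inter_subset_right)

theorem rg_iff {π : Pkg Po} {O : Set Xs} (hO : IsOpen O) (h : Rg π O) :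
    gp π ∈ O ↔ ∃ k, (π.g k).1 ⊆ O := by
  obtain ⟨k, h1 | h1⟩ := h
  · exact ⟨fun _ => ⟨k, subset_closure.trans h1⟩, fun _ => h1 (gp_mem π k)⟩
  · constructor
    · intro h2
      obtain ⟨y, hy⟩ := mem_closure_iff.1 (gp_mem π k) O hO h2
      have h3 : y ∈ (π.g k).1 ∩ O := ⟨hy.2, hy.1⟩
      rw [h1] at h3
      exact absurd h3 (Set.notMem_empty y)
    · rintro ⟨m, hm⟩
      obtain ⟨y, hy⟩ := (π.g (max k m)).2.2
      have h3 : y ∈ (π.g k).1 ∩ O := ⟨π.g_le_left k m hy, hm (π.g_le_right k m hy)⟩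
      rw [h1] at h3
      exact absurd h3 (Set.notMem_empty y)

/-! ### Names of codes -/

/-- The name for the code of the value of a continuous function. -/
noncomputable def cdN (φ : C(Xs, Kc)) : PName Po :=
  PName.mk {c : ℕ // (φ ⁻¹' arc c).Nonempty} (fun c => check (nat c.1))
    (fun c => mkP (φ ⁻¹' arc c.1) ((isOpen_arc _).preimage φ.continuous) c.2)

theorem el_cdN {φ : C(Xs, Kc)} {z : PName Po} {p : Po} :
    El (cdN φ) z p ↔ ∃ c, z = check (nat c) ∧ p.1 = φ ⁻¹' arc c := by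
  rw [cdN, el_mk]
  constructor
  · rintro ⟨c, rfl, rfl⟩
    exact ⟨c.1, rfl, rfl⟩
  · rintro ⟨c, rfl, h⟩
    have h1 : (φ ⁻¹' arc c).Nonempty := h ▸ p.2.2
    exact ⟨⟨c, h1⟩, rfl, Po.ext' h.symm⟩

theorem val_cdN {π : Pkg Po} {φ : C(Xs, Kc)} (h : ∀ c, Rg π (φ ⁻¹' arc c)) :
    π.val (cdN φ) = code (φ (gp π)) := by
  ext z
  rw [π.mem_val, mem_code]
  constructor
  · rintro ⟨y, -, p, hp, ⟨k, hk⟩, rfl⟩
    obtain ⟨c, rfl, hc⟩ := el_cdN.1 hp
    refine ⟨c, ?_, π.hat_nat c⟩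
    refine (rg_iff ((isOpen_arc _).preimage φ.continuous) (h c)).2 ⟨k, ?_⟩
    rw [← hc]
    exact hk
  · rintro ⟨c, hc, rfl⟩
    obtain ⟨k, hk⟩ := (rg_iff ((isOpen_arc _).preimage φ.continuous) (h c)).1 hc
    have h1 : (φ ⁻¹' arc c).Nonempty := (π.g k).2.2.mono hk
    exact ⟨check (nat c), π.nat_Z c, mkP (φ ⁻¹' arc c) ((isOpen_arc _).preimage φ.continuous) h1,
      el_cdN.2 ⟨c, rfl, rfl⟩, ⟨k, hk⟩, π.hat_nat c⟩

/-- The homeomorphisms as continuous functions. -/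
def hom (g : Gp) : C(Xs, Xs) := ⟨apx g, continuous_apx g⟩

theorem hom_apply (g : Gp) (z : Xs) : hom g z = apx g z := rfl

theorem act_cdN (g : Gp) (φ : C(Xs, Kc)) (p : Po) :
    Feq (act (ac g) (cdN φ)) (cdN (φ.comp (hom g⁻¹))) p := by
  refine feq_of_el fun z q => ?_
  rw [el_act, el_cdN]
  have key : ∀ c, apx g '' (φ ⁻¹' arc c) = (φ.comp (hom g⁻¹)) ⁻¹' arc c := by
    intro c
    ext x
    constructor
    · rintro ⟨z, hz, rfl⟩
      change φ (apx g⁻¹ (apx g z)) ∈ arc c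
      rw [apx_inv_apx]
      exact hz
    · intro hx
      exact ⟨apx g⁻¹ x, hx, apx_apx_inv g x⟩
  constructor
  · rintro ⟨z', q', h1, rfl, rfl⟩
    obtain ⟨c, rfl, h2⟩ := el_cdN.1 h1
    refine ⟨c, act_check (S.top g) _, ?_⟩
    rw [ac_val, h2, key]
  · rintro ⟨c, rfl, h2⟩
    have h3 : (φ ⁻¹' arc c).Nonempty := by
      obtain ⟨x, hx⟩ := q.2.2
      rw [h2] at hx
      exact ⟨_, hx⟩
    refine ⟨check (nat c), mkP (φ ⁻¹' arc c) ((isOpen_arc _).preimage φ.continuous) h3,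
      el_cdN.2 ⟨c, rfl, rfl⟩, (act_check (S.top g) _).symm, Po.ext' ?_⟩
    rw [ac_val, mkP_val, h2, key]

theorem hs_cdN {φ : C(Xs, Kc)} {n : ℕ} (h : ∀ g ∈ Hl n, φ.comp (hom g⁻¹) = φ) :
    S.HS (cdN φ) := by
  refine S.hs_iff.2 ⟨⟨_, Hl_mem_F n, fun g hg p => ?_⟩, fun z c hz => ?_⟩
  · have h1 := act_cdN g φ p
    rw [h g hg] at h1
    exact h1
  · obtain ⟨c, rfl, -⟩ := el_cdN.1 hz
    exact S.hs_check _

/-! ### Families -/

theorem act_famN {ι : Type} (f : ι → PName Po) (g : Gp) :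
    act (ac g) (famN ι f) = famN ι fun i => act (ac g) (f i) := by
  have h1 : (fun _ : ι => ac g (⊤ : Po)) = fun _ => ⊤ := funext fun _ => S.top g
  change PName.mk ι (fun i => act (ac g) (f i)) (fun _ => ac g ⊤) = _
  rw [h1]
  rfl

theorem feq_famN {ι : Type} {f f' : ι → PName Po} {p : Po} (h : ∀ i, ∀ q ≤ p, Feq (f i) (f' i) q) :
    Feq (famN ι f) (famN ι f') p := by
  rw [feq_iff']
  constructor
  · intro z c hz q hq _
    obtain ⟨i, rfl, rfl⟩ := el_famN.1 hz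
    exact ⟨q, le_rfl, _, ⊤, el_famN.2 ⟨i, rfl, rfl⟩, le_top, h i q hq⟩
  · intro z c hz q hq _
    obtain ⟨i, rfl, rfl⟩ := el_famN.1 hz
    exact ⟨q, le_rfl, _, ⊤, el_famN.2 ⟨i, rfl, rfl⟩, le_top, h i q hq⟩

/-- The name for the set of the codes of the values. -/
noncomputable def fN (φ : ℕ → C(Xs, Kc)) : PName Po := famN ℕ fun i => cdN (φ i)

theorem val_fN {π : Pkg Po} {φ : ℕ → C(Xs, Kc)} (h : ∀ i c, Rg π (φ i ⁻¹' arc c))
    (hN : ∀ i, cdN (φ i) ∈ π.N) : π.val (fN φ) = cs fun i => φ i (gp π) := by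
  ext z
  rw [fN, val_famN, mem_cs]
  constructor
  · rintro ⟨i, -, rfl⟩
    exact ⟨i, val_cdN (h i)⟩
  · rintro ⟨i, rfl⟩
    exact ⟨i, hN i, (val_cdN (h i)).symm⟩

theorem act_fN (g : Gp) (φ : ℕ → C(Xs, Kc)) (p : Po) :
    Feq (act (ac g) (fN φ)) (fN fun i => (φ i).comp (hom g⁻¹)) p := by
  rw [fN, act_famN]
  exact feq_famN fun i q _ => act_cdN g (φ i) q

/-- The coordinate. -/
def ev (e : Ix) : C(Xs, Kc) := ⟨fun z => z e, continuous_apply e⟩

theorem ev_apply (e : Ix) (z : Xs) : ev e z = z e := rfl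

/-- The name for the block `n`. -/
noncomputable def CN (n : ℕ) : PName Po := fN fun i => ev (some n, i)

theorem ev_comp {g : Gp} {n : ℕ} (hg : ∀ u, g.h n u = 0) (i : ℕ) :
    (ev (some n, i)).comp (hom g⁻¹) = ev (some n, g.σ n i) := by
  ext z : 1
  change apx g⁻¹ z (some n, i) = z (some n, g.σ n i)
  rw [apx_some, inv_h, hg, neg_zero, add_zero]
  rfl

theorem hs_ev (n i : ℕ) : S.HS (cdN (ev (some n, i))) := by
  refine hs_cdN (n := max n i + 1) fun g hg => ?_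
  rw [ev_comp (hg.2.1 n (by omega)), hg.2.2 n (by omega) i (by omega)]

theorem fix_CN (n : ℕ) : S.Fix (Hl (n + 1)) (CN n) := by
  refine fix_famN fun g hg => ⟨g.σ n, (g.σ n).surjective, fun i p => ?_⟩
  have h1 := act_cdN g (ev (some n, i)) p
  rw [ev_comp (g := g) ((mem_Hl.1 hg).2.1 n (Nat.lt_succ_self n))] at h1
  exact h1

theorem hs_CN (n : ℕ) : S.HS (CN n) := hs_famN (Hl_mem_F (n + 1)) (fix_CN n) (hs_ev n)

/-- The name for the orbits of the blocks. -/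
noncomputable def ON : PName Po := S.orb ℕ fun n => opN (check (nat n)) (CN n)

theorem hs_ON : S.HS ON := S.hs_orb fun n => S.hs_opN (S.hs_check _) (hs_CN n)

/-- The name for the translation. -/
def hφ (g : Gp) (n : ℕ) : C(Xs, Kc) := ⟨fun z => g.h n (fr z), (g.hc n).comp continuous_fr⟩

theorem hs_hφ (g : Gp) (n : ℕ) : S.HS (cdN (hφ g n)) := by
  obtain ⟨N, hN⟩ := g.hf n
  refine hs_cdN (n := N) fun k hk => ?_
  ext z : 1
  change g.h n (fr (apx k⁻¹ z)) = g.h n (fr z)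
  refine hN _ _ ?_
  rw [fr_apx]
  exact (mem_Hl.1 ((Hl N).inv_mem hk)).1 (fr z)

end Pool.Agent.D0H63.Cu
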