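import Pool.Agent.D0H63.Cu.Nm

/-!
# The package and the choice functions
-/

set_option autoImplicit false
set_option linter.unusedSectionVars false

namespace Pool.Agent.D0H63.Cu

open Pool.Agent.W868 Pool.Agent.W868.PName Pool.Agent.R598.SY
open Pool.Agent.R598.CI (Kc UDf SF udp udm ude udw isZF_Ms exists_cld famN el_famN fix_famN hs_famN
  val_famN val_eq_of_feq val_mem_of_fmem arc isOpen_arc exists_arc RC RCS mem_RCS)
open Gp
open ZFSet (pair)

/-! ### Parameters -/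

/-- The set is in each package and is not changed by the collapse. -/
def Hfx (z : ZFSet.{0}) : Prop := ∀ π : Pkg Po, z ∈ π.Z ∧ π.hat z = z

theorem hfx_nat (n : ℕ) : Hfx (nat n) := fun π => ⟨π.nat_Z n, π.hat_nat n⟩

theorem hfx_pair {x y : ZFSet.{0}} (hx : Hfx x) (hy : Hfx y) : Hfx (pair x y) := fun π => by
  obtain ⟨h1, h2⟩ := hx π
  obtain ⟨h3, h4⟩ := hy π
  refine ⟨π.pair_mem_Z h1 h3, ?_⟩
  rw [π.hat_pair h1 h3, h2, h4]

theorem hat_of_hfx {s : ZFSet.{0}} (hs : ∀ z ∈ s, Hfx z) (π : Pkg Po) : π.hat s = s := by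
  ext z
  rw [π.mem_hat]
  constructor
  · rintro ⟨y, hy, -, rfl⟩
    rw [(hs y hy π).2]
    exact hy
  · intro hz
    exact ⟨z, hz, (hs z hz π).1, (hs z hz π).2⟩

theorem hfx_omega {z : ZFSet.{0}} (h : z ∈ ZFSet.omega) : Hfx z := by
  obtain ⟨n, rfl⟩ := mem_omega_iff.1 h
  exact hfx_nat n

theorem hfx_prod {x y : ZFSet.{0}} (hx : ∀ z ∈ x, Hfx z) (hy : ∀ z ∈ y, Hfx z) :
    ∀ z ∈ ZFSet.prod x y, Hfx z := by
  intro z hz
  obtain ⟨a, ha, b, hb, rfl⟩ := ZFSet.mem_prod.1 hz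
  exact hfx_pair (hx a ha) (hy b hb)

theorem hfx_AS : ∀ z ∈ AS, Hfx z := fun z hz =>
  hfx_prod (fun _ => hfx_omega) (hfx_prod (fun _ => hfx_omega) fun _ => hfx_omega) z
    (ZFSet.mem_sep.1 hz).1

theorem hfx_QS : ∀ z ∈ QS, Hfx z := fun z hz =>
  hfx_prod (fun _ => hfx_omega) (hfx_prod (fun _ => hfx_omega)
    (hfx_prod (fun _ => hfx_omega) fun _ => hfx_omega)) z (ZFSet.mem_sep.1 hz).1

/-- The sizes. -/
noncomputable def FS : ZFSet.{0} :=
  ZFSet.sep (fun w => ∃ n a b : ℕ, (1 / 2 : ℝ) ^ n < (a : ℝ) / (b + 1) ∧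
    w = pair (nat n) (pair (nat a) (nat b)))
    (ZFSet.prod ZFSet.omega (ZFSet.prod ZFSet.omega ZFSet.omega))

theorem mem_FS {n a b : ℕ} : pair (nat n) (pair (nat a) (nat b)) ∈ FS ↔
    (1 / 2 : ℝ) ^ n < (a : ℝ) / (b + 1) := by
  rw [FS, ZFSet.mem_sep]
  constructor
  · rintro ⟨-, i', j', k', h, h1⟩
    obtain ⟨h2, h3⟩ := ZFSet.pair_inj.1 h1
    obtain ⟨h4, h5⟩ := ZFSet.pair_inj.1 h3
    rw [nat_injective h2, nat_injective h4, nat_injective h5]
    exact h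
  · exact fun h => ⟨ZFSet.pair_mem_prod.2 ⟨nat_om' _, ZFSet.pair_mem_prod.2 ⟨nat_om' _, nat_om' _⟩⟩,
      n, a, b, h, rfl⟩

theorem hfx_FS : ∀ z ∈ FS, Hfx z := fun z hz =>
  hfx_prod (fun _ => hfx_omega) (hfx_prod (fun _ => hfx_omega) fun _ => hfx_omega) z
    (ZFSet.mem_sep.1 hz).1

/-- The positive numbers. -/
noncomputable def GS : ZFSet.{0} :=
  ZFSet.sep (fun w => ∃ a b : ℕ, (0 : ℝ) < (a : ℝ) / (b + 1) ∧ w = pair (nat a) (nat b))
    (ZFSet.prod ZFSet.omega ZFSet.omega)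

theorem mem_GS {a b : ℕ} : pair (nat a) (nat b) ∈ GS ↔ (0 : ℝ) < (a : ℝ) / (b + 1) := by
  rw [GS, ZFSet.mem_sep]
  constructor
  · rintro ⟨-, i', j', h, h1⟩
    obtain ⟨h2, h3⟩ := ZFSet.pair_inj.1 h1
    rw [nat_injective h2, nat_injective h3]
    exact h
  · exact fun h => ⟨ZFSet.pair_mem_prod.2 ⟨nat_om' _, nat_om' _⟩, a, b, h, rfl⟩

theorem hfx_GS : ∀ z ∈ GS, Hfx z := fun z hz =>
  hfx_prod (fun _ => hfx_omega) (fun _ => hfx_omega) z (ZFSet.mem_sep.1 hz).1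

/-- The distances. -/
noncomputable def DS : ZFSet.{0} :=
  ZFSet.sep (fun w => ∃ n a b i j : ℕ,
    (∀ θ ∈ arc i, ∀ θ' ∈ arc j, (1 / 2 : ℝ) ^ n * ‖θ - θ'‖ < (a : ℝ) / (b + 1)) ∧
    w = pair (nat n) (pair (pair (nat a) (nat b)) (pair (nat i) (nat j))))
    (ZFSet.prod ZFSet.omega (ZFSet.prod (ZFSet.prod ZFSet.omega ZFSet.omega)
      (ZFSet.prod ZFSet.omega ZFSet.omega)))

theorem mem_DS {n a b i j : ℕ} :
    pair (nat n) (pair (pair (nat a) (nat b)) (pair (nat i) (nat j))) ∈ DS ↔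
    ∀ θ ∈ arc i, ∀ θ' ∈ arc j, (1 / 2 : ℝ) ^ n * ‖θ - θ'‖ < (a : ℝ) / (b + 1) := by
  rw [DS, ZFSet.mem_sep]
  constructor
  · rintro ⟨-, n', a', b', i', j', h, h1⟩
    obtain ⟨h2, h3⟩ := ZFSet.pair_inj.1 h1
    obtain ⟨h4, h5⟩ := ZFSet.pair_inj.1 h3
    obtain ⟨h6, h7⟩ := ZFSet.pair_inj.1 h4
    obtain ⟨h8, h9⟩ := ZFSet.pair_inj.1 h5
    rw [nat_injective h2, nat_injective h6, nat_injective h7, nat_injective h8, nat_injective h9]
    exact h
  · exact fun h => ⟨ZFSet.pair_mem_prod.2 ⟨nat_om' _, ZFSet.pair_mem_prod.2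
      ⟨ZFSet.pair_mem_prod.2 ⟨nat_om' _, nat_om' _⟩, ZFSet.pair_mem_prod.2 ⟨nat_om' _,
        nat_om' _⟩⟩⟩, n, a, b, i, j, h, rfl⟩

theorem hfx_DS : ∀ z ∈ DS, Hfx z := fun z hz =>
  hfx_prod (fun _ => hfx_omega) (hfx_prod (hfx_prod (fun _ => hfx_omega) fun _ => hfx_omega)
    (hfx_prod (fun _ => hfx_omega) fun _ => hfx_omega)) z (ZFSet.mem_sep.1 hz).1

/-- From real numbers to codes. -/
noncomputable def HQ : ZFSet.{0} :=
  ZFSet.sep (fun w => ∃ (q q' : ℚ) (c : ℕ), (∀ s : ℝ, (q : ℝ) < s → s ≤ q' → (s : Kc) ∈ arc c) ∧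
    w = pair (nat (Encodable.encode q)) (pair (nat (Encodable.encode q')) (nat c)))
    (ZFSet.prod ZFSet.omega (ZFSet.prod ZFSet.omega ZFSet.omega))

theorem mem_HQ {q q' : ℚ} {c : ℕ} :
    pair (nat (Encodable.encode q)) (pair (nat (Encodable.encode q')) (nat c)) ∈ HQ ↔
    ∀ s : ℝ, (q : ℝ) < s → s ≤ q' → (s : Kc) ∈ arc c := by
  rw [HQ, ZFSet.mem_sep]
  constructor
  · rintro ⟨-, r, r', c', h, h1⟩
    obtain ⟨h2, h3⟩ := ZFSet.pair_inj.1 h1
    obtain ⟨h4, h5⟩ := ZFSet.pair_inj.1 h3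
    rw [Encodable.encode_injective (nat_injective h2), nat_injective h5,
      Encodable.encode_injective (nat_injective h4)]
    exact h
  · exact fun h => ⟨ZFSet.pair_mem_prod.2 ⟨nat_om' _, ZFSet.pair_mem_prod.2 ⟨nat_om' _, nat_om' _⟩⟩,
      q, q', c, h, rfl⟩

theorem hfx_HQ : ∀ z ∈ HQ, Hfx z := fun z hz =>
  hfx_prod (fun _ => hfx_omega) (hfx_prod (fun _ => hfx_omega) fun _ => hfx_omega) z
    (ZFSet.mem_sep.1 hz).1

theorem hfx_RCS : ∀ z ∈ RCS, Hfx z := fun z hz =>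
  hfx_prod (fun _ => hfx_omega) (fun _ => hfx_omega) z (ZFSet.mem_sep.1 hz).1

theorem hfx_Mem : ∀ z ∈ R598.TY.Mem, Hfx z := fun z hz =>
  hfx_prod (fun _ => hfx_omega) (fun _ => hfx_omega) z (ZFSet.mem_sep.1 hz).1

theorem hfx_code (θ : Kc) : ∀ z ∈ code θ, Hfx z := fun _ hz => hfx_omega (code_sub θ hz)

/-- The parameters. -/
noncomputable def Par : Set ZFSet.{0} := {AS, QS, FS, GS, DS, HQ, RCS, R598.TY.Mem, code 0}

theorem hfx_par {s : ZFSet.{0}} (hs : s ∈ Par) : ∀ z ∈ s, Hfx z := by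
  rcases hs with rfl | rfl | rfl | rfl | rfl | rfl | rfl | rfl | rfl
  · exact hfx_AS
  · exact hfx_QS
  · exact hfx_FS
  · exact hfx_GS
  · exact hfx_DS
  · exact hfx_HQ
  · exact hfx_RCS
  · exact hfx_Mem
  · exact hfx_code 0

/-! ### The package -/

/-- The names for a continuous function. -/
noncomputable def AR (φ : C(Xs, Kc)) : Set (PName Po) :=
  {cdN φ} ∪ Set.range fun c => rgN (φ ⁻¹' arc c)

theorem ar_cnt (φ : C(Xs, Kc)) : (AR φ).Countable :=
  (Set.countable_singleton _).union (Set.countable_range _)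

theorem ar_mem {π : Pkg Po} {φ : C(Xs, Kc)} (h : AR φ ⊆ π.N) : cdN φ ∈ π.N := h (Or.inl rfl)

theorem ar_rg {π : Pkg Po} {φ : C(Xs, Kc)} (h : AR φ ⊆ π.N) (c : ℕ) : Rg π (φ ⁻¹' arc c) :=
  rg_of_mem ((isOpen_arc _).preimage φ.continuous) (h (Or.inr ⟨c, rfl⟩))

/-- The open sets for the independence. -/
def Fo (n i j k : ℕ) : Set Xs :=
  {z | z (some n, j) + z (some n, j) ≠ z (some n, i) + z (some n, k)}

theorem isOpen_Fo (n i j k : ℕ) : IsOpen (Fo n i j k) :=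
  isOpen_ne_fun ((continuous_apply (some n, j)).add (continuous_apply (some n, j)))
    ((continuous_apply (some n, i)).add (continuous_apply (some n, k)))

theorem norm_coe_small {x : ℝ} (h0 : 0 ≤ x) (h1 : x < 1 / 2) : ‖(x : Kc)‖ = x := by
  rw [UnitAddCircle.norm_eq]
  have h2 : round x = 0 := by
    rw [round_eq, Int.floor_eq_iff]
    constructor
    · push_cast
      linarith
    · push_cast
      linarith
  rw [h2, Int.cast_zero, sub_zero, abs_of_nonneg h0]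

theorem dense_Fo {n i j k : ℕ} (hij : i ≠ j) (p : Po) : (p.1 ∩ Fo n i j k).Nonempty := by
  classical
  obtain ⟨z, hz⟩ := p.2.2
  by_cases hzF : z ∈ Fo n i j k
  · exact ⟨z, hz, hzF⟩
  · obtain ⟨M, -, ε, hε, h1⟩ := exists_Nb p.2.1 hz 0
    have hzF' : z (some n, j) + z (some n, j) = z (some n, i) + z (some n, k) := by
      by_contra h
      exact hzF h
    let δ : ℝ := min (ε / 2) (1 / 8)
    have hδ0 : 0 < δ := lt_min (by linarith) (by norm_num)
    have hδ1 : δ ≤ 1 / 8 := min_le_right _ _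
    have hδ2 : δ < ε := (min_le_left _ _).trans_lt (by linarith)
    have hn1 : ‖(δ : Kc)‖ = δ := norm_coe_small hδ0.le (by linarith)
    have hn2 : ((δ : ℝ) : Kc) + ((δ : ℝ) : Kc) ≠ 0 := by
      rw [← AddCircle.coe_add]
      intro h
      have h2 := norm_coe_small (x := δ + δ) (by linarith) (by linarith)
      rw [h, norm_zero] at h2
      linarith
    have hn3 : ((δ : ℝ) : Kc) ≠ 0 := by
      intro h
      rw [h, norm_zero] at hn1
      linarith
    let z' : Xs := Function.update z (some n, i) (z (some n, i) + (δ : Kc))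
    have e1 : z' (some n, i) = z (some n, i) + (δ : Kc) := Function.update_self _ _ _
    have e2 : ∀ e, e ≠ (some n, i) → z' e = z e := fun e he => Function.update_of_ne he _ _
    refine ⟨z', h1 fun e _ => ?_, ?_⟩
    · by_cases he : e = (some n, i)
      · rw [he, e1, add_sub_cancel_left, hn1]
        exact hδ2
      · rw [e2 e he, sub_self, norm_zero]
        exact hε
    · change z' (some n, j) + z' (some n, j) ≠ z' (some n, i) + z' (some n, k)
      rw [e1, e2 (some n, j) (by simp [Ne.symm hij]), hzF']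
      by_cases hk : k = i
      · rw [hk, e1]
        intro h
        have h3 : z (some n, i) + (δ : Kc) + (z (some n, i) + (δ : Kc)) =
          (z (some n, i) + z (some n, i)) + ((δ : Kc) + (δ : Kc)) := by abel
        rw [h3] at h
        exact hn2 (by simpa using h)
      · rw [e2 (some n, k) (by simp [hk])]
        intro h
        have h3 : z (some n, i) + (δ : Kc) + z (some n, k) =
          (z (some n, i) + z (some n, k)) + (δ : Kc) := by abel
        rw [h3] at h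
        exact hn3 (by simpa using h)

/-- The names of the package. -/
noncomputable def BA : Set (PName Po) :=
  ((check '' Par ∪ {ON}) ∪ Set.range CN) ∪
    ((⋃ t : ℕ × ℕ, AR (ev (some t.1, t.2))) ∪
      Set.range fun t : ℕ × ℕ × ℕ × ℕ => rgN (Fo t.1 t.2.1 t.2.2.1 t.2.2.2))

theorem ba_cnt : BA.Countable := by
  refine Set.Countable.union (Set.Countable.union (Set.Countable.union ?_
    (Set.countable_singleton _)) (Set.countable_range _)) (Set.Countable.union ?_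
      (Set.countable_range _))
  · refine Set.Countable.image ?_ _
    unfold Par
    exact (Set.toFinite _).countable
  · exact Set.countable_iUnion fun t => ar_cnt _

/-- The package is good. -/
structure GP (π : Pkg Po) : Prop where
  cld : S.Cld π
  ba : BA ⊆ π.N

theorem exists_gpk : ∃ π : Pkg Po, GP π := by
  obtain ⟨π, h1, h2, -⟩ := exists_cld S BA ba_cnt ⊤
  exact ⟨π, h1, h2⟩

section

variable {π : Pkg Po} (hπ : BA ⊆ π.N)

include hπ

theorem par_Z {s : ZFSet.{0}} (hs : s ∈ Par) : s ∈ π.Z :=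
  hπ (Or.inl (Or.inl (Or.inl ⟨s, hs, rfl⟩)))

theorem par_mem {s : ZFSet.{0}} (hs : s ∈ Par) : s ∈ S.Ms π := by
  have h1 := mem_Ms' (S.hs_check s) (par_Z hπ hs)
  have h2 : π.val (check s) = s := hat_of_hfx (hfx_par hs) π
  rwa [h2] at h1

theorem val_par {s : ZFSet.{0}} (hs : s ∈ Par) : π.val (check s) = s :=
  hat_of_hfx (hfx_par hs) π

theorem on_N : ON ∈ π.N := hπ (Or.inl (Or.inl (Or.inr rfl)))

theorem cn_N (n : ℕ) : CN n ∈ π.N := hπ (Or.inl (Or.inr ⟨n, rfl⟩))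

theorem ar_N (n i : ℕ) : AR (ev (some n, i)) ⊆ π.N := fun _ hx =>
  hπ (Or.inr (Or.inl (Set.mem_iUnion.2 ⟨(n, i), hx⟩)))

/-- The sequence of the block. -/
noncomputable def bl (π : Pkg Po) (n : ℕ) : ℕ → Kc := fun i => gp π (some n, i)

theorem val_CN (n : ℕ) : π.val (CN n) = cs (bl π n) :=
  val_fN (fun i c => ar_rg (ar_N hπ n i) c) (fun i => ar_mem (ar_N hπ n i))

theorem gp_Fo {n i j k : ℕ} (hij : i ≠ j) : gp π ∈ Fo n i j k := by
  obtain ⟨m, hm | hm⟩ := rg_of_mem (isOpen_Fo n i j k)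
    (hπ (Or.inr (Or.inr ⟨(n, i, j, k), rfl⟩)))
  · exact hm (gp_mem π m)
  · have := dense_Fo (n := n) (k := k) hij (π.g m)
    rw [hm] at this
    exact absurd this (by simp)

/-- The translations of a block are different. -/
theorem cs_free {n : ℕ} {θ θ' : Kc} (h : (cs fun i => bl π n i + θ) = cs fun i => bl π n i + θ') :
    θ = θ' := by
  have h1 : ∀ i, ∃ j, bl π n i + θ' = bl π n j + θ := by
    intro i
    have h2 : code (bl π n i + θ') ∈ cs fun i => bl π n i + θ := by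
      rw [h]
      exact mem_cs.2 ⟨i, rfl⟩
    obtain ⟨j, hj⟩ := mem_cs.1 h2
    exact ⟨j, code_inj hj⟩
  obtain ⟨j, hj⟩ := h1 0
  by_cases hj0 : j = 0
  · rw [hj0] at hj
    exact (add_left_cancel hj).symm
  · exfalso
    obtain ⟨k, hk⟩ := h1 j
    have h2 := gp_Fo hπ (n := n) (i := 0) (j := j) (k := k) (Ne.symm hj0)
    apply h2
    change bl π n j + bl π n j = bl π n 0 + bl π n k
    have h3 : bl π n j = bl π n 0 + θ' - θ := eq_sub_of_add_eq hj.symm
    have h4 : bl π n k = bl π n j + θ' - θ := eq_sub_of_add_eq hk.symm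
    rw [h4]
    have h5 : bl π n 0 + (bl π n j + θ' - θ) = (bl π n 0 + θ' - θ) + bl π n j := by abel
    rw [h5, ← h3]

end

theorem cs_comp (f : ℕ → Kc) (σ : Equiv.Perm ℕ) : (cs fun i => f (σ i)) = cs f := by
  ext b
  rw [mem_cs, mem_cs]
  constructor
  · rintro ⟨i, h⟩
    exact ⟨_, h⟩
  · rintro ⟨i, h⟩
    refine ⟨σ.symm i, ?_⟩
    rw [Equiv.apply_symm_apply]
    exact h

end Pool.Agent.D0H63.Cu
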