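import Pool.Agent.D0H63.Cu.Ch
import Pool.Agent.R596.FcDefs

/-!
# The space of the circles
-/

set_option autoImplicit false
set_option linter.unusedSectionVars false

namespace Pool.Agent.D0H63.Cu

open Pool.Agent.W868
open Pool.Agent.R598.CI (Kc arc isOpen_arc exists_arc RC RCS mem_RCS Pt lev sz ds ds_eq_zero ds_comm
  ds_tri ds_some ds_none ds_same ds_diff sz_le_ds sz_nonneg arcs)
open Pool.Agent.W868.PName
open Pool.Agent.R598.TY (real mem_real enc_mem_real real_sub)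
open ZFSet (pair)

/-- The situation. -/
structure Sit (M : Set ZFSet.{0}) (f : ℕ → ℕ → Kc) (O : ZFSet.{0}) : Prop where
  zf : IsZF M
  par : ∀ s ∈ Par, s ∈ M
  o : O ∈ M
  tr : ∀ n D, pair (nat n) D ∈ O → ∃ θ, code θ ∈ M ∧ D = cs fun i => f n i + θ
  base : ∀ n, pair (nat n) (cs (f n)) ∈ O
  free : ∀ n θ θ', (cs fun i => f n i + θ) = (cs fun i => f n i + θ') → θ = θ'
  nc : ∀ s ∈ M, ¬ ∀ n, ∃ θ, code θ ∈ M ∧ ∀ z, pair (nat n) z ∈ s ↔ z = cs fun i => f n i + θ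

theorem sit {π : Pkg Po} (hπ : GP π) : Sit (S.Ms π) (bl π) (π.val ON) where
  zf := R598.CI.isZF_Ms hπ.cld
  par := fun _ hs => par_mem hπ.ba hs
  o := mem_Ms' hs_ON (on_N hπ.ba)
  tr := fun _ _ h => mem_O hπ h
  base := fun n => base_mem_O hπ n
  free := fun _ _ _ h => cs_free hπ.ba h
  nc := fun _ hs => no_ch hπ hs

/-- The points as sets. -/
noncomputable def pp (f : ℕ → ℕ → Kc) : Pt → ZFSet.{0}
  | none => pair (nat 0) ∅
  | some a => pair (nat a.1) (cs fun i => f a.1 i + a.2)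

/-- The point is in the model. -/
def In (M : Set ZFSet.{0}) : Pt → Prop
  | none => True
  | some a => code a.2 ∈ M

theorem cs_ne (f : ℕ → Kc) : cs f ≠ ∅ := by
  intro h
  have h1 : code (f 0) ∈ cs f := mem_cs.2 ⟨0, rfl⟩
  rw [h] at h1
  exact ZFSet.notMem_empty _ h1

namespace Sit

variable {M : Set ZFSet.{0}} {f : ℕ → ℕ → Kc} {O : ZFSet.{0}} (h : Sit M f O)

include h

theorem pp_inj {a b : Pt} (hab : pp f a = pp f b) : a = b := by
  cases a with
  | none =>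
    cases b with
    | none => rfl
    | some b => exact absurd (ZFSet.pair_inj.1 hab).2.symm (cs_ne _)
  | some a =>
    cases b with
    | none => exact absurd (ZFSet.pair_inj.1 hab).2 (cs_ne _)
    | some b =>
      obtain ⟨n, θ⟩ := a
      obtain ⟨m, θ'⟩ := b
      obtain ⟨h1, h2⟩ := ZFSet.pair_inj.1 hab
      have h3 : n = m := nat_injective h1
      subst h3
      have h4 := h.free n θ θ' h2
      rw [h4]

theorem om : ZFSet.omega ∈ M := h.zf.infinity

theorem cs_mem (n : ℕ) : cs (f n) ∈ M := (h.zf.of_pair_mem (h.zf.trans _ h.o _ (h.base n))).2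

theorem code_add {θ θ' : Kc} (h1 : code θ ∈ M) (h2 : code θ' ∈ M) : code (θ + θ') ∈ M := by
  have hM := h.zf
  have hω := h.om
  have hA : AS ∈ M := h.par _ as_Par
  have h3 := hM.sep_mem (Q := fun c => ∃ i ∈ code θ, ∃ j ∈ code θ', pair i (pair j c) ∈ AS)
    (by (repeat' first | assumption | exact DfnF.proj _ | exact DfnF.const (by assumption) | exact Dfn.prop _ | apply Dfn.not | apply Dfn.and | apply Dfn.or | apply Dfn.imp | apply Dfn.iff | apply hM.base.bex | apply hM.base.ball | apply Dfn.ex | apply Dfn.all | apply Dfn.eq | apply Dfn.mem | apply hM.base.pair')) hω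
  have h4 : ZFSet.sep (fun c => ∃ i ∈ code θ, ∃ j ∈ code θ', pair i (pair j c) ∈ AS)
      ZFSet.omega = code (θ + θ') := by
    ext z
    rw [ZFSet.mem_sep]
    constructor
    · rintro ⟨hz, h5⟩
      obtain ⟨c, rfl⟩ := mem_omega_iff.1 hz
      exact nat_mem_code.2 (mem_sum.2 h5)
    · intro hz
      obtain ⟨c, hc, rfl⟩ := mem_code.1 hz
      exact ⟨nat_om' c, mem_sum.1 hc⟩
  rwa [h4] at h3

theorem code_f (n i : ℕ) : code (f n i) ∈ M :=
  h.zf.trans _ (h.cs_mem n) _ (mem_cs.2 ⟨i, rfl⟩)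

theorem code_zero : code 0 ∈ M := h.par _ code_Par

theorem exists_P : ∃ P ∈ M, ∀ z, z ∈ P ↔ z ∈ M ∧ z ⊆ ZFSet.omega := h.zf.power _ h.om

theorem cs_add_mem {n : ℕ} {θ : Kc} (hθ : code θ ∈ M) : (cs fun i => f n i + θ) ∈ M := by
  have hM := h.zf
  have hω := h.om
  have hA : AS ∈ M := h.par _ as_Par
  have hC := h.cs_mem n
  obtain ⟨P, hP, hP'⟩ := h.exists_P
  have h3 := hM.sep_mem (Q := fun b => ∃ a ∈ cs (f n), Sm AS ZFSet.omega a (code θ) b)
    (by unfold Sm; (repeat' first | assumption | exact DfnF.proj _ | exact DfnF.const (by assumption) | exact Dfn.prop _ | apply Dfn.not | apply Dfn.and | apply Dfn.or | apply Dfn.imp | apply Dfn.iff | apply hM.base.bex | apply hM.base.ball | apply Dfn.ex | apply Dfn.all | apply Dfn.eq | apply Dfn.mem | apply hM.base.pair')) hP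
  have h4 : ZFSet.sep (fun b => ∃ a ∈ cs (f n), Sm AS ZFSet.omega a (code θ) b) P =
      cs fun i => f n i + θ := by
    ext b
    rw [ZFSet.mem_sep, mem_cs]
    constructor
    · rintro ⟨hb, a, ha, h5⟩
      obtain ⟨i, rfl⟩ := mem_cs.1 ha
      exact ⟨i, (sm_iff ((hP' _).1 hb).2).1 h5⟩
    · rintro ⟨i, rfl⟩
      exact ⟨(hP' _).2 ⟨h.code_add (h.code_f n i) hθ, code_sub _⟩, _, mem_cs.2 ⟨i, rfl⟩,
        (sm_iff (code_sub _)).2 rfl⟩
  rwa [h4] at h3

theorem pp_mem {a : Pt} (ha : In M a) : pp f a ∈ M := by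
  cases a with
  | none => exact h.zf.pair_mem (h.zf.nat_mem 0) h.zf.empty_mem
  | some a => exact h.zf.pair_mem (h.zf.nat_mem a.1) (h.cs_add_mem ha)

/-- The space. -/
theorem exists_X : ∃ X ∈ M, ∀ x, x ∈ X ↔ ∃ a, In M a ∧ x = pp f a := by
  have hM := h.zf
  have hω := h.om
  have hA : AS ∈ M := h.par _ as_Par
  have hQ : QS ∈ M := h.par _ qs_Par
  have hO := h.o
  obtain ⟨P, hP, hP'⟩ := h.exists_P
  obtain ⟨R, hR, hR'⟩ := hM.power _ hP
  have h0 := hM.nat_mem 0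
  have he := hM.empty_mem
  have hp0 : pair (nat 0) ∅ ∈ M := hM.pair_mem h0 he
  refine ⟨_, hM.sep_mem (Q := fun w => w = pair (nat 0) ∅ ∨ ∃ n ∈ ZFSet.omega, ∃ D ∈ R, ∃ C ∈ R,
    ∃ t ∈ P, w = pair n D ∧ pair n C ∈ O ∧ CdP QS ZFSet.omega t ∧ TrP AS ZFSet.omega C t D)
    (by unfold CdP TrP Sm; (repeat' first | assumption | exact DfnF.proj _ | exact DfnF.const (by assumption) | exact Dfn.prop _ | apply Dfn.not | apply Dfn.and | apply Dfn.or | apply Dfn.imp | apply Dfn.iff | apply hM.base.bex | apply hM.base.ball | apply Dfn.ex | apply Dfn.all | apply Dfn.eq | apply Dfn.mem | apply hM.base.pair')) (hM.prod_mem hω hR), fun x => ?_⟩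
  rw [ZFSet.mem_sep]
  have hR1 : ∀ n θ, code θ ∈ M → (cs fun i => f n i + θ) ∈ R := by
    intro n θ hθ
    refine (hR' _).2 ⟨h.cs_add_mem hθ, fun b hb => ?_⟩
    obtain ⟨i, rfl⟩ := mem_cs.1 hb
    exact (hP' _).2 ⟨h.code_add (h.code_f n i) hθ, code_sub _⟩
  constructor
  · rintro ⟨-, rfl | ⟨n, hn, D, hD, C, hC, t, ht, rfl, h1, h2, h3⟩⟩
    · exact ⟨none, trivial, rfl⟩
    · obtain ⟨n, rfl⟩ := mem_omega_iff.1 hn
      obtain ⟨θ, hθ, rfl⟩ := h.tr n C h1
      obtain ⟨φ, rfl⟩ := cd_iff.1 h2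
      have h4 := (tr_iff fun b hb => ((hP' _).1 (((hR' _).1 hD).2 hb)).2).1 h3
      refine ⟨some (n, θ + φ), h.code_add hθ ((hP' _).1 ht).1, ?_⟩
      change _ = pair (nat n) (cs fun i => f n i + (θ + φ))
      rw [h4]
      congr 2
      funext i
      abel
  · rintro ⟨a, ha, rfl⟩
    cases a with
    | none => exact ⟨ZFSet.pair_mem_prod.2 ⟨nat_om' 0, (hR' _).2 ⟨he, ZFSet.empty_subset _⟩⟩,
        Or.inl rfl⟩
    | some a =>
      obtain ⟨n, θ⟩ := a
      have hθ : code θ ∈ M := ha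
      have hz := hR1 n 0 h.code_zero
      simp only [add_zero] at hz
      refine ⟨ZFSet.pair_mem_prod.2 ⟨nat_om' n, hR1 n θ hθ⟩, Or.inr ⟨nat n, nat_om' n, _,
        hR1 n θ hθ, _, hz, code θ, (hP' _).2 ⟨hθ, code_sub _⟩, rfl, h.base n, cd_code θ, ?_⟩⟩
      refine (tr_iff fun b hb => ?_).2 rfl
      obtain ⟨i, rfl⟩ := mem_cs.1 hb
      exact code_sub _

end Sit

end Pool.Agent.D0H63.Cu
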