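import Pool.Agent.D0H63.Cu.Sp

/-!
# The metric of the space of the circles
-/

set_option autoImplicit false
set_option linter.unusedSectionVars false

namespace Pool.Agent.D0H63.Cu

open Pool.Agent.W868 Pool.Agent.W868.PName
open Pool.Agent.R598.CI (Kc arc isOpen_arc exists_arc RC RCS mem_RCS Pt lev sz ds ds_eq_zero ds_comm
  ds_tri ds_some ds_none ds_same ds_diff sz_le_ds sz_nonneg arcs)
open Pool.Agent.R598.TY (real mem_real enc_mem_real real_sub)
open ZFSet (pair)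

theorem ds_arcs {n a b : ℕ} {φ φ' : Kc} :
    (∃ i ∈ code φ, ∃ j ∈ code φ', pair (nat n) (pair (pair (nat a) (nat b)) (pair i j)) ∈ DS) ↔
      (1 / 2 : ℝ) ^ n * ‖φ - φ'‖ < (a : ℝ) / (b + 1) := by
  constructor
  · rintro ⟨i, hi, j, hj, h⟩
    obtain ⟨i, hi', rfl⟩ := mem_code.1 hi
    obtain ⟨j, hj', rfl⟩ := mem_code.1 hj
    exact mem_DS.1 h φ hi' φ' hj'
  · intro h
    obtain ⟨ε, hε⟩ : ∃ ε, ε = (a : ℝ) / (b + 1) - (1 / 2 : ℝ) ^ n * ‖φ - φ'‖ := ⟨_, rfl⟩
    have hε0 : 0 < ε := by rw [hε]; linarith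
    obtain ⟨i, hi, hi'⟩ := exists_arc (θ := φ) (half_pos hε0)
    obtain ⟨j, hj, hj'⟩ := exists_arc (θ := φ') (half_pos hε0)
    refine ⟨_, nat_mem_code.2 hi, _, nat_mem_code.2 hj, mem_DS.2 fun θ hθ θ' hθ' => ?_⟩
    have h1 := hi' θ hθ
    have h2 := hj' θ' hθ'
    have h3 : θ - θ' = (φ - φ') + ((θ - φ) - (θ' - φ')) := by abel
    have h4 : ‖θ - θ'‖ < ‖φ - φ'‖ + ε := by
      rw [h3]
      have h5 := norm_add_le (φ - φ') ((θ - φ) - (θ' - φ'))
      have h6 := norm_sub_le (θ - φ) (θ' - φ')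
      linarith
    have h5 : (0 : ℝ) < (1 / 2) ^ n := by positivity
    have h6 : (1 / 2 : ℝ) ^ n ≤ 1 := pow_le_one₀ (by norm_num) (by norm_num)
    have h7 : (1 / 2 : ℝ) ^ n * ‖θ - θ'‖ < (1 / 2) ^ n * (‖φ - φ'‖ + ε) :=
      mul_lt_mul_of_pos_left h4 h5
    have h8 : (1 / 2 : ℝ) ^ n * ε ≤ 1 * ε := mul_le_mul_of_nonneg_right h6 hε0.le
    rw [mul_add] at h7
    linarith

open Classical in
/-- The metric. -/
noncomputable def rho (f : ℕ → ℕ → Kc) (x y : ZFSet.{0}) : ℝ :=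
  if h : ∃ t : Pt × Pt, x = pp f t.1 ∧ y = pp f t.2 then ds h.choose.1 h.choose.2 else 0

namespace Sit

variable {M : Set ZFSet.{0}} {f : ℕ → ℕ → Kc} {O : ZFSet.{0}} (h : Sit M f O)

include h

theorem rho_eq (a b : Pt) : rho f (pp f a) (pp f b) = ds a b := by
  have h1 : ∃ t : Pt × Pt, pp f a = pp f t.1 ∧ pp f b = pp f t.2 := ⟨(a, b), rfl, rfl⟩
  rw [rho, dif_pos h1]
  obtain ⟨h2, h3⟩ := h1.choose_spec
  rw [← h.pp_inj h2, ← h.pp_inj h3]

theorem cut_mem {X : ZFSet.{0}} (hX : X ∈ M) (hX' : ∀ x, x ∈ X ↔ ∃ a, In M a ∧ x = pp f a) :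
    R596Fc.cut X (rho f) ∈ M := by
  have hM := h.zf
  have hω := h.om
  have hA : AS ∈ M := h.par _ as_Par
  have hQ : QS ∈ M := h.par _ qs_Par
  have hFS : FS ∈ M := h.par _ fs_Par
  have hGS : GS ∈ M := h.par _ gs_Par
  have hDS : DS ∈ M := h.par _ ds_Par
  have hO := h.o
  obtain ⟨P, hP, hP'⟩ := h.exists_P
  obtain ⟨R, hR, hR'⟩ := hM.power _ hP
  have h0 := hM.nat_mem 0
  have he := hM.empty_mem
  have hp0 : pair (nat 0) ∅ ∈ M := hM.pair_mem h0 he
  have hR1 : ∀ n θ, code θ ∈ M → (cs fun i => f n i + θ) ∈ R := by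
    intro n θ hθ
    refine (hR' _).2 ⟨h.cs_add_mem hθ, fun b hb => ?_⟩
    obtain ⟨i, rfl⟩ := mem_cs.1 hb
    exact (hP' _).2 ⟨h.code_add (h.code_f n i) hθ, code_sub _⟩
  have hP1 : ∀ θ, code θ ∈ M → code θ ∈ P := fun θ hθ => (hP' _).2 ⟨hθ, code_sub _⟩
  have hXa : ∀ {a}, In M a → pp f a ∈ X := fun {a} ha => (hX' _).2 ⟨a, ha, rfl⟩
  have hns : ∀ a : ℕ × Kc, pp f (some a) ≠ pair (nat 0) ∅ := fun a h1 =>
    cs_ne _ (ZFSet.pair_inj.1 h1).2
  -- the sizes
  have hSZ := hM.sep_mem (Q := fun w => ∃ x ∈ X, ∃ a ∈ ZFSet.omega, ∃ b ∈ ZFSet.omega,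
    w = pair x (pair a b) ∧ ((x = pair (nat 0) ∅ ∧ pair a b ∈ GS) ∨ (¬ x = pair (nat 0) ∅ ∧
      ∃ n ∈ ZFSet.omega, ∃ D ∈ R, x = pair n D ∧ pair n (pair a b) ∈ FS))) (by (repeat' first | assumption | exact DfnF.proj _ | exact DfnF.const (by assumption) | exact Dfn.prop _ | apply Dfn.not | apply Dfn.and | apply Dfn.or | apply Dfn.imp | apply Dfn.iff | apply hM.base.bex | apply hM.base.ball | apply Dfn.ex | apply Dfn.all | apply Dfn.eq | apply Dfn.mem | apply hM.base.pair'))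
    (hM.prod_mem hX (hM.prod_mem hω hω))
  obtain ⟨SZ, hSZe⟩ : ∃ SZ, SZ = ZFSet.sep (fun w => ∃ x ∈ X, ∃ a ∈ ZFSet.omega,
    ∃ b ∈ ZFSet.omega, w = pair x (pair a b) ∧ ((x = pair (nat 0) ∅ ∧ pair a b ∈ GS) ∨
      (¬ x = pair (nat 0) ∅ ∧ ∃ n ∈ ZFSet.omega, ∃ D ∈ R, x = pair n D ∧
        pair n (pair a b) ∈ FS))) (ZFSet.prod X (ZFSet.prod ZFSet.omega ZFSet.omega)) := ⟨_, rfl⟩
  rw [← hSZe] at hSZ
  have hSZm : ∀ (a : Pt) (i j : ℕ), In M a → (pair (pp f a) (pair (nat i) (nat j)) ∈ SZ ↔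
      sz a < (i : ℝ) / (j + 1)) := by
    intro a i j ha
    rw [hSZe, ZFSet.mem_sep]
    constructor
    · rintro ⟨-, x, -, i', -, j', -, h1, h2⟩
      obtain ⟨h3, h4⟩ := ZFSet.pair_inj.1 h1
      obtain ⟨h5, h6⟩ := ZFSet.pair_inj.1 h4
      rw [← h3, ← h5, ← h6] at h2
      cases a with
      | none =>
        rcases h2 with ⟨-, h2⟩ | ⟨h2, -⟩
        · exact mem_GS.1 h2
        · exact absurd rfl h2
      | some a =>
        rcases h2 with ⟨h2, -⟩ | ⟨-, n, hn, D, -, h7, h8⟩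
        · exact absurd h2 (hns a)
        · obtain ⟨h9, -⟩ := ZFSet.pair_inj.1 h7
          rw [← h9] at h8
          exact mem_FS.1 h8
    · intro h1
      refine ⟨ZFSet.pair_mem_prod.2 ⟨hXa ha, ZFSet.pair_mem_prod.2 ⟨nat_om' i, nat_om' j⟩⟩, _,
        hXa ha, _, nat_om' i, _, nat_om' j, rfl, ?_⟩
      cases a with
      | none => exact Or.inl ⟨rfl, mem_GS.2 h1⟩
      | some a => exact Or.inr ⟨hns a, nat a.1, nat_om' _, _, hR1 a.1 a.2 ha, rfl, mem_FS.2 h1⟩
  -- the levels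
  have hLV := hM.sep_mem (Q := fun w => ∃ x ∈ X, ∃ y ∈ X, w = pair x y ∧
    ((x = pair (nat 0) ∅ ∧ y = pair (nat 0) ∅) ∨ (¬ x = pair (nat 0) ∅ ∧ ¬ y = pair (nat 0) ∅ ∧
      ∃ n ∈ ZFSet.omega, ∃ D ∈ R, ∃ E ∈ R, x = pair n D ∧ y = pair n E))) (by (repeat' first | assumption | exact DfnF.proj _ | exact DfnF.const (by assumption) | exact Dfn.prop _ | apply Dfn.not | apply Dfn.and | apply Dfn.or | apply Dfn.imp | apply Dfn.iff | apply hM.base.bex | apply hM.base.ball | apply Dfn.ex | apply Dfn.all | apply Dfn.eq | apply Dfn.mem | apply hM.base.pair'))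
    (hM.prod_mem hX hX)
  obtain ⟨LV, hLVe⟩ : ∃ LV, LV = ZFSet.sep (fun w => ∃ x ∈ X, ∃ y ∈ X, w = pair x y ∧
    ((x = pair (nat 0) ∅ ∧ y = pair (nat 0) ∅) ∨ (¬ x = pair (nat 0) ∅ ∧ ¬ y = pair (nat 0) ∅ ∧
      ∃ n ∈ ZFSet.omega, ∃ D ∈ R, ∃ E ∈ R, x = pair n D ∧ y = pair n E))) (ZFSet.prod X X) :=
    ⟨_, rfl⟩
  rw [← hLVe] at hLV
  have hLVm : ∀ a b : Pt, In M a → In M b → (pair (pp f a) (pp f b) ∈ LV ↔ lev a = lev b) := by
    intro a b ha hb
    rw [hLVe, ZFSet.mem_sep]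
    constructor
    · rintro ⟨-, x, -, y, -, h1, h2⟩
      obtain ⟨h3, h4⟩ := ZFSet.pair_inj.1 h1
      rw [← h3, ← h4] at h2
      rcases h2 with ⟨h2, h5⟩ | ⟨h2, h5, n, -, D, -, E, -, h6, h7⟩
      · have h8 : a = none := h.pp_inj (b := none) h2
        have h9 : b = none := h.pp_inj (b := none) h5
        rw [h8, h9]
      · cases a with
        | none => exact absurd rfl h2
        | some a =>
          cases b with
          | none => exact absurd rfl h5
          | some b =>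
            obtain ⟨h8, -⟩ := ZFSet.pair_inj.1 h6
            obtain ⟨h9, -⟩ := ZFSet.pair_inj.1 h7
            have h10 : a.1 = b.1 := nat_injective (h8.trans h9.symm)
            simp [lev, h10]
    · intro h1
      refine ⟨ZFSet.pair_mem_prod.2 ⟨hXa ha, hXa hb⟩, _, hXa ha, _, hXa hb, rfl, ?_⟩
      cases a with
      | none =>
        cases b with
        | none => exact Or.inl ⟨rfl, rfl⟩
        | some b => simp [lev] at h1
      | some a =>
        cases b with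
        | none => simp [lev] at h1
        | some b =>
          simp only [lev, Option.map_some, Option.some.injEq] at h1
          refine Or.inr ⟨hns a, hns b, nat a.1, nat_om' _, _, hR1 a.1 a.2 ha, _,
            hR1 b.1 b.2 hb, rfl, ?_⟩
          rw [h1]
          rfl
  -- the metric
  have hC := hM.sep_mem (Q := fun w => ∃ x ∈ X, ∃ y ∈ X, ∃ a ∈ ZFSet.omega, ∃ b ∈ ZFSet.omega,
    w = pair (pair x y) (pair a b) ∧
    ((¬ pair x y ∈ LV ∧ pair x (pair a b) ∈ SZ ∧ pair y (pair a b) ∈ SZ) ∨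
      (x = pair (nat 0) ∅ ∧ y = pair (nat 0) ∅ ∧ pair a b ∈ GS) ∨
      ∃ n ∈ ZFSet.omega, ∃ D ∈ R, ∃ E ∈ R, ∃ C ∈ R, ∃ t ∈ P, ∃ t' ∈ P, x = pair n D ∧
        y = pair n E ∧ pair n C ∈ O ∧ CdP QS ZFSet.omega t ∧ CdP QS ZFSet.omega t' ∧
        TrP AS ZFSet.omega C t D ∧ TrP AS ZFSet.omega C t' E ∧
        ∃ i ∈ t, ∃ j ∈ t', pair n (pair (pair a b) (pair i j)) ∈ DS))
    (by unfold CdP TrP Sm; (repeat' first | assumption | exact DfnF.proj _ | exact DfnF.const (by assumption) | exact Dfn.prop _ | apply Dfn.not | apply Dfn.and | apply Dfn.or | apply Dfn.imp | apply Dfn.iff | apply hM.base.bex | apply hM.base.ball | apply Dfn.ex | apply Dfn.all | apply Dfn.eq | apply Dfn.mem | apply hM.base.pair'))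
    (hM.prod_mem (hM.prod_mem hX hX) (hM.prod_mem hω hω))
  convert hC using 1
  rw [R596Fc.cut]
  ext w
  rw [ZFSet.mem_sep, ZFSet.mem_sep]
  refine and_congr_right fun _ => ?_
  have key : ∀ (a b : Pt) (i j : ℕ), In M a → In M b →
    (((¬ pair (pp f a) (pp f b) ∈ LV ∧ pair (pp f a) (pair (nat i) (nat j)) ∈ SZ ∧
        pair (pp f b) (pair (nat i) (nat j)) ∈ SZ) ∨
      (pp f a = pair (nat 0) ∅ ∧ pp f b = pair (nat 0) ∅ ∧ pair (nat i) (nat j) ∈ GS) ∨
      ∃ n ∈ ZFSet.omega, ∃ D ∈ R, ∃ E ∈ R, ∃ C ∈ R, ∃ t ∈ P, ∃ t' ∈ P, pp f a = pair n D ∧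
        pp f b = pair n E ∧ pair n C ∈ O ∧ CdP QS ZFSet.omega t ∧ CdP QS ZFSet.omega t' ∧
        TrP AS ZFSet.omega C t D ∧ TrP AS ZFSet.omega C t' E ∧
        ∃ k ∈ t, ∃ l ∈ t', pair n (pair (pair (nat i) (nat j)) (pair k l)) ∈ DS) ↔
      ds a b < (i : ℝ) / (j + 1)) := by
    intro a b i j ha hb
    rw [hLVm a b ha hb, hSZm a i j ha, hSZm b i j hb]
    constructor
    · rintro (⟨h1, h2, h3⟩ | ⟨h1, h2, h3⟩ | ⟨n, hn, D, hD, E, hE, C, -, t, ht, t', ht', h1, h2, h3,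
        h4, h5, h6, h7, h8⟩)
      · rw [ds_diff h1]
        exact max_lt h2 h3
      · have h4 : a = none := h.pp_inj (b := none) h1
        have h5 : b = none := h.pp_inj (b := none) h2
        rw [h4, h5, ds_eq_zero.2 rfl]
        exact mem_GS.1 h3
      · obtain ⟨n, rfl⟩ := mem_omega_iff.1 hn
        obtain ⟨θ, hθ, rfl⟩ := h.tr n C h3
        obtain ⟨φ, rfl⟩ := cd_iff.1 h4
        obtain ⟨φ', rfl⟩ := cd_iff.1 h5
        have h9 := (tr_iff fun b hb => ((hP' _).1 (((hR' _).1 hD).2 hb)).2).1 h6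
        have h10 := (tr_iff fun b hb => ((hP' _).1 (((hR' _).1 hE).2 hb)).2).1 h7
        have e1 : pp f a = pp f (some (n, θ + φ)) := by
          rw [h1, h9]
          change _ = pair (nat n) (cs fun i => f n i + (θ + φ))
          congr 2
          funext i
          abel
        have e2 : pp f b = pp f (some (n, θ + φ')) := by
          rw [h2, h10]
          change _ = pair (nat n) (cs fun i => f n i + (θ + φ'))
          congr 2
          funext i
          abel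
        rw [h.pp_inj e1, h.pp_inj e2, ds_some]
        have h11 : θ + φ - (θ + φ') = φ - φ' := by abel
        rw [h11]
        exact ds_arcs.1 h8
    · intro h1
      by_cases hl : lev a = lev b
      · right
        cases a with
        | none =>
          cases b with
          | none =>
            left
            refine ⟨rfl, rfl, mem_GS.2 ?_⟩
            rwa [ds_eq_zero.2 rfl] at h1
          | some b => simp [lev] at hl
        | some a =>
          cases b with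
          | none => simp [lev] at hl
          | some b =>
            obtain ⟨n, θ⟩ := a
            obtain ⟨m, θ'⟩ := b
            simp only [lev, Option.map_some, Option.some.injEq] at hl
            change n = m at hl
            subst hl
            right
            have hθ : code θ ∈ M := ha
            have hθ' : code θ' ∈ M := hb
            have hz := hR1 n 0 h.code_zero
            simp only [add_zero] at hz
            have hcs : ∀ θ : Kc, ∀ b ∈ (cs fun i => f n i + θ), b ⊆ ZFSet.omega := by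
              intro θ b hb
              obtain ⟨i, rfl⟩ := mem_cs.1 hb
              exact code_sub _
            refine ⟨nat n, nat_om' n, _, hR1 n θ hθ, _, hR1 n θ' hθ', _, hz, _, hP1 θ hθ, _,
              hP1 θ' hθ', rfl, rfl, h.base n, cd_code θ, cd_code θ', (tr_iff (hcs θ)).2 rfl,
              (tr_iff (hcs θ')).2 rfl, ?_⟩
            rw [ds_some] at h1
            exact ds_arcs.2 h1
      · left
        rw [ds_diff hl] at h1
        exact ⟨hl, (le_max_left _ _).trans_lt h1, (le_max_right _ _).trans_lt h1⟩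
  constructor
  · rintro ⟨x, hx, y, hy, i, j, rfl, h2⟩
    obtain ⟨a, ha, rfl⟩ := (hX' _).1 hx
    obtain ⟨b, hb, rfl⟩ := (hX' _).1 hy
    rw [h.rho_eq] at h2
    exact ⟨_, hx, _, hy, _, nat_om' i, _, nat_om' j, rfl, (key a b i j ha hb).2 h2⟩
  · rintro ⟨x, hx, y, hy, i, hi, j, hj, rfl, h2⟩
    obtain ⟨a, ha, rfl⟩ := (hX' _).1 hx
    obtain ⟨b, hb, rfl⟩ := (hX' _).1 hy
    obtain ⟨i, rfl⟩ := mem_omega_iff.1 hi
    obtain ⟨j, rfl⟩ := mem_omega_iff.1 hj
    refine ⟨_, hx, _, hy, i, j, rfl, ?_⟩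
    rw [h.rho_eq]
    exact (key a b i j ha hb).1 h2

end Sit

end Pool.Agent.D0H63.Cu
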