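import Pool.Agent.D0H63.Cu.Sp2
import Pool.Agent.R598.CI.Sem

/-!
# The topology of the space of the circles
-/

set_option autoImplicit false
set_option linter.unusedSectionVars false

namespace Pool.Agent.D0H63.Cu

open Pool.Agent.W868 Pool.Agent.W868.PName
open Pool.Agent.R598.CI (Kc arc isOpen_arc exists_arc RC RCS mem_RCS Pt lev sz ds ds_eq_zero ds_comm
  ds_tri ds_some ds_none ds_same ds_diff sz_le_ds sz_nonneg arcs)
open Pool.Agent.R598.TY (real mem_real enc_mem_real real_sub)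
open ZFSet (pair)

/-- The open sets. -/
def Op (M : Set ZFSet.{0}) (f : ℕ → ℕ → Kc) (U : ZFSet.{0}) : Prop :=
  ∀ a, In M a → pp f a ∈ U → ∃ j : ℕ, ∀ b, In M b → ds a b < 1 / ((j : ℝ) + 1) → pp f b ∈ U

/-- The topology. -/
structure IsTau (M : Set ZFSet.{0}) (f : ℕ → ℕ → Kc) (X τ : ZFSet.{0}) : Prop where
  xm : X ∈ M
  x : ∀ x, x ∈ X ↔ ∃ a, In M a ∧ x = pp f a
  tm : τ ∈ M
  t : ∀ U, U ∈ τ ↔ U ∈ M ∧ U ⊆ X ∧ Op M f U

namespace Sit

variable {M : Set ZFSet.{0}} {f : ℕ → ℕ → Kc} {O : ZFSet.{0}} (h : Sit M f O)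

include h

theorem mem_cut {X : ZFSet.{0}} (hX' : ∀ x, x ∈ X ↔ ∃ a, In M a ∧ x = pp f a) {a b : Pt}
    (ha : In M a) (hb : In M b) {i j : ℕ} :
    pair (pair (pp f a) (pp f b)) (pair (nat i) (nat j)) ∈ R596Fc.cut X (rho f) ↔
      ds a b < (i : ℝ) / (j + 1) := by
  rw [R596Fc.cut, ZFSet.mem_sep]
  constructor
  · rintro ⟨-, x, hx, y, hy, i', j', h1, h2⟩
    obtain ⟨h3, h4⟩ := ZFSet.pair_inj.1 h1
    obtain ⟨h5, h6⟩ := ZFSet.pair_inj.1 h3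
    obtain ⟨h7, h8⟩ := ZFSet.pair_inj.1 h4
    rw [← h5, ← h6, ← nat_injective h7, ← nat_injective h8, h.rho_eq] at h2
    exact h2
  · intro h1
    have h2 := (hX' _).2 ⟨a, ha, rfl⟩
    have h3 := (hX' _).2 ⟨b, hb, rfl⟩
    refine ⟨ZFSet.pair_mem_prod.2 ⟨ZFSet.pair_mem_prod.2 ⟨h2, h3⟩, ZFSet.pair_mem_prod.2
      ⟨nat_om' i, nat_om' j⟩⟩, _, h2, _, h3, i, j, rfl, ?_⟩
    rwa [h.rho_eq]

theorem exists_tau : ∃ X τ, IsTau M f X τ := by
  have hM := h.zf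
  have hω := h.om
  obtain ⟨X, hX, hX'⟩ := h.exists_X
  have hC := h.cut_mem hX hX'
  have h1 := hM.nat_mem 1
  obtain ⟨P, hP, hP'⟩ := hM.power _ hX
  refine ⟨X, _, hX, hX', hM.sep_mem (Q := fun U => ∀ x ∈ U, ∃ j ∈ ZFSet.omega, ∀ y ∈ X,
    pair (pair x y) (pair (nat 1) j) ∈ R596Fc.cut X (rho f) → y ∈ U) (by (repeat' first | assumption | exact DfnF.proj _ | exact DfnF.const (by assumption) | exact Dfn.prop _ | apply Dfn.not | apply Dfn.and | apply Dfn.or | apply Dfn.imp | apply Dfn.iff | apply hM.base.bex | apply hM.base.ball | apply Dfn.ex | apply Dfn.all | apply Dfn.eq | apply Dfn.mem | apply hM.base.pair')) hP, fun U => ?_⟩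
  rw [ZFSet.mem_sep, hP', and_assoc]
  refine and_congr_right fun _ => and_congr_right fun hUX => ?_
  constructor
  · intro h2 a ha haU
    obtain ⟨j, hj, h3⟩ := h2 _ haU
    obtain ⟨j, rfl⟩ := mem_omega_iff.1 hj
    refine ⟨j, fun b hb hab => h3 _ ((hX' _).2 ⟨b, hb, rfl⟩) ((h.mem_cut hX' ha hb).2 ?_)⟩
    rwa [Nat.cast_one]
  · intro h2 x hx
    obtain ⟨a, ha, rfl⟩ := (hX' _).1 (hUX hx)
    obtain ⟨j, h3⟩ := h2 a ha hx
    refine ⟨nat j, nat_om' j, fun y hy hxy => ?_⟩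
    obtain ⟨b, hb, rfl⟩ := (hX' _).1 hy
    have h4 := (h.mem_cut hX' ha hb).1 hxy
    rw [Nat.cast_one] at h4
    exact h3 b hb h4

theorem div_anti {i j : ℕ} (hij : i ≤ j) : 1 / ((j : ℝ) + 1) ≤ 1 / ((i : ℝ) + 1) := by
  have h1 : (i : ℝ) ≤ j := Nat.cast_le.2 hij
  exact one_div_le_one_div_of_le (by positivity) (by linarith)

theorem isTop {X τ : ZFSet.{0}} (hτ : IsTau M f X τ) : R596Fc.IsTop M X τ := by
  have hM := h.zf
  have hX := hτ.xm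
  refine ⟨hX, hτ.tm, fun U hU => ((hτ.t U).1 hU).2.1, (hτ.t _).2 ⟨hM.empty_mem,
    ZFSet.empty_subset _, fun a _ h => absurd h (ZFSet.notMem_empty _)⟩, (hτ.t _).2 ⟨hX,
      fun _ h => h, fun a _ _ => ⟨0, fun b hb _ => (hτ.x _).2 ⟨b, hb, rfl⟩⟩⟩, ?_, ?_⟩
  · intro U hU V hV
    obtain ⟨h1, h2, h3⟩ := (hτ.t U).1 hU
    obtain ⟨h4, h5, h6⟩ := (hτ.t V).1 hV
    refine (hτ.t _).2 ⟨?_, fun x hx => h2 (ZFSet.mem_inter.1 hx).1, ?_⟩
    · have h7 := hM.sep_mem (Q := fun z => z ∈ V) (by (repeat' first | assumption | exact DfnF.proj _ | exact DfnF.const (by assumption) | exact Dfn.prop _ | apply Dfn.not | apply Dfn.and | apply Dfn.or | apply Dfn.imp | apply Dfn.iff | apply hM.base.bex | apply hM.base.ball | apply Dfn.ex | apply Dfn.all | apply Dfn.eq | apply Dfn.mem | apply hM.base.pair')) h1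
      have h8 : ZFSet.sep (fun z => z ∈ V) U = U ∩ V := by
        ext z
        rw [ZFSet.mem_sep, ZFSet.mem_inter]
      rwa [h8] at h7
    · intro a ha haO
      obtain ⟨h7, h8⟩ := ZFSet.mem_inter.1 haO
      obtain ⟨i, hi⟩ := h3 a ha h7
      obtain ⟨j, hj⟩ := h6 a ha h8
      refine ⟨max i j, fun b hb hab => ZFSet.mem_inter.2 ⟨hi b hb ?_, hj b hb ?_⟩⟩
      · exact hab.trans_le (h.div_anti (le_max_left _ _))
      · exact hab.trans_le (h.div_anti (le_max_right _ _))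
  · intro C hC hCτ
    refine (hτ.t _).2 ⟨hM.union _ hC, fun x hx => ?_, fun a ha haO => ?_⟩
    · obtain ⟨U, hU, hxU⟩ := ZFSet.mem_sUnion.1 hx
      exact ((hτ.t U).1 (hCτ hU)).2.1 hxU
    · obtain ⟨U, hU, hxU⟩ := ZFSet.mem_sUnion.1 haO
      obtain ⟨j, hj⟩ := ((hτ.t U).1 (hCτ hU)).2.2 a ha hxU
      exact ⟨j, fun b hb hab => ZFSet.mem_sUnion.2 ⟨U, hU, hj b hb hab⟩⟩

theorem isMet {X τ : ZFSet.{0}} (hτ : IsTau M f X τ) : R596Fc.Metrizable M X τ := by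
  refine ⟨rho f, ⟨h.cut_mem hτ.xm hτ.x, ?_, ?_, ?_, ?_⟩, ?_⟩
  · intro x hx
    obtain ⟨a, ha, rfl⟩ := (hτ.x _).1 hx
    rw [h.rho_eq, ds_eq_zero]
  · intro x hx y hy hxy
    obtain ⟨a, ha, rfl⟩ := (hτ.x _).1 hx
    obtain ⟨b, hb, rfl⟩ := (hτ.x _).1 hy
    rw [h.rho_eq, ds_eq_zero] at hxy
    rw [hxy]
  · intro x hx y hy
    obtain ⟨a, ha, rfl⟩ := (hτ.x _).1 hx
    obtain ⟨b, hb, rfl⟩ := (hτ.x _).1 hy
    rw [h.rho_eq, h.rho_eq, ds_comm]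
  · intro x hx y hy z hz
    obtain ⟨a, ha, rfl⟩ := (hτ.x _).1 hx
    obtain ⟨b, hb, rfl⟩ := (hτ.x _).1 hy
    obtain ⟨c, hc, rfl⟩ := (hτ.x _).1 hz
    rw [h.rho_eq, h.rho_eq, h.rho_eq]
    exact ds_tri a b c
  · intro U hU hUX
    rw [hτ.t]
    constructor
    · rintro ⟨-, -, h1⟩ x hx
      obtain ⟨a, ha, rfl⟩ := (hτ.x _).1 (hUX hx)
      obtain ⟨j, hj⟩ := h1 a ha hx
      refine ⟨1 / ((j : ℝ) + 1), by positivity, fun y hy hxy => ?_⟩
      obtain ⟨b, hb, rfl⟩ := (hτ.x _).1 hy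
      rw [h.rho_eq] at hxy
      exact hj b hb hxy
    · intro h1
      refine ⟨hU, hUX, fun a ha haO => ?_⟩
      obtain ⟨ε, hε, h2⟩ := h1 _ haO
      obtain ⟨j, hj⟩ := exists_nat_one_div_lt hε
      refine ⟨j, fun b hb hab => h2 _ ((hτ.x _).2 ⟨b, hb, rfl⟩) ?_⟩
      rw [h.rho_eq]
      exact hab.trans hj

/-! ### Compactness -/

theorem code_real {r : ℝ} (hr : real r ∈ M) : code (r : Kc) ∈ M := by
  have hM := h.zf
  have hω := h.om
  have hH : HQ ∈ M := h.par _ hq_Par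
  have h3 := hM.sep_mem (Q := fun c => ∃ q ∈ real r, ∃ q' ∈ ZFSet.omega, ¬ q' ∈ real r ∧
    pair q (pair q' c) ∈ HQ) (by (repeat' first | assumption | exact DfnF.proj _ | exact DfnF.const (by assumption) | exact Dfn.prop _ | apply Dfn.not | apply Dfn.and | apply Dfn.or | apply Dfn.imp | apply Dfn.iff | apply hM.base.bex | apply hM.base.ball | apply Dfn.ex | apply Dfn.all | apply Dfn.eq | apply Dfn.mem | apply hM.base.pair')) hω
  have h4 : ZFSet.sep (fun c => ∃ q ∈ real r, ∃ q' ∈ ZFSet.omega, ¬ q' ∈ real r ∧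
    pair q (pair q' c) ∈ HQ) ZFSet.omega = code (r : Kc) := by
    ext z
    rw [ZFSet.mem_sep]
    constructor
    · rintro ⟨hz, q, hq, q', hq', h5, h6⟩
      obtain ⟨c, rfl⟩ := mem_omega_iff.1 hz
      obtain ⟨q, hqr, rfl⟩ := mem_real.1 hq
      obtain ⟨-, p, p', c', h7, h8⟩ := ZFSet.mem_sep.1 h6
      obtain ⟨h9, h10⟩ := ZFSet.pair_inj.1 h8
      obtain ⟨h11, h12⟩ := ZFSet.pair_inj.1 h10
      rw [h11, enc_mem_real, not_lt] at h5
      have h13 : q = p := Encodable.encode_injective (nat_injective h9)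
      have h14 : c = c' := nat_injective h12
      rw [h14]
      exact nat_mem_code.2 (h7 r (h13 ▸ hqr) h5)
    · intro hz
      obtain ⟨c, hc, rfl⟩ := mem_code.1 hz
      refine ⟨nat_om' c, ?_⟩
      have h5 : IsOpen (((↑) : ℝ → Kc) ⁻¹' arc c) :=
        (isOpen_arc c).preimage (AddCircle.continuous_mk' 1)
      obtain ⟨ε, hε, h6⟩ := Metric.isOpen_iff.1 h5 r hc
      obtain ⟨q, hq1, hq2⟩ := exists_rat_btwn (show r - ε < r by linarith)
      obtain ⟨q', hq3, hq4⟩ := exists_rat_btwn (show r < r + ε by linarith)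
      refine ⟨_, enc_mem_real.2 hq2, nat (Encodable.encode q'), nat_om' _, fun h7 => ?_,
        mem_HQ.2 fun s hs1 hs2 => ?_⟩
      · exact absurd (enc_mem_real.1 h7) (not_lt.2 hq3.le)
      · apply h6
        rw [Metric.mem_ball, Real.dist_eq, abs_lt]
        constructor <;> linarith
  rwa [h4] at h3

theorem circle_comp {X τ : ZFSet.{0}} (hτ : IsTau M f X τ) {C : ZFSet.{0}} (hC : C ∈ M)
    (n : ℕ) (hOp : ∀ U ∈ C, Op M f U)
    (hcov : ∀ θ, code θ ∈ M → ∃ U ∈ C, pp f (some (n, θ)) ∈ U) :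
    ∃ s : Set ZFSet.{0}, s.Finite ∧ (∀ U ∈ s, U ∈ C) ∧
      ∀ θ, code θ ∈ M → ∃ U ∈ s, pp f (some (n, θ)) ∈ U := by
  have hM := h.zf
  have hX := hτ.xm
  have hω := h.om
  have hA : AS ∈ M := h.par _ as_Par
  have hQ : QS ∈ M := h.par _ qs_Par
  have hRCS : RCS ∈ M := h.par _ rcs_Par
  have hMem : R598.TY.Mem ∈ M := h.par _ mem_Par
  obtain ⟨P, hP, hP'⟩ := h.exists_P
  obtain ⟨R, hR, hR'⟩ := hM.power _ hP
  have hn := hM.nat_mem n
  have hC0 := h.cs_mem n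
  have hR1 : ∀ n θ, code θ ∈ M → (cs fun i => f n i + θ) ∈ R := by
    intro n θ hθ
    refine (hR' _).2 ⟨h.cs_add_mem hθ, fun b hb => ?_⟩
    obtain ⟨i, rfl⟩ := mem_cs.1 hb
    exact (hP' _).2 ⟨h.code_add (h.code_f n i) hθ, code_sub _⟩
  have hP1 : ∀ θ, code θ ∈ M → code θ ∈ P := fun θ hθ => (hP' _).2 ⟨hθ, code_sub _⟩
  have hS := hM.sep_mem (Q := fun c => ∃ U ∈ C, ∀ D ∈ R, ∀ t ∈ P, CdP QS ZFSet.omega t →
    c ∈ t → TrP AS ZFSet.omega (cs (f n)) t D → pair (nat n) D ∈ U)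
    (by unfold CdP TrP Sm; (repeat' first | assumption | exact DfnF.proj _ | exact DfnF.const (by assumption) | exact Dfn.prop _ | apply Dfn.not | apply Dfn.and | apply Dfn.or | apply Dfn.imp | apply Dfn.iff | apply hM.base.bex | apply hM.base.ball | apply Dfn.ex | apply Dfn.all | apply Dfn.eq | apply Dfn.mem | apply hM.base.pair')) hω
  obtain ⟨S0, hS0⟩ : ∃ S0, S0 = ZFSet.sep (fun c => ∃ U ∈ C, ∀ D ∈ R, ∀ t ∈ P,
    CdP QS ZFSet.omega t → c ∈ t → TrP AS ZFSet.omega (cs (f n)) t D → pair (nat n) D ∈ U)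
    ZFSet.omega := ⟨_, rfl⟩
  rw [← hS0] at hS
  have hS0m : ∀ c : ℕ, nat c ∈ S0 ↔ ∃ U ∈ C, ∀ θ ∈ arc c, code θ ∈ M →
      pp f (some (n, θ)) ∈ U := by
    intro c
    rw [hS0, ZFSet.mem_sep]
    constructor
    · rintro ⟨-, U, hU, h1⟩
      refine ⟨U, hU, fun θ hθ hθN => ?_⟩
      refine h1 _ (hR1 n θ hθN) _ (hP1 θ hθN) (cd_code θ) (nat_mem_code.2 hθ) ?_
      refine (tr_iff fun b hb => ?_).2 rfl
      obtain ⟨i, rfl⟩ := mem_cs.1 hb
      exact code_sub _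
    · rintro ⟨U, hU, h1⟩
      refine ⟨nat_om' c, U, hU, fun D hD t ht h2 h3 h4 => ?_⟩
      obtain ⟨θ, rfl⟩ := cd_iff.1 h2
      have h5 := (tr_iff fun b hb => ((hP' _).1 (((hR' _).1 hD).2 hb)).2).1 h4
      rw [h5]
      exact h1 θ (nat_mem_code.1 h3) ((hP' _).1 ht).1
  rcases arcs {c | nat c ∈ S0} with ⟨t, ht1, ht2⟩ | ⟨r, hr1, hr2⟩
  · have h1 : ∀ c : t, ∃ U ∈ C, ∀ θ ∈ arc c.1, code θ ∈ M → pp f (some (n, θ)) ∈ U :=
      fun c => (hS0m c.1).1 (ht1 c.1 c.2)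
    choose U hU hU' using h1
    refine ⟨Set.range U, Set.finite_range U, ?_, fun θ hθN => ?_⟩
    · rintro _ ⟨c, rfl⟩
      exact hU c
    · obtain ⟨c, hc, hθ⟩ := ht2 θ
      exact ⟨_, ⟨⟨c, hc⟩, rfl⟩, hU' ⟨c, hc⟩ θ hθ hθN⟩
  · exfalso
    have hrM := hM.sep_mem (Q := fun k => ∃ t ∈ ZFSet.omega, pair k t ∈ RCS ∧
      ∀ m ∈ ZFSet.omega, pair m t ∈ R598.TY.Mem → m ∈ S0) (by (repeat' first | assumption | exact DfnF.proj _ | exact DfnF.const (by assumption) | exact Dfn.prop _ | apply Dfn.not | apply Dfn.and | apply Dfn.or | apply Dfn.imp | apply Dfn.iff | apply hM.base.bex | apply hM.base.ball | apply Dfn.ex | apply Dfn.all | apply Dfn.eq | apply Dfn.mem | apply hM.base.pair')) hω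
    have h1 : ZFSet.sep (fun k => ∃ t ∈ ZFSet.omega, pair k t ∈ RCS ∧
        ∀ m ∈ ZFSet.omega, pair m t ∈ R598.TY.Mem → m ∈ S0) ZFSet.omega = real r := by
      ext k
      rw [ZFSet.mem_sep, mem_real]
      constructor
      · rintro ⟨-, t, -, h1, h2⟩
        obtain ⟨q, s, h3, rfl, rfl⟩ := mem_RCS.1 h1
        exact ⟨q, (hr2 q).2 ⟨s, h3, fun c hc => h2 _ (nat_om' c) (R598.TY.mem_Mem.2 hc)⟩, rfl⟩
      · rintro ⟨q, hq, rfl⟩
        obtain ⟨s, h3, h4⟩ := (hr2 q).1 hq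
        refine ⟨nat_om' _, _, nat_om' _, mem_RCS.2 ⟨q, s, h3, rfl, rfl⟩, fun m hm h5 => ?_⟩
        obtain ⟨m, rfl⟩ := mem_omega_iff.1 hm
        exact h4 m (R598.TY.mem_Mem.1 h5)
    rw [h1] at hrM
    have hrN := h.code_real hrM
    obtain ⟨U, hUC, hxU⟩ := hcov _ hrN
    obtain ⟨j, hj⟩ := hOp U hUC (some (n, (r : Kc))) hrN hxU
    obtain ⟨c, hc1, hc2⟩ := exists_arc (θ := (r : Kc)) (show (0 : ℝ) < 1 / ((j : ℝ) + 1) by
      positivity)
    refine hr1 c ((hS0m c).2 ⟨U, hUC, fun θ hθ hθN => hj (some (n, θ)) hθN ?_⟩) hc1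
    rw [ds_comm, ds_some]
    have h2 := hc2 θ hθ
    have h3 : (1 / 2 : ℝ) ^ n ≤ 1 := pow_le_one₀ (by norm_num) (by norm_num)
    calc (1 / 2 : ℝ) ^ n * ‖θ - (r : Kc)‖ ≤ 1 * ‖θ - (r : Kc)‖ :=
          mul_le_mul_of_nonneg_right h3 (norm_nonneg _)
      _ < 1 / ((j : ℝ) + 1) := by rwa [one_mul]

theorem isComp {X τ : ZFSet.{0}} (hτ : IsTau M f X τ) : R596Fc.Compact M X τ := by
  classical
  have hM := h.zf
  intro C hC hCτ hcov
  have hOp : ∀ U ∈ C, Op M f U := fun U hU => ((hτ.t U).1 (hCτ hU)).2.2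
  have hnone : In M none := trivial
  obtain ⟨U0, hU0, h0⟩ := hcov _ ((hτ.x _).2 ⟨none, hnone, rfl⟩)
  obtain ⟨j, hj⟩ := hOp U0 hU0 none hnone h0
  have h1 : ∀ n : ℕ, ∃ s : Set ZFSet.{0}, s.Finite ∧ (∀ U ∈ s, U ∈ C) ∧
      ∀ θ, code θ ∈ M → ∃ U ∈ s, pp f (some (n, θ)) ∈ U := fun n =>
    h.circle_comp hτ hC n hOp fun θ hθ => hcov _ ((hτ.x _).2 ⟨some (n, θ), hθ, rfl⟩)
  choose s hs1 hs2 hs3 using h1
  obtain ⟨N, hN⟩ := exists_pow_lt_of_lt_one (show (0 : ℝ) < 1 / ((j : ℝ) + 1) by positivity)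
    (show (1 / 2 : ℝ) < 1 by norm_num)
  refine ⟨{U0} ∪ ⋃ n ∈ Finset.range N, s n, (Set.finite_singleton _).union
    (Set.Finite.biUnion (Finset.finite_toSet _) fun n _ => hs1 n), ?_, ?_⟩
  · rintro U (rfl | hU)
    · exact hU0
    · obtain ⟨n, hn⟩ := Set.mem_iUnion.1 hU
      obtain ⟨-, hn⟩ := Set.mem_iUnion.1 hn
      exact hs2 n U hn
  · intro x hx
    obtain ⟨a, ha, rfl⟩ := (hτ.x _).1 hx
    cases a with
    | none => exact ⟨U0, Or.inl rfl, h0⟩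
    | some i =>
      obtain ⟨n, θ⟩ := i
      by_cases hn : n < N
      · obtain ⟨U, hU, hxU⟩ := hs3 n θ ha
        refine ⟨U, Or.inr ?_, hxU⟩
        exact Set.mem_iUnion.2 ⟨n, Set.mem_iUnion.2 ⟨Finset.mem_range.2 hn, hU⟩⟩
      · refine ⟨U0, Or.inl rfl, hj _ ha ?_⟩
        rw [ds_none]
        exact (pow_le_pow_of_le_one (by norm_num) (by norm_num) (not_lt.1 hn)).trans_lt hN

/-! ### The space is not separable -/

theorem not_sep {X τ : ZFSet.{0}} (hτ : IsTau M f X τ) : ¬ R596Fc.Separable M X τ := by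
  classical
  rintro ⟨D, hD, hDX, ⟨e, he, hinj⟩, hdense⟩
  have hM := h.zf
  have hX := hτ.xm
  have hω := h.om
  obtain ⟨P, hP, hP'⟩ := h.exists_P
  obtain ⟨R, hR, hR'⟩ := hM.power _ hP
  have h0 := hM.nat_mem 0
  have hp0 : pair (nat 0) ∅ ∈ M := hM.pair_mem h0 hM.empty_mem
  have hR1 : ∀ n θ, code θ ∈ M → (cs fun i => f n i + θ) ∈ R := by
    intro n θ hθ
    refine (hR' _).2 ⟨h.cs_add_mem hθ, fun b hb => ?_⟩
    obtain ⟨i, rfl⟩ := mem_cs.1 hb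
    exact (hP' _).2 ⟨h.code_add (h.code_f n i) hθ, code_sub _⟩
  have hns : ∀ a : ℕ × Kc, pp f (some a) ≠ pair (nat 0) ∅ := fun a h1 =>
    cs_ne _ (ZFSet.pair_inj.1 h1).2
  have hs := hM.sep_mem (Q := fun w => ¬ w = pair (nat 0) ∅ ∧ ∃ n ∈ ZFSet.omega, ∃ E ∈ R,
    w = pair n E ∧ ∃ i ∈ ZFSet.omega, pair w i ∈ e ∧ ∀ E' ∈ R, ∀ i' ∈ ZFSet.omega,
      ¬ pair n E' = pair (nat 0) ∅ → pair (pair n E') i' ∈ e → ¬ i' ∈ i) (by (repeat' first | assumption | exact DfnF.proj _ | exact DfnF.const (by assumption) | exact Dfn.prop _ | apply Dfn.not | apply Dfn.and | apply Dfn.or | apply Dfn.imp | apply Dfn.iff | apply hM.base.bex | apply hM.base.ball | apply Dfn.ex | apply Dfn.all | apply Dfn.eq | apply Dfn.mem | apply hM.base.pair')) hD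
  refine h.nc _ hs fun n => ?_
  -- the circle is open
  have hnM : nat n ∈ M := hM.nat_mem n
  have hA := hM.sep_mem (Q := fun x => ¬ x = pair (nat 0) ∅ ∧ ∃ E ∈ R, x = pair (nat n) E)
    (by (repeat' first | assumption | exact DfnF.proj _ | exact DfnF.const (by assumption) | exact Dfn.prop _ | apply Dfn.not | apply Dfn.and | apply Dfn.or | apply Dfn.imp | apply Dfn.iff | apply hM.base.bex | apply hM.base.ball | apply Dfn.ex | apply Dfn.all | apply Dfn.eq | apply Dfn.mem | apply hM.base.pair')) hX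
  have hAm : ∀ a, In M a → pp f a ∈ ZFSet.sep (fun x => ¬ x = pair (nat 0) ∅ ∧
      ∃ E ∈ R, x = pair (nat n) E) X → ∃ θ, a = some (n, θ) := by
    intro a ha h1
    obtain ⟨-, h2, E, -, h3⟩ := ZFSet.mem_sep.1 h1
    cases a with
    | none => exact absurd rfl h2
    | some a =>
      obtain ⟨h4, -⟩ := ZFSet.pair_inj.1 h3
      refine ⟨a.2, ?_⟩
      rw [← nat_injective h4]
  have hAm' : ∀ θ, code θ ∈ M → pp f (some (n, θ)) ∈ ZFSet.sep (fun x => ¬ x = pair (nat 0) ∅ ∧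
      ∃ E ∈ R, x = pair (nat n) E) X := fun θ hθ =>
    ZFSet.mem_sep.2 ⟨(hτ.x _).2 ⟨some (n, θ), hθ, rfl⟩, hns _, _, hR1 n θ hθ, rfl⟩
  have h1 : ∃ x ∈ D, x ∈ ZFSet.sep (fun x => ¬ x = pair (nat 0) ∅ ∧
      ∃ E ∈ R, x = pair (nat n) E) X := by
    refine hdense _ ((hτ.t _).2 ⟨hA, fun x hx => (ZFSet.mem_sep.1 hx).1, ?_⟩) ⟨_,
      hAm' 0 h.code_zero⟩
    intro a ha haO
    obtain ⟨θ, rfl⟩ := hAm a ha haO
    obtain ⟨j, hj⟩ := exists_nat_one_div_lt (show (0 : ℝ) < (1 / 2) ^ n by positivity)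
    refine ⟨j, fun b hb hab => ?_⟩
    have h5 : lev (some (n, θ)) = lev b := by
      by_contra hc
      exact absurd (hab.trans hj) (not_lt.2 (sz_le_ds hc))
    cases b with
    | none => simp [lev] at h5
    | some i =>
      simp only [lev, Option.map_some, Option.some.injEq] at h5
      obtain ⟨m, θ'⟩ := i
      have h6 : n = m := h5
      subst h6
      exact hAm' θ' hb
  obtain ⟨x0, hx0D, hx0⟩ := h1
  -- the least element
  obtain ⟨i0, hi0, hx0i⟩ := fun_exists hinj.1 hx0D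
  obtain ⟨a0, ha0, hxa0⟩ := (hτ.x _).1 (hDX hx0D)
  rw [hxa0] at hx0 hx0D hx0i
  obtain ⟨θ0, rfl⟩ := hAm a0 ha0 hx0
  obtain ⟨i, ⟨hi, θ, hθM, hxi⟩, hmin⟩ := ZFSet.mem_wf.has_min
    {i | i ∈ ZFSet.omega ∧ ∃ θ, code θ ∈ M ∧ pair (pp f (some (n, θ))) i ∈ e}
    ⟨i0, hi0, θ0, ha0, hx0i⟩
  have hdom : ∀ x i, pair x i ∈ e → x ∈ D := fun x i h1 =>
    (ZFSet.pair_mem_prod.1 (hinj.1.1 h1)).1
  refine ⟨θ, hθM, fun z => ?_⟩
  constructor
  · intro hz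
    obtain ⟨hzD, hz0, n', hn', E, hE, h2, i', hi', h4, h5⟩ := ZFSet.mem_sep.1 hz
    obtain ⟨h6, rfl⟩ := ZFSet.pair_inj.1 h2
    subst h6
    obtain ⟨a, ha, hza⟩ := (hτ.x _).1 (hDX hzD)
    cases a with
    | none => exact absurd hza hz0
    | some a =>
      obtain ⟨m, φ⟩ := a
      obtain ⟨h7, h8⟩ := ZFSet.pair_inj.1 hza
      have h9 : n = m := nat_injective h7
      subst h9
      rw [hza] at h4
      obtain ⟨k, rfl⟩ := mem_omega_iff.1 hi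
      obtain ⟨k', rfl⟩ := mem_omega_iff.1 hi'
      have h7 : ¬ k' < k := fun h => hmin _ ⟨nat_om' k', φ, ha, h4⟩ (R598.CI.nat_mem_nat' h)
      have h8' : ¬ k < k' := fun hk => h5 _ (hR1 n θ hθM) _ (nat_om' k) (hns (n, θ)) hxi
        (R598.CI.nat_mem_nat' hk)
      have h9 : k = k' := by omega
      subst h9
      have h10 := hinj.2 _ _ _ h4 hxi
      have h11 := h.pp_inj h10
      have h12 : φ = θ := (Prod.mk.inj (Option.some.inj h11)).2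
      rw [h8]
      change (cs fun i => f n i + φ) = _
      rw [h12]
  · rintro rfl
    refine ZFSet.mem_sep.2 ⟨hdom _ _ hxi, hns (n, θ), nat n, nat_om' n, _, hR1 n θ hθM,
      rfl, i, hi, hxi, fun E' hE' i' hi' h2 h3 h4 => ?_⟩
    obtain ⟨a, ha, hza⟩ := (hτ.x _).1 (hDX (hdom _ _ h3))
    cases a with
    | none => exact absurd hza h2
    | some a =>
      obtain ⟨m, φ⟩ := a
      obtain ⟨h7, h8⟩ := ZFSet.pair_inj.1 hza
      have h9 : n = m := nat_injective h7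
      subst h9
      rw [hza] at h3
      exact hmin i' ⟨hi', φ, ha, h3⟩ h4

theorem not_mcs : ¬ R596Fc.MCS M := by
  intro h1
  obtain ⟨X, τ, hτ⟩ := h.exists_tau
  exact h.not_sep hτ (h1 X τ (h.isTop hτ) (h.isComp hτ) (h.isMet hτ))

end Sit

end Pool.Agent.D0H63.Cu
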